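import Mathlib

set_option autoImplicit false
set_option linter.unusedSimpArgs false

/-! Loops in loop spaces. -/

namespace Pool.Agent.H668R2.Ctr

open Set Topology unitInterval

/-- The group of homotopy classes of loops. -/
@[reducible] noncomputable def loopGroup {X : Type*} [TopologicalSpace X] (x : X) :
    Group (Path.Homotopic.Quotient x x) where
  mul p q := p.trans q
  mul_assoc p q r := Path.Homotopic.Quotient.trans_assoc p q r
  one := Path.Homotopic.Quotient.refl x
  one_mul p := Path.Homotopic.Quotient.refl_trans p
  mul_one p := Path.Homotopic.Quotient.trans_refl p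
  inv p := p.symm
  inv_mul_cancel p := Path.Homotopic.Quotient.symm_trans p

section

variable {X : Type*} [TopologicalSpace X] {z : X}

/-- pointwise concatenation of loops of loops -/
noncomputable def muP (a b : Path (Path.refl z) (Path.refl z)) : Path (Path.refl z) (Path.refl z) where
  toFun t := (a t).trans (b t)
  continuous_toFun := Path.continuous_trans.comp (a.continuous.prodMk b.continuous)
  source' := by rw [a.source, b.source]; exact Path.refl_trans_refl
  target' := by rw [a.target, b.target]; exact Path.refl_trans_refl

theorem muP_apply (a b : Path (Path.refl z) (Path.refl z)) (t : I) :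
    muP a b t = (a t).trans (b t) := rfl

theorem muP_congr {a a' b b' : Path (Path.refl z) (Path.refl z)} (ha : a.Homotopic a')
    (hb : b.Homotopic b') : (muP a b).Homotopic (muP a' b') := by
  obtain ⟨F⟩ := ha
  obtain ⟨G⟩ := hb
  refine ⟨⟨⟨⟨fun p => (F p).trans (G p), ?_⟩, ?_, ?_⟩, ?_⟩⟩
  · exact Path.continuous_trans.comp (F.continuous.prodMk G.continuous)
  · intro t; simp [muP_apply]
  · intro t; simp [muP_apply]
  · intro t s hs
    simp only [mem_insert_iff, mem_singleton_iff] at hs
    rcases hs with rfl | rfl
    · simp only [ContinuousMap.coe_mk, F.source, G.source]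
      rw [show (muP a b).toContinuousMap 0 = Path.refl z from (muP a b).source]
      exact Path.refl_trans_refl
    · simp only [ContinuousMap.coe_mk, F.target, G.target]
      rw [show (muP a b).toContinuousMap 1 = Path.refl z from (muP a b).target]
      exact Path.refl_trans_refl

theorem muP_refl_right (a : Path (Path.refl z) (Path.refl z)) :
    (muP a (Path.refl _)).Homotopic a := by
  refine ⟨⟨⟨⟨fun p => Path.delayReflRight p.1 (a p.2), ?_⟩, ?_, ?_⟩, ?_⟩⟩
  · exact Path.continuous_delayReflRight.comp (continuous_fst.prodMk (a.continuous.comp continuous_snd))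
  · intro t
    simp only [ContinuousMap.coe_mk]
    rw [Path.delayReflRight_zero]; rfl
  · intro t
    simp only [ContinuousMap.coe_mk]
    rw [Path.delayReflRight_one]; rfl
  · intro t s hs
    simp only [mem_insert_iff, mem_singleton_iff] at hs
    rcases hs with rfl | rfl
    · simp only [ContinuousMap.coe_mk, a.source]
      rw [show (muP a (Path.refl _)).toContinuousMap 0 = Path.refl z from (muP a _).source]
      rfl
    · simp only [ContinuousMap.coe_mk, a.target]
      rw [show (muP a (Path.refl _)).toContinuousMap 1 = Path.refl z from (muP a _).target]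
      rfl

theorem muP_refl_left (a : Path (Path.refl z) (Path.refl z)) :
    (muP (Path.refl _) a).Homotopic a := by
  refine ⟨⟨⟨⟨fun p => Path.delayReflLeft p.1 (a p.2), ?_⟩, ?_, ?_⟩, ?_⟩⟩
  · exact Path.continuous_delayReflLeft.comp (continuous_fst.prodMk (a.continuous.comp continuous_snd))
  · intro t
    simp only [ContinuousMap.coe_mk]
    rw [Path.delayReflLeft_zero]; rfl
  · intro t
    simp only [ContinuousMap.coe_mk]
    rw [Path.delayReflLeft_one]; rfl
  · intro t s hs
    simp only [mem_insert_iff, mem_singleton_iff] at hs
    rcases hs with rfl | rfl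
    · simp only [ContinuousMap.coe_mk, a.source]
      rw [show (muP (Path.refl _) a).toContinuousMap 0 = Path.refl z from (muP _ a).source]
      rfl
    · simp only [ContinuousMap.coe_mk, a.target]
      rw [show (muP (Path.refl _) a).toContinuousMap 1 = Path.refl z from (muP _ a).target]
      rfl

theorem muP_trans (a b a' b' : Path (Path.refl z) (Path.refl z)) :
    muP (a.trans a') (b.trans b') = (muP a b).trans (muP a' b') := by
  apply Path.ext
  funext t
  rw [muP_apply, Path.trans_apply, Path.trans_apply, Path.trans_apply]
  split_ifs <;> rfl

theorem muP_mk (a b : Path (Path.refl z) (Path.refl z)) :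
    Path.Homotopic.Quotient.mk (muP a b) =
      (Path.Homotopic.Quotient.mk a).trans (Path.Homotopic.Quotient.mk b) := by
  rw [← Path.Homotopic.Quotient.mk_trans, Path.Homotopic.Quotient.eq]
  have h1 : (muP a b).Homotopic (muP (a.trans (Path.refl _)) ((Path.refl _).trans b)) :=
    muP_congr (Path.Homotopic.trans_refl a).symm (Path.Homotopic.refl_trans b).symm
  rw [muP_trans] at h1
  exact h1.trans (Path.Homotopic.hcomp (muP_refl_right a) (muP_refl_left b))

theorem muP_mk' (a b : Path (Path.refl z) (Path.refl z)) :
    Path.Homotopic.Quotient.mk (muP a b) =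
      (Path.Homotopic.Quotient.mk b).trans (Path.Homotopic.Quotient.mk a) := by
  rw [← Path.Homotopic.Quotient.mk_trans, Path.Homotopic.Quotient.eq]
  have h1 : (muP a b).Homotopic (muP ((Path.refl _).trans a) (b.trans (Path.refl _))) :=
    muP_congr (Path.Homotopic.refl_trans a).symm (Path.Homotopic.trans_refl b).symm
  rw [muP_trans] at h1
  exact h1.trans (Path.Homotopic.hcomp (muP_refl_left b) (muP_refl_right a))

/-- The group of loops in a loop space is commutative. -/
@[reducible] noncomputable def loopComm (z : X) : CommGroup (Path.Homotopic.Quotient (Path.refl z) (Path.refl z)) where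
  __ := loopGroup (Path.refl z)
  mul_comm p q := by
    induction p using Path.Homotopic.Quotient.ind with | mk a =>
    induction q using Path.Homotopic.Quotient.ind with | mk b =>
    exact (muP_mk a b).symm.trans (muP_mk' a b)

end

end Pool.Agent.H668R2.Ctr
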