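import Mathlib
import Pool.Agent.Helper281.Sc.Car

set_option autoImplicit false

namespace Pool.Agent.H668R2.Ctr

open Set Topology
open Pool.Agent.Helper281.Sc (Simp IsCx)
open Pool.Agent.Helper281.Sc.Car

/-- The union of the closed simplices of `K`, in barycentric coordinates: the geometric
realization of the complex generated by `K`. -/
def Rl (K : Set (Finset ℕ)) : Set (ℕ → ℝ) := {x | ∃ s ∈ K, x ∈ Simp s}

/-- The vertex `v` as a point. -/
def dl (v : ℕ) : ℕ → ℝ := Pi.single v 1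

theorem Rl_mono {K L : Set (Finset ℕ)} (h : K ⊆ L) : Rl K ⊆ Rl L :=
  fun _ ⟨s, hs, hx⟩ => ⟨s, h hs, hx⟩

theorem Rl_eq (K : Set (Finset ℕ)) : Rl K = ⋃ s ∈ K, Simp s := by
  ext x; simp [Rl]

theorem isClosed_Rl {K : Set (Finset ℕ)} (hK : K.Finite) : IsClosed (Rl K) := by
  rw [Rl_eq]
  exact hK.isClosed_biUnion fun s _ => isClosed_simp s

theorem supp_mem {K : Set (Finset ℕ)} (hK : IsCx K) {x : ℕ → ℝ} (hx : x ∈ Rl K) :
    supp x ∈ K := by
  obtain ⟨s, hs, h⟩ := hx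
  exact hK.2 s hs _ (supp_subset h) (nonempty_of_mem_simp (mem_simp_supp h))

theorem mem_Rl_supp {K : Set (Finset ℕ)} {x : ℕ → ℝ} {s : Finset ℕ} (hx : x ∈ Simp s)
    (h : supp x ∈ K) : x ∈ Rl K := ⟨_, h, mem_simp_supp hx⟩

theorem mem_simp_of_supp {x : ℕ → ℝ} {s t : Finset ℕ} (hx : x ∈ Simp s) (h : supp x ⊆ t) :
    x ∈ Simp t := simp_mono h (mem_simp_supp hx)

theorem dl_mem (v : ℕ) : dl v ∈ Simp {v} := by
  refine ⟨fun u => ?_, fun u hu => ?_, ?_⟩
  · unfold dl
    by_cases h : u = v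
    · subst h; simp
    · simp [h]
  · unfold dl
    rw [Finset.mem_singleton] at hu
    simp [hu]
  · simp [dl]

theorem dl_mem_of {v : ℕ} {s : Finset ℕ} (h : v ∈ s) : dl v ∈ Simp s :=
  simp_mono (Finset.singleton_subset_iff.2 h) (dl_mem v)

theorem eq_dl {v : ℕ} {x : ℕ → ℝ} (hx : x ∈ Simp {v}) : x = dl v := by
  obtain ⟨_, h2, h3⟩ := hx
  rw [Finset.sum_singleton] at h3
  funext u
  by_cases h : u = v
  · subst h; simp [dl, h3]
  · rw [h2 u (by simpa using h)]; simp [dl, h]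

/-- Gluing finitely many functions continuous on closed sets. -/
theorem glue {W Z ι : Type*} [TopologicalSpace W] [TopologicalSpace Z] [Finite ι]
    (f0 : W → Z) (C : ι → Set W) (hC : ∀ i, IsClosed (C i)) (f : ι → W → Z)
    (hf : ∀ i, ContinuousOn (f i) (C i))
    (hag : ∀ i j w, w ∈ C i → w ∈ C j → f i w = f j w) :
    ∃ F : W → Z, ContinuousOn F (⋃ i, C i) ∧ ∀ i, ∀ w ∈ C i, F w = f i w := by
  classical
  refine ⟨fun w => if h : ∃ i, w ∈ C i then f h.choose w else f0 w, ?_, ?_⟩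
  · refine (locallyFinite_of_finite C).continuousOn_iUnion hC fun i => ?_
    refine (hf i).congr fun w hw => ?_
    have h : ∃ i, w ∈ C i := ⟨i, hw⟩
    simp only [dif_pos h]
    exact hag _ _ w h.choose_spec hw
  · intro i w hw
    have h : ∃ i, w ∈ C i := ⟨i, hw⟩
    simp only [dif_pos h]
    exact hag _ _ w h.choose_spec hw

end Pool.Agent.H668R2.Ctr
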