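import Mathlib
import Pool.Agent.H668R2.Ctr.Rl

set_option autoImplicit false

namespace Pool.Agent.H668R2.Ctr

open Set Topology
open Pool.Agent.Helper281.Sc (Simp IsCx)
open Pool.Agent.Helper281.Sc.Car
open Pool.Agent.Helper281.Sc.Fill (bc mn mn_le mn_attained mn_nonneg mn_zero continuous_mn sum_bc)

/-- factor of the radial projection -/
noncomputable def lam (s : Finset ℕ) (hs : s.Nonempty) (w : (ℕ → ℝ) × ℝ) : ℝ :=
  (max (1 - w.2 / 2) (1 - mn s hs w.1))⁻¹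

theorem lam_pos_aux (s : Finset ℕ) (hs : s.Nonempty) (w : (ℕ → ℝ) × ℝ) (h : w.2 ≤ 1) :
    0 < max (1 - w.2 / 2) (1 - mn s hs w.1) :=
  lt_of_lt_of_le (by linarith) (le_max_left _ _)

/-- radial projection from above the barycentre -/
noncomputable def rr (s : Finset ℕ) (hs : s.Nonempty) (w : (ℕ → ℝ) × ℝ) : (ℕ → ℝ) × ℝ :=
  (bc s + lam s hs w • (w.1 - bc s), 2 + lam s hs w * (w.2 - 2))

theorem rr_fill (s : Finset ℕ) (hs : s.Nonempty) :
    ContinuousOn (rr s hs) {w | w.1 ∈ Simp s ∧ w.2 ∈ Icc (0:ℝ) 1} ∧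
    (∀ w : (ℕ → ℝ) × ℝ, w.1 ∈ Simp s → w.2 ∈ Icc (0:ℝ) 1 →
      (rr s hs w).1 ∈ Simp s ∧ (rr s hs w).2 ∈ Icc (0:ℝ) 1 ∧
        ((∃ v ∈ s, (rr s hs w).1 v = 0) ∨ (rr s hs w).2 = 0)) ∧
    (∀ w : (ℕ → ℝ) × ℝ, w.1 ∈ Simp s → w.2 ∈ Icc (0:ℝ) 1 →
      ((∃ v ∈ s, w.1 v = 0) ∨ w.2 = 0) → rr s hs w = w) := by
  have hlam : ∀ w : (ℕ → ℝ) × ℝ, w.2 ∈ Icc (0:ℝ) 1 → w.1 ∈ Simp s →
      0 < lam s hs w ∧ lam s hs w * (1 - w.2 / 2) ≤ 1 ∧ lam s hs w * (1 - mn s hs w.1) ≤ 1 ∧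
      (lam s hs w * (1 - w.2 / 2) = 1 ∨ lam s hs w * (1 - mn s hs w.1) = 1) ∧ 1 ≤ lam s hs w := by
    intro w hw hw1
    have h0 := lam_pos_aux s hs w hw.2
    refine ⟨inv_pos.mpr h0, ?_, ?_, ?_, ?_⟩
    · unfold lam
      rw [inv_mul_le_iff₀ h0, mul_one]; exact le_max_left _ _
    · unfold lam
      rw [inv_mul_le_iff₀ h0, mul_one]; exact le_max_right _ _
    · unfold lam
      rcases max_choice (1 - w.2 / 2) (1 - mn s hs w.1) with h | h
      · left; rw [h] at h0 ⊢; exact inv_mul_cancel₀ h0.ne'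
      · right; rw [h] at h0 ⊢; exact inv_mul_cancel₀ h0.ne'
    · unfold lam
      rw [one_le_inv₀ h0]
      refine max_le (by linarith [hw.1]) (by linarith [mn_nonneg s hs w.1 hw1])
  have hN : (0:ℝ) < s.card := by exact_mod_cast hs.card_pos
  refine ⟨?_, ?_, ?_⟩
  · have hl : ContinuousOn (lam s hs) {w | w.1 ∈ Simp s ∧ w.2 ∈ Icc (0:ℝ) 1} := by
      unfold lam
      have hc := continuous_mn s hs
      refine ContinuousOn.inv₀ (by fun_prop) ?_
      rintro w ⟨_, hw⟩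
      exact (lam_pos_aux s hs w hw.2).ne'
    unfold rr
    refine ContinuousOn.prodMk ?_ ?_
    · exact continuousOn_const.add (hl.smul (by fun_prop))
    · exact continuousOn_const.add (hl.mul (by fun_prop))
  · intro w hw1 hw2
    obtain ⟨h1, h2, h3, h4, h5⟩ := hlam w hw2 hw1
    have hv : ∀ v ∈ s, 0 ≤ (rr s hs w).1 v := by
      intro v hv
      simp only [rr, Pi.add_apply, Pi.smul_apply, Pi.sub_apply, smul_eq_mul, bc, if_pos hv]
      have h6 := mn_le s hs w.1 hv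
      have h7 : 0 < (s.card : ℝ)⁻¹ := inv_pos.mpr hN
      have h8 : lam s hs w * (mn s hs w.1 * (s.card : ℝ)⁻¹) ≤ lam s hs w * w.1 v :=
        mul_le_mul_of_nonneg_left h6 h1.le
      have h9 : lam s hs w * (1 - mn s hs w.1) * (s.card : ℝ)⁻¹ ≤ 1 * (s.card : ℝ)⁻¹ :=
        mul_le_mul_of_nonneg_right h3 h7.le
      nlinarith
    refine ⟨⟨fun v => ?_, fun v hv => ?_, ?_⟩, ⟨?_, ?_⟩, ?_⟩
    · by_cases hvs : v ∈ s
      · exact hv v hvs
      · simp [rr, bc, if_neg hvs, hw1.2.1 v hvs]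
    · simp [rr, bc, if_neg hv, hw1.2.1 v hv]
    · simp only [rr, Pi.add_apply, Pi.smul_apply, Pi.sub_apply, smul_eq_mul]
      rw [Finset.sum_add_distrib, ← Finset.mul_sum, Finset.sum_sub_distrib, sum_bc s hs, hw1.2.2]
      ring
    · simp only [rr]; nlinarith
    · simp only [rr]; nlinarith [hw2.2]
    · rcases h4 with h4 | h4
      · right; simp only [rr]; nlinarith
      · left
        obtain ⟨v, hv, hv2⟩ := mn_attained s hs w.1
        refine ⟨v, hv, ?_⟩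
        simp only [rr, Pi.add_apply, Pi.smul_apply, Pi.sub_apply, smul_eq_mul, bc, if_pos hv, hv2]
        have : lam s hs w * (1 - mn s hs w.1) * (s.card : ℝ)⁻¹ = 1 * (s.card : ℝ)⁻¹ := by rw [h4]
        linarith
  · intro w hw1 hw2 hb
    have : lam s hs w = 1 := by
      unfold lam
      rcases hb with ⟨v, hv, hv0⟩ | h
      · rw [mn_zero s hs w.1 hw1 hv hv0, max_eq_right (by linarith [hw2.1])]; norm_num
      · rw [h, max_eq_left (by linarith [mn_nonneg s hs w.1 hw1])]; norm_num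
    ext
    · simp [rr, this]
    · simp [rr, this]

/-- Homotopy extension for finite simplicial pairs. -/
theorem hep {Z : Type*} [TopologicalSpace Z] (K L : Set (Finset ℕ)) (hK : IsCx K)
    (hLf : L.Finite) (hL : IsCx L) (hLK : L ⊆ K) (hKf : K.Finite) (g : (ℕ → ℝ) → Z)
    (hg : ContinuousOn g (Rl K)) (H : (ℕ → ℝ) × ℝ → Z)
    (hH : ContinuousOn H (Rl L ×ˢ Icc (0:ℝ) 1)) (h0 : ∀ x ∈ Rl L, H (x, 0) = g x) :
    ∃ G : (ℕ → ℝ) × ℝ → Z, ContinuousOn G (Rl K ×ˢ Icc (0:ℝ) 1) ∧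
      (∀ x ∈ Rl K, G (x, 0) = g x) ∧ ∀ x ∈ Rl L, ∀ t ∈ Icc (0:ℝ) 1, G (x, t) = H (x, t) := by
  classical
  set D : Set ((ℕ → ℝ) × ℝ) := {w | w.2 ∈ Icc (0:ℝ) 1} with hD
  have hDc : IsClosed D := isClosed_Icc.preimage continuous_snd
  set E : Set ((ℕ → ℝ) × ℝ) := {w | w.1 ∈ Rl L ∨ w.2 = 0} with hE
  have hEc : IsClosed E := ((isClosed_Rl hLf).preimage continuous_fst).union
    (isClosed_eq continuous_snd continuous_const)
  set g0 : (ℕ → ℝ) × ℝ → Z := fun w => if w.1 ∈ Rl L then H w else g w.1 with hg0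
  have hIcc0 : (0:ℝ) ∈ Icc (0:ℝ) 1 := by constructor <;> norm_num
  obtain ⟨F, hF⟩ := skel (W := (ℕ → ℝ) × ℝ) hK Prod.fst continuous_fst D E hDc hEc
    (fun _ => univ) (fun _ => univ) (fun _ _ _ _ _ => subset_univ _) (by
      intro s hs f0 hf0 _
      have hsne : s.Nonempty := by
        rw [Finset.nonempty_iff_ne_empty]; rintro rfl; exact hK.1 hs
      by_cases hsL : s ∈ L
      · refine ⟨f0, hf0.mono ?_, fun w _ => rfl, fun w _ => mem_univ _⟩
        intro w hw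
        exact ⟨hw.1, hw.2, Or.inr (Or.inl ⟨s, hsL, hw.1⟩)⟩
      · obtain ⟨r1, r2, r3⟩ := rr_fill s hsne
        have hbd : ∀ w ∈ Bd (Prod.fst : (ℕ → ℝ) × ℝ → _) D E s,
            w.1 ∈ Simp s ∧ w.2 ∈ Icc (0:ℝ) 1 ∧ ((∃ v ∈ s, w.1 v = 0) ∨ w.2 = 0) := by
          rintro w ⟨h1, h2, h3⟩
          refine ⟨h1, h2, ?_⟩
          rcases h3 with h3 | h3 | h3
          · exact Or.inl h3
          · left
            have h4 := supp_mem hL h3
            have h5 : supp w.1 ≠ s := fun h => hsL (h ▸ h4)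
            have h6 : supp w.1 ⊂ s := lt_of_le_of_ne (supp_subset h1) h5
            obtain ⟨v, hv, hv2⟩ := Finset.exists_of_ssubset h6
            refine ⟨v, hv, ?_⟩
            rw [mem_supp h1] at hv2
            push Not at hv2
            exact hv2
          · exact Or.inr h3
        refine ⟨fun w => f0 (rr s hsne w), ?_, ?_, fun w _ => mem_univ _⟩
        · refine hf0.comp r1 ?_
          intro w hw
          obtain ⟨a1, a2, a3⟩ := r2 w hw.1 hw.2
          refine ⟨a1, a2, ?_⟩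
          rcases a3 with a3 | a3
          · exact Or.inl a3
          · exact Or.inr (Or.inr a3)
        · intro w hw
          obtain ⟨a1, a2, a3⟩ := hbd w hw
          simp only
          rw [r3 w a1 a2 a3])
    g0 (by
      intro s hs
      have e : Cl (Prod.fst : (ℕ → ℝ) × ℝ → _) D s ∩ E ⊆
          ((Rl L ×ˢ Icc (0:ℝ) 1) ∪ ((Simp s) ×ˢ {(0:ℝ)})) := by
        rintro w ⟨⟨h1, h2⟩, h3 | h3⟩
        · exact Or.inl ⟨h3, h2⟩
        · exact Or.inr ⟨h1, h3⟩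
      refine ContinuousOn.mono ?_ e
      apply ContinuousOn.union_of_isClosed
      · refine hH.congr fun w hw => ?_
        simp only [hg0]
        rw [if_pos hw.1]
      · have h1 : ContinuousOn (fun w : (ℕ → ℝ) × ℝ => g w.1) ((Simp s) ×ˢ {(0:ℝ)}) :=
          hg.comp continuous_fst.continuousOn (fun w hw => ⟨s, hs, hw.1⟩)
        refine h1.congr fun w hw => ?_
        simp only [hg0]
        split_ifs with h
        · have : w = (w.1, 0) := Prod.ext rfl hw.2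
          rw [this]
          exact h0 _ h
        · rfl
      · exact (isClosed_Rl hLf).prod isClosed_Icc
      · exact (isClosed_simp s).prod isClosed_singleton)
    (fun _ _ _ _ _ => mem_univ _)
  refine ⟨F, ?_, ?_, ?_⟩
  · have e : Rl K ×ˢ Icc (0:ℝ) 1 = ⋃ s ∈ K, Cl (Prod.fst : (ℕ → ℝ) × ℝ → _) D s := by
      ext w
      simp only [mem_prod, Rl, mem_ofPred_eq, mem_iUnion, Cl, hD, exists_prop]
      constructor
      · rintro ⟨⟨s, hs, h1⟩, h2⟩
        exact ⟨s, hs, h1, h2⟩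
      · rintro ⟨s, hs, h1, h2⟩
        exact ⟨⟨s, hs, h1⟩, h2⟩
    rw [e]
    have := continuousOn_biUnion_closed (hKf.toFinset)
      (fun s => Cl (Prod.fst : (ℕ → ℝ) × ℝ → _) D s) F
      (fun s _ => ((isClosed_simp s).preimage continuous_fst).inter hDc)
      (fun s hs => (hF s (hKf.mem_toFinset.1 hs)).1)
    simpa using this
  · rintro x ⟨s, hs, hx⟩
    rw [(hF s hs).2.2 (x, 0) ⟨hx, hIcc0⟩ (Or.inr rfl)]
    simp only [hg0]
    split_ifs with h
    · exact h0 _ h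
    · rfl
  · rintro x hx t ht
    obtain ⟨s, hs, hx'⟩ := hx
    rw [(hF s (hLK hs)).2.2 (x, t) ⟨hx', ht⟩ (Or.inl ⟨s, hs, hx'⟩)]
    simp only [hg0]
    rw [if_pos ⟨s, hs, hx'⟩]

end Pool.Agent.H668R2.Ctr
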