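import Mathlib
import Pool.Agent.H668R2.Ctr.Rl

set_option autoImplicit false

namespace Pool.Agent.H668R2.Ctr

open Set Topology unitInterval Filter

/-- Continuity of `F (f x, s x)` at a point where `s x` is a pole. -/
theorem polar {X S Y K : Type*} [TopologicalSpace X] [TopologicalSpace S] [TopologicalSpace Y]
    [TopologicalSpace K] [CompactSpace K] (F : K × S → Y) (hF : Continuous F) (f : X → K)
    (s : X → S) (x0 : X) (A : Set X) (hs : ContinuousWithinAt s A x0) (y0 : Y)
    (hc : ∀ k, F (k, s x0) = y0) : ContinuousWithinAt (fun x => F (f x, s x)) A x0 := by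
  unfold ContinuousWithinAt
  simp only [hc]
  rw [tendsto_def]
  intro V hV
  have h1 : ∀ᶠ z in 𝓝 (s x0), ∀ k ∈ (univ : Set K), F (k, z) ∈ V := by
    apply IsCompact.eventually_forall_of_forall_eventually isCompact_univ
    intro k _
    have h2 : Tendsto (fun z : S × K => F (z.2, z.1)) (𝓝 (s x0, k)) (𝓝 (F (k, s x0))) :=
      (hF.comp (continuous_snd.prodMk continuous_fst)).tendsto (s x0, k)
    rw [hc] at h2
    exact h2.eventually hV
  have h3 := hs.eventually h1
  filter_upwards [h3] with x hx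
  exact hx (f x) (mem_univ _)

/-- A square with prescribed sides. -/
theorem square_fill {Z : Type*} [TopologicalSpace Z] {x y z w : Z} (a : Path x y) (b : Path y w)
    (c : Path x z) (d : Path z w) (h : (a.trans b).Homotopic (c.trans d)) :
    ∃ F : I × I → Z, Continuous F ∧ (∀ q, F (0, q) = a q) ∧ (∀ t, F (t, 1) = b t) ∧
      (∀ t, F (t, 0) = c t) ∧ (∀ q, F (1, q) = d q) := by
  obtain ⟨G⟩ := h
  set r : I × I → I := fun p => projIcc 0 1 zero_le_one
    ((p.1:ℝ) * (1 - p.2) / ((p.1:ℝ) * (1 - p.2) + p.2 * (1 - p.1))) with hr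
  set s : I × I → I := fun p => projIcc 0 1 zero_le_one (((p.1:ℝ) + p.2) / 2) with hs
  have hsc : Continuous s := continuous_projIcc.comp (by fun_prop)
  have hsv : ∀ p : I × I, (s p : ℝ) = ((p.1:ℝ) + p.2) / 2 := by
    intro p
    have h1 := p.1.2; have h2 := p.2.2
    simp only [hs]
    rw [projIcc_of_mem _ ⟨by linarith [h1.1, h2.1], by linarith [h1.2, h2.2]⟩]
  have hL : ∀ p : I × I, r p = 0 → ∀ u : I, (u:ℝ) = (p.1:ℝ) + p.2 → G (r p, s p) = a u := by
    intro p hp u hu
    rw [hp, G.apply_zero]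
    have h3 : (s p : ℝ) ≤ 1/2 := by rw [hsv, ← hu]; linarith [u.2.2]
    change (a.trans b) (s p) = _
    rw [Path.trans_apply, dif_pos h3]
    congr 1
    ext
    simp only [hsv, hu]
    ring
  have hL' : ∀ p : I × I, r p = 0 → ∀ u : I, (u:ℝ) = (p.1:ℝ) + p.2 - 1 → G (r p, s p) = b u := by
    intro p hp u hu
    rw [hp, G.apply_zero]
    change (a.trans b) (s p) = _
    rw [Path.trans_apply]
    split_ifs with h3
    · have h4 : (u:ℝ) = 0 := le_antisymm (by rw [hsv] at h3; linarith) u.2.1
      have h5 : u = 0 := Subtype.ext h4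
      subst h5
      rw [b.source]
      have : (⟨2 * (s p : ℝ), (unitInterval.mul_pos_mem_iff zero_lt_two).2 ⟨(s p).2.1, h3⟩⟩ : I) = 1 := by
        ext; simp only [hsv, Icc.coe_one]; linarith
      rw [this, a.target]
    · congr 1
      ext
      simp only [hsv, hu]
      ring
  have hR : ∀ p : I × I, r p = 1 → ∀ u : I, (u:ℝ) = (p.1:ℝ) + p.2 → G (r p, s p) = c u := by
    intro p hp u hu
    rw [hp, G.apply_one]
    have h3 : (s p : ℝ) ≤ 1/2 := by rw [hsv, ← hu]; linarith [u.2.2]
    change (c.trans d) (s p) = _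
    rw [Path.trans_apply, dif_pos h3]
    congr 1
    ext
    simp only [hsv, hu]
    ring
  have hR' : ∀ p : I × I, r p = 1 → ∀ u : I, (u:ℝ) = (p.1:ℝ) + p.2 - 1 → G (r p, s p) = d u := by
    intro p hp u hu
    rw [hp, G.apply_one]
    change (c.trans d) (s p) = _
    rw [Path.trans_apply]
    split_ifs with h3
    · have h4 : (u:ℝ) = 0 := le_antisymm (by rw [hsv] at h3; linarith) u.2.1
      have h5 : u = 0 := Subtype.ext h4
      subst h5
      rw [d.source]
      have : (⟨2 * (s p : ℝ), (unitInterval.mul_pos_mem_iff zero_lt_two).2 ⟨(s p).2.1, h3⟩⟩ : I) = 1 := by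
        ext; simp only [hsv, Icc.coe_one]; linarith
      rw [this, c.target]
    · congr 1
      ext
      simp only [hsv, hu]
      ring
  have r0 : ∀ p : I × I, (p.1 = 0 ∨ p.2 = 1) → r p = 0 := by
    intro p hp
    simp only [hr]
    apply projIcc_of_le_left
    rcases hp with hp | hp <;> simp [hp]
  have r1 : ∀ p : I × I, (p.2 = 0 ∧ p.1 ≠ 0) → r p = 1 := by
    rintro p ⟨hp, hp2⟩
    simp only [hr]
    apply projIcc_of_right_le
    have h5 : (p.1 : ℝ) ≠ 0 := fun h => hp2 (Subtype.ext h)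
    simp [hp, div_self h5]
  have r1' : ∀ p : I × I, (p.1 = 1 ∧ p.2 ≠ 1) → r p = 1 := by
    rintro p ⟨hp, hp2⟩
    simp only [hr]
    apply projIcc_of_right_le
    have h5 : (1 - (p.2 : ℝ)) ≠ 0 := fun h => hp2 (Subtype.ext (by rw [Icc.coe_one]; linarith))
    simp [hp, div_self h5]
  refine ⟨fun p => G (r p, s p), ?_, ?_, ?_, ?_, ?_⟩
  · rw [continuous_iff_continuousAt]
    intro p
    by_cases hp : (p.1:ℝ) * (1 - p.2) + p.2 * (1 - p.1) = 0
    · have h1 : (p.1:ℝ) * (1 - p.2) = 0 := by
        nlinarith [mul_nonneg p.1.2.1 (sub_nonneg.2 p.2.2.2), mul_nonneg p.2.2.1 (sub_nonneg.2 p.1.2.2)]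
      have h2 : (p.2:ℝ) * (1 - p.1) = 0 := by
        nlinarith [mul_nonneg p.1.2.1 (sub_nonneg.2 p.2.2.2), mul_nonneg p.2.2.1 (sub_nonneg.2 p.1.2.2)]
      have hcase : ((p.1:ℝ) = 0 ∧ (p.2:ℝ) = 0) ∨ ((p.1:ℝ) = 1 ∧ (p.2:ℝ) = 1) := by
        rcases mul_eq_zero.1 h1 with h3 | h3
        · left
          refine ⟨h3, ?_⟩
          rw [h3] at h2; linarith
        · right
          have h4 : (p.2:ℝ) = 1 := by linarith
          rw [h4] at h2
          exact ⟨by linarith, h4⟩
      rw [← continuousWithinAt_univ]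
      rcases hcase with ⟨h3, h4⟩ | ⟨h3, h4⟩
      · have h5 : s p = 0 := by ext; rw [hsv, h3, h4]; simp
        exact polar G G.continuous r s p univ hsc.continuousWithinAt x (fun k => by rw [h5, G.source])
      · have h5 : s p = 1 := by ext; rw [hsv, h3, h4]; simp
        exact polar G G.continuous r s p univ hsc.continuousWithinAt w (fun k => by rw [h5, G.target])
    · have h1 : ContinuousAt r p := by
        refine continuous_projIcc.continuousAt.comp ?_
        refine ContinuousAt.div (by fun_prop) (by fun_prop) hp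
      exact G.continuous.continuousAt.comp (h1.prodMk hsc.continuousAt)
  · intro q
    exact hL (0, q) (r0 _ (Or.inl rfl)) q (by simp)
  · intro t
    exact hL' (t, 1) (r0 _ (Or.inr rfl)) t (by simp)
  · intro t
    by_cases ht : t = 0
    · subst ht
      have := hL (0, 0) (r0 _ (Or.inl rfl)) 0 (by simp)
      rw [a.source] at this
      rw [c.source]
      exact this
    · exact hR (t, 0) (r1 _ ⟨rfl, ht⟩) t (by simp)
  · intro q
    by_cases hq : q = 1
    · subst hq
      have := hL' (1, 1) (r0 _ (Or.inr rfl)) 1 (by simp)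
      rw [b.target] at this
      rw [d.target]
      exact this
    · exact hR' (1, q) (r1' _ ⟨rfl, hq⟩) q (by simp)

end Pool.Agent.H668R2.Ctr
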