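import Mathlib
import Pool.Agent.H668R2.Ctr.Sq

set_option autoImplicit false

namespace Pool.Agent.H668R2.Ctr

open Set Topology unitInterval Filter
open Pool.Agent.Helper281.Sc (Simp IsCx)
open Pool.Agent.Helper281.Sc.Car

theorem dl_apply (u v : ℕ) : dl u v = if v = u then 1 else 0 := by
  unfold dl
  rw [Pi.single_apply]

/-- the segment -/
def seg (u v : ℕ) (s : ℝ) : ℕ → ℝ := (1 - s) • dl u + s • dl v

theorem seg_mem {u v : ℕ} {S : Finset ℕ} (hu : u ∈ S) (hv : v ∈ S) {s : ℝ}
    (hs : s ∈ Icc (0:ℝ) 1) : seg u v s ∈ Simp S := by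
  refine ⟨fun n => ?_, fun n hn => ?_, ?_⟩
  · simp only [seg, Pi.add_apply, Pi.smul_apply, smul_eq_mul, dl_apply]
    have := hs.1; have := hs.2
    split_ifs <;> nlinarith
  · have h1 : n ≠ u := fun h => hn (h ▸ hu)
    have h2 : n ≠ v := fun h => hn (h ▸ hv)
    simp [seg, dl_apply, h1, h2]
  · simp only [seg, Pi.add_apply, Pi.smul_apply, smul_eq_mul]
    rw [Finset.sum_add_distrib, ← Finset.mul_sum, ← Finset.mul_sum, (dl_mem_of hu).2.2,
      (dl_mem_of hv).2.2]
    ring

theorem seg_zero (u v : ℕ) : seg u v 0 = dl u := by simp [seg]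
theorem seg_one (u v : ℕ) : seg u v 1 = dl v := by simp [seg]
theorem continuous_seg (u v : ℕ) : Continuous (seg u v) := by unfold seg; fun_prop

/-- parametrisation of a triangle -/
noncomputable def tp (u v w : ℕ) (q s : ℝ) : ℕ → ℝ :=
  (1 - s - min s (1 - s) * q) • dl u + (2 * min s (1 - s) * q) • dl v +
    (s - min s (1 - s) * q) • dl w

theorem continuous_tp (u v w : ℕ) : Continuous (fun p : ℝ × ℝ => tp u v w p.1 p.2) := by
  unfold tp; fun_prop

theorem tp_mem (u v w : ℕ) {q s : ℝ} (hq : q ∈ Icc (0:ℝ) 1) (hs : s ∈ Icc (0:ℝ) 1) :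
    tp u v w q s ∈ Simp {u, v, w} := by
  have hm0 : 0 ≤ min s (1 - s) := le_min hs.1 (by linarith [hs.2])
  have hm1 := min_le_left s (1 - s)
  have hm2 := min_le_right s (1 - s)
  have h1 : min s (1 - s) * q ≤ min s (1 - s) := mul_le_of_le_one_right hm0 hq.2
  have h2 : 0 ≤ min s (1 - s) * q := mul_nonneg hm0 hq.1
  refine ⟨fun n => ?_, fun n hn => ?_, ?_⟩
  · simp only [tp, Pi.add_apply, Pi.smul_apply, smul_eq_mul, dl_apply]
    split_ifs <;> nlinarith
  · have h1 : n ≠ u := fun h => hn (by simp [h])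
    have h2 : n ≠ v := fun h => hn (by simp [h])
    have h3 : n ≠ w := fun h => hn (by simp [h])
    simp [tp, dl_apply, h1, h2, h3]
  · simp only [tp, Pi.add_apply, Pi.smul_apply, smul_eq_mul]
    rw [Finset.sum_add_distrib, Finset.sum_add_distrib, ← Finset.mul_sum, ← Finset.mul_sum,
      ← Finset.mul_sum, (dl_mem_of (by simp : u ∈ ({u, v, w} : Finset ℕ))).2.2,
      (dl_mem_of (by simp : v ∈ ({u, v, w} : Finset ℕ))).2.2,
      (dl_mem_of (by simp : w ∈ ({u, v, w} : Finset ℕ))).2.2]
    ring

theorem tp_zero (u v w : ℕ) (s : ℝ) : tp u v w 0 s = seg u w s := by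
  simp [tp, seg]

theorem tp_one_left (u v w : ℕ) {s : ℝ} (hs : s ≤ 1 / 2) : tp u v w 1 s = seg u v (2 * s) := by
  have : min s (1 - s) = s := min_eq_left (by linarith)
  simp only [tp, seg, this, mul_one]
  rw [sub_self, zero_smul, add_zero]
  congr 2
  ring

theorem tp_one_right (u v w : ℕ) {s : ℝ} (hs : 1 / 2 ≤ s) :
    tp u v w 1 s = seg v w (2 * s - 1) := by
  have : min s (1 - s) = 1 - s := min_eq_right (by linarith)
  simp only [tp, seg, this, mul_one]
  rw [sub_self, zero_smul, zero_add]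
  congr 2 <;> ring

theorem tp_s0 (u v w : ℕ) (q : ℝ) : tp u v w q 0 = dl u := by simp [tp]
theorem tp_s1 (u v w : ℕ) (q : ℝ) : tp u v w q 1 = dl w := by simp [tp]

set_option linter.unusedSectionVars false

section distinct

variable {u v w : ℕ} (huv : u ≠ v) (hvw : v ≠ w) (huw : u ≠ w)
include huv hvw huw

theorem tp_u (q s : ℝ) : tp u v w q s u = 1 - s - min s (1 - s) * q := by
  simp [tp, dl_apply, huv, huw]

theorem tp_v (q s : ℝ) : tp u v w q s v = 2 * min s (1 - s) * q := by
  simp [tp, dl_apply, huv.symm, hvw]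

theorem tp_w (q s : ℝ) : tp u v w q s w = s - min s (1 - s) * q := by
  simp [tp, dl_apply, hvw.symm, huw.symm]

omit huv hvw huw in
/-- the coordinate `m` -/
noncomputable def mm (u v w : ℕ) (x : ℕ → ℝ) : ℝ := min (x u) (x w) + x v / 2

theorem sum3 {x : ℕ → ℝ} (hx : x ∈ Simp {u, v, w}) : x u + x v + x w = 1 := by
  have h := hx.2.2
  rw [Finset.sum_insert (by simp [huv, huw]), Finset.sum_insert (by simp [hvw]),
    Finset.sum_singleton] at h
  linarith

theorem mm_eq {x : ℕ → ℝ} (hx : x ∈ Simp {u, v, w}) :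
    mm u v w x = min (x w + x v / 2) (1 - (x w + x v / 2)) := by
  have h := sum3 huv hvw huw hx
  have : 1 - (x w + x v / 2) = x u + x v / 2 := by linarith
  rw [this, min_comm, mm, min_add_add_right]

theorem tp_surj {x : ℕ → ℝ} (hx : x ∈ Simp {u, v, w}) :
    ∃ q ∈ Icc (0:ℝ) 1, ∃ s ∈ Icc (0:ℝ) 1, x = tp u v w q s := by
  have h := sum3 huv hvw huw hx
  have hu := hx.1 u
  have hv := hx.1 v
  have hw := hx.1 w
  have hm := mm_eq huv hvw huw hx
  have hm0 : x v / 2 ≤ mm u v w x := by
    unfold mm; linarith [le_min hu hw]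
  refine ⟨x v / (2 * mm u v w x), ⟨?_, ?_⟩, x w + x v / 2, ⟨by positivity, by linarith⟩, ?_⟩
  · exact div_nonneg hv (by linarith)
  · apply div_le_one_of_le₀ <;> linarith
  · have key : min (x w + x v / 2) (1 - (x w + x v / 2)) * (x v / (2 * mm u v w x)) = x v / 2 := by
      rw [← hm]
      by_cases h0 : mm u v w x = 0
      · rw [h0] at hm0 ⊢
        have : x v = 0 := by linarith
        simp [this]
      · field_simp
    have key2 : 2 * min (x w + x v / 2) (1 - (x w + x v / 2)) * (x v / (2 * mm u v w x)) = x v := by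
      rw [mul_assoc, key]; ring
    funext n
    simp only [tp, Pi.add_apply, Pi.smul_apply, smul_eq_mul, dl_apply]
    rw [key2, key]
    by_cases h1 : n = u
    · subst h1; simp [huv, huw]; linarith
    · by_cases h2 : n = v
      · subst h2; simp [h1, hvw]
      · by_cases h3 : n = w
        · subst h3; simp [h1, h2]
        · simp only [h1, h2, h3, if_false]
          rw [hx.2.1 n (by simp [h1, h2, h3])]; ring

/-- A map on the prism over a triangle from a map on the cube. -/
theorem prism {Z : Type*} [TopologicalSpace Z] (F : I × (I × I) → Z) (hF : Continuous F)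
    (y0 y1 : Z) (h0 : ∀ t q, F (q, (t, 0)) = y0) (h1 : ∀ t q, F (q, (t, 1)) = y1) :
    ∃ H : (ℕ → ℝ) × ℝ → Z, ContinuousOn H (Simp {u, v, w} ×ˢ Icc (0:ℝ) 1) ∧
      ∀ t q s : I, H (tp u v w q s, t) = F (q, (t, s)) := by
  set fq : (ℕ → ℝ) × ℝ → I := fun p => projIcc 0 1 zero_le_one (p.1 v / (2 * mm u v w p.1)) with hfq
  set fs : (ℕ → ℝ) × ℝ → I × I := fun p => (projIcc 0 1 zero_le_one p.2,
    projIcc 0 1 zero_le_one (p.1 w + p.1 v / 2)) with hfs
  have hfsc : Continuous fs :=
    (continuous_projIcc.comp (by fun_prop)).prodMk (continuous_projIcc.comp (by fun_prop))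
  refine ⟨fun p => F (fq p, fs p), ?_, ?_⟩
  · rintro p ⟨hp1, hp2⟩
    have h := sum3 huv hvw huw hp1
    have hu := hp1.1 u
    have hv := hp1.1 v
    have hw := hp1.1 w
    by_cases hm : mm u v w p.1 = 0
    · have hmn := le_min hu hw
      have hv0 : p.1 v = 0 := by unfold mm at hm; linarith
      have hmin : min (p.1 u) (p.1 w) = 0 := by unfold mm at hm; linarith
      rcases min_choice (p.1 u) (p.1 w) with h3 | h3
      · have hu0 : p.1 u = 0 := by rw [← h3, hmin]
        have hw1 : p.1 w + p.1 v / 2 = 1 := by linarith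
        refine polar F hF fq fs p _ hfsc.continuousWithinAt y1 (fun k => ?_)
        simp only [hfs]
        have : projIcc (0:ℝ) 1 zero_le_one (p.1 w + p.1 v / 2) = 1 :=
          projIcc_of_right_le _ hw1.ge
        rw [this]
        exact h1 _ _
      · have hw0 : p.1 w + p.1 v / 2 = 0 := by rw [hv0, ← h3, hmin]; ring
        refine polar F hF fq fs p _ hfsc.continuousWithinAt y0 (fun k => ?_)
        simp only [hfs]
        have : projIcc (0:ℝ) 1 zero_le_one (p.1 w + p.1 v / 2) = 0 :=
          projIcc_of_le_left _ hw0.le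
        rw [this]
        exact h0 _ _
    · have h2 : ContinuousAt fq p := by
        refine continuous_projIcc.continuousAt.comp ?_
        refine ContinuousAt.div (by fun_prop) (by unfold mm; fun_prop) ?_
        exact mul_ne_zero two_ne_zero hm
      exact (hF.continuousAt.comp (h2.prodMk hfsc.continuousAt)).continuousWithinAt
  · intro t q s
    have hs : tp u v w q s w + tp u v w q s v / 2 = s := by
      rw [tp_w huv hvw huw, tp_v huv hvw huw]; ring
    have hm : mm u v w (tp u v w q s) = min (s:ℝ) (1 - s) := by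
      rw [mm_eq huv hvw huw (tp_mem u v w q.2 s.2), hs]
    have e1 : fs (tp u v w q s, t) = (t, s) := by
      simp only [hfs, hs]
      rw [projIcc_val, projIcc_val]
    simp only [e1]
    by_cases h0' : min (s:ℝ) (1 - s) = 0
    · rcases min_choice (s:ℝ) (1 - s) with h3 | h3
      · have : s = 0 := Subtype.ext (by rw [← h3, h0']; rfl)
        subst this
        rw [h0, h0]
      · have : s = 1 := Subtype.ext (by rw [Icc.coe_one]; linarith)
        subst this
        rw [h1, h1]
    · have e2 : fq (tp u v w q s, t) = q := by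
        simp only [hfq, hm, tp_v huv hvw huw]
        have : 2 * min (s:ℝ) (1 - s) * q / (2 * min (s:ℝ) (1 - s)) = q := by
          field_simp
        rw [this, projIcc_val]
      rw [e2]

end distinct

end Pool.Agent.H668R2.Ctr
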