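import Mathlib
import Pool.Agent.H668R2.Ctr.Tri
import Pool.Agent.H668R2.Ctr.Hep
import Pool.Agent.H668R2.Ctr.Eh

set_option autoImplicit false
set_option linter.unusedVariables false

namespace Pool.Agent.H668R2.Ctr

open Set Topology unitInterval Filter
open Pool.Agent.Helper281.Sc (Simp IsCx)
open Pool.Agent.Helper281.Sc.Car

theorem mem_Icc0 : (0:ℝ) ∈ Icc (0:ℝ) 1 := by constructor <;> norm_num
theorem mem_Icc1 : (1:ℝ) ∈ Icc (0:ℝ) 1 := by constructor <;> norm_num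

/-- Extension cell by cell. -/
theorem ext_cells {Z : Type*} [TopologicalSpace Z] (K L : Set (Finset ℕ)) (hK : IsCx K)
    (hKf : K.Finite) (hLK : L ⊆ K)
    (hface : ∀ s ∈ K, s ∉ L → ∀ t : Finset ℕ, t ⊂ s → t.Nonempty → t ∈ L)
    (P : Finset ℕ → ((ℕ → ℝ) × ℝ → Z) → Prop)
    (E : (ℕ → ℝ) × ℝ → Z) (hE : ContinuousOn E (Rl L ×ˢ Icc (0:ℝ) 1))
    (hs : ∀ s ∈ K, s ∉ L → ∃ H : (ℕ → ℝ) × ℝ → Z, ContinuousOn H (Simp s ×ˢ Icc (0:ℝ) 1) ∧
      (∀ x ∈ Simp s, x ∈ Rl L → ∀ t ∈ Icc (0:ℝ) 1, H (x, t) = E (x, t)) ∧ P s H) :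
    ∃ F : (ℕ → ℝ) × ℝ → Z, ContinuousOn F (Rl K ×ˢ Icc (0:ℝ) 1) ∧
      (∀ x ∈ Rl L, ∀ t ∈ Icc (0:ℝ) 1, F (x, t) = E (x, t)) ∧
      ∀ s ∈ K, s ∉ L → ∃ H : (ℕ → ℝ) × ℝ → Z, P s H ∧
        ∀ x ∈ Simp s, ∀ t ∈ Icc (0:ℝ) 1, F (x, t) = H (x, t) := by
  classical
  have hne : Nonempty ((ℕ → ℝ) × ℝ → Z) := ⟨E⟩
  choose! H h1 h2 h3 using hs
  have hfin : Finite {s // s ∈ K ∧ s ∉ L} := (hKf.subset fun s hs => hs.1 : {s | s ∈ K ∧ s ∉ L}.Finite)
  have hov : ∀ s ∈ K, s ∉ L → ∀ s' ∈ K, s' ∉ L → s ≠ s' → ∀ x ∈ Simp s, x ∈ Simp s' → x ∈ Rl L := by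
    intro s hs hsL s' hs' hsL' hne x hx hx'
    have h4 : supp x ⊆ s := supp_subset hx
    have h5 : supp x ⊆ s' := supp_subset hx'
    have hn : (supp x).Nonempty := nonempty_of_mem_simp (mem_simp_supp hx)
    by_cases h6 : supp x = s
    · exfalso
      have h7 : s ⊂ s' := lt_of_le_of_ne (h6 ▸ h5) hne
      exact hsL (hface s' hs' hsL' s h7 (h6 ▸ hn))
    · exact mem_Rl_supp hx (hface s hs hsL _ (lt_of_le_of_ne h4 h6) hn)
  obtain ⟨F, hF1, hF2⟩ := glue (ι := Option {s // s ∈ K ∧ s ∉ L}) E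
    (fun i => match i with
      | none => Rl L ×ˢ Icc (0:ℝ) 1
      | some s => Simp s.1 ×ˢ Icc (0:ℝ) 1)
    (by
      rintro (_ | s)
      · exact (isClosed_Rl (hKf.subset hLK)).prod isClosed_Icc
      · exact (isClosed_simp s.1).prod isClosed_Icc)
    (fun i => match i with
      | none => E
      | some s => H s.1)
    (by
      rintro (_ | s)
      · exact hE
      · exact h1 s.1 s.2.1 s.2.2)
    (by
      rintro (_ | s) (_ | s') w hw hw'
      · rfl
      · exact (h2 s'.1 s'.2.1 s'.2.2 w.1 hw'.1 hw.1 w.2 hw.2).symm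
      · exact h2 s.1 s.2.1 s.2.2 w.1 hw.1 hw'.1 w.2 hw.2
      · by_cases hss : s = s'
        · rw [hss]
        · have := hov s.1 s.2.1 s.2.2 s'.1 s'.2.1 s'.2.2 (fun h => hss (Subtype.ext h)) w.1 hw.1 hw'.1
          simp only
          rw [h2 s.1 s.2.1 s.2.2 w.1 hw.1 this w.2 hw.2, h2 s'.1 s'.2.1 s'.2.2 w.1 hw'.1 this w.2 hw.2])
  refine ⟨F, hF1.mono ?_, ?_, ?_⟩
  · rintro w ⟨⟨s, hs, hw⟩, ht⟩
    rw [mem_iUnion]
    by_cases hsL : s ∈ L
    · exact ⟨none, ⟨s, hsL, hw⟩, ht⟩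
    · exact ⟨some ⟨s, hs, hsL⟩, hw, ht⟩
  · intro x hx t ht
    exact hF2 none (x, t) ⟨hx, ht⟩
  · intro s hs hsL
    exact ⟨H s, h3 s hs hsL, fun x hx t ht => hF2 (some ⟨s, hs, hsL⟩) (x, t) ⟨hx, ht⟩⟩

theorem eq_seg {u v : ℕ} (huv : u ≠ v) {x : ℕ → ℝ} (hx : x ∈ Simp {u, v}) :
    x = seg u v (x v) ∧ x v ∈ Icc (0:ℝ) 1 := by
  have h := hx.2.2
  rw [Finset.sum_pair huv] at h
  refine ⟨?_, ⟨hx.1 v, by linarith [hx.1 u]⟩⟩
  funext n
  simp only [seg, Pi.add_apply, Pi.smul_apply, smul_eq_mul, dl_apply]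
  by_cases h1 : n = u
  · subst h1; simp [huv]; linarith
  · by_cases h2 : n = v
    · subst h2; simp [h1]
    · rw [hx.2.1 n (by simp [h1, h2])]; simp [h1, h2]

theorem seg_apply_right {u v : ℕ} (huv : u ≠ v) (s : ℝ) : seg u v s v = s := by
  simp [seg, dl_apply, huv.symm]

/-- The path along an edge. -/
noncomputable def ep {Z : Type*} [TopologicalSpace Z] (g : (ℕ → ℝ) → Z) (u v : ℕ)
    (hg : ContinuousOn g (Simp {u, v})) : Path (g (dl u)) (g (dl v)) where
  toFun s := g (seg u v s)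
  continuous_toFun := hg.comp_continuous ((continuous_seg u v).comp continuous_subtype_val)
    (fun s => seg_mem (by simp) (by simp) s.2)
  source' := by simp [seg_zero]
  target' := by simp [seg_one]

/-- second cohomology vanishes for all coefficient groups -/
def H2 (K : Set (Finset ℕ)) : Prop := ∀ (A : Type) [CommGroup A] (c : ℕ → ℕ → ℕ → A),
  ∃ τ : ℕ → ℕ → A, ∀ u v w, u < v → v < w → ({u, v, w} : Finset ℕ) ∈ K →
    τ u w = c u v w * (τ u v * τ v w)

section tri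

variable {Z : Type*} [TopologicalSpace Z]

/-- The loop of loops of a map of a triangle that is constant on the boundary. -/
noncomputable def sg (u v w : ℕ) (z0 : Z) (g : (ℕ → ℝ) → Z) (hg : ContinuousOn g (Simp {u, v, w}))
    (h0 : ∀ s ∈ Icc (0:ℝ) 1, g (seg u v s) = z0 ∧ g (seg v w s) = z0 ∧ g (seg u w s) = z0) :
    Path (Path.refl z0) (Path.refl z0) where
  toFun q :=
    { toFun := fun s => g (tp u v w q s)
      continuous_toFun := hg.comp_continuous
        ((continuous_tp u v w).comp (continuous_const.prodMk continuous_subtype_val))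
        (fun s => tp_mem u v w q.2 s.2)
      source' := by
        simp only [Icc.coe_zero, tp_s0]
        have := (h0 0 mem_Icc0).1
        rwa [seg_zero] at this
      target' := by
        simp only [Icc.coe_one, tp_s1]
        have := (h0 1 mem_Icc1).2.1
        rwa [seg_one] at this }
  continuous_toFun := by
    apply Path.continuous_uncurry_iff.1
    exact hg.comp_continuous
        ((continuous_tp u v w).comp ((continuous_subtype_val.comp continuous_fst).prodMk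
          (continuous_subtype_val.comp continuous_snd)))
        (fun s => tp_mem u v w s.1.2 s.2.2)
  source' := by
    ext s
    simp only [Path.coe_mk_mk, Icc.coe_zero, tp_zero, Path.refl_apply]
    exact (h0 s s.2).2.2
  target' := by
    ext s
    simp only [Path.coe_mk_mk, Icc.coe_one, Path.refl_apply]
    rcases le_total (s:ℝ) (1/2) with h | h
    · rw [tp_one_left u v w h]
      exact (h0 _ ⟨by linarith [s.2.1], by linarith⟩).1
    · rw [tp_one_right u v w h]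
      exact (h0 _ ⟨by linarith, by linarith [s.2.2]⟩).2.1

theorem sg_apply (u v w : ℕ) (z0 : Z) (g : (ℕ → ℝ) → Z) (hg : ContinuousOn g (Simp {u, v, w}))
    (h0 : ∀ s ∈ Icc (0:ℝ) 1, g (seg u v s) = z0 ∧ g (seg v w s) = z0 ∧ g (seg u w s) = z0) (q s : I) :
    sg u v w z0 g hg h0 q s = g (tp u v w q s) := rfl

theorem tri_fill {u v w : ℕ} (huv : u ≠ v) (hvw : v ≠ w) (huw : u ≠ w) (z0 : Z)
    (g : (ℕ → ℝ) → Z) (hg : ContinuousOn g (Simp {u, v, w}))
    (h0 : ∀ s ∈ Icc (0:ℝ) 1, g (seg u v s) = z0 ∧ g (seg v w s) = z0 ∧ g (seg u w s) = z0)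
    (a b c : Path (Path.refl z0) (Path.refl z0))
    (h : Path.Homotopic.Quotient.mk c = (Path.Homotopic.Quotient.mk (sg u v w z0 g hg h0)).trans
      ((Path.Homotopic.Quotient.mk a).trans (Path.Homotopic.Quotient.mk b))) :
    ∃ H : (ℕ → ℝ) × ℝ → Z, ContinuousOn H (Simp {u, v, w} ×ˢ Icc (0:ℝ) 1) ∧
      (∀ x ∈ Simp {u, v, w}, H (x, 0) = g x) ∧ (∀ x ∈ Simp {u, v, w}, H (x, 1) = z0) ∧
      (∀ s t : I, H (seg u v s, t) = a t s) ∧ (∀ s t : I, H (seg v w s, t) = b t s) ∧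
      (∀ s t : I, H (seg u w s, t) = c t s) := by
  have hh : ((sg u v w z0 g hg h0).trans (muP a b)).Homotopic (c.trans (Path.refl _)) := by
    rw [← Path.Homotopic.Quotient.eq, Path.Homotopic.Quotient.mk_trans, muP_mk, ← h,
      Path.Homotopic.Quotient.mk_trans, Path.Homotopic.Quotient.mk_refl,
      Path.Homotopic.Quotient.trans_refl]
  obtain ⟨F, F1, F2, F3, F4, F5⟩ := square_fill _ _ _ _ hh
  -- F (t, q) : Path z0 z0
  have hc : Continuous (fun p : I × (I × I) => F (p.2.1, p.1) p.2.2) := by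
    have h1 := Path.continuous_uncurry_iff.2 F1
    exact h1.comp ((((continuous_fst.comp continuous_snd).prodMk continuous_fst)).prodMk
      (continuous_snd.comp continuous_snd))
  obtain ⟨H, H1, H2⟩ := prism huv hvw huw (fun p : I × (I × I) => F (p.2.1, p.1) p.2.2) hc z0 z0
    (fun t q => by simp) (fun t q => by simp)
  refine ⟨H, H1, ?_, ?_, ?_, ?_, ?_⟩
  · intro x hx
    obtain ⟨q, hq, s, hs, rfl⟩ := tp_surj huv hvw huw hx
    have := H2 0 ⟨q, hq⟩ ⟨s, hs⟩
    simp only [Icc.coe_zero] at this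
    rw [this, F2, sg_apply]
  · intro x hx
    obtain ⟨q, hq, s, hs, rfl⟩ := tp_surj huv hvw huw hx
    have := H2 1 ⟨q, hq⟩ ⟨s, hs⟩
    simp only [Icc.coe_one] at this
    rw [this, F5]; rfl
  · intro s t
    have hs2 : (s:ℝ) / 2 ∈ Icc (0:ℝ) 1 := ⟨by linarith [s.2.1], by linarith [s.2.2]⟩
    have := H2 t 1 ⟨(s:ℝ)/2, hs2⟩
    simp only [Icc.coe_one] at this
    rw [tp_one_left u v w (by linarith [s.2.2])] at this
    rw [show (2 * ((s:ℝ) / 2)) = s by ring] at this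
    rw [this, F3, muP_apply, Path.trans_apply, dif_pos (by simp only; linarith [s.2.2])]
    congr 1
    ext
    simp only
    ring
  · intro s t
    have hs2 : (1 + (s:ℝ)) / 2 ∈ Icc (0:ℝ) 1 := ⟨by linarith [s.2.1], by linarith [s.2.2]⟩
    have := H2 t 1 ⟨(1 + (s:ℝ))/2, hs2⟩
    simp only [Icc.coe_one] at this
    rw [tp_one_right u v w (by linarith [s.2.1])] at this
    rw [show (2 * ((1 + (s:ℝ)) / 2) - 1) = s by ring] at this
    rw [this, F3, muP_apply, Path.trans_apply]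
    split_ifs with h5
    · simp only at h5
      have h6 : s = 0 := Subtype.ext (le_antisymm (by rw [Icc.coe_zero]; linarith) s.2.1)
      subst h6
      rw [(b t).source]
      have : (⟨2 * ((1 + ((0:I):ℝ)) / 2), (unitInterval.mul_pos_mem_iff zero_lt_two).2 ⟨hs2.1, h5⟩⟩ : I) = 1 := by
        ext; simp
      rw [this, (a t).target]
    · congr 1
      ext
      simp only
      ring
  · intro s t
    have := H2 t 0 s
    simp only [Icc.coe_zero, tp_zero] at this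
    rw [this, F4]

end tri

end Pool.Agent.H668R2.Ctr
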