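import Mathlib
import Pool.Agent.H668R2.Ctr.LemA

set_option autoImplicit false
set_option linter.unusedVariables false

namespace Pool.Agent.H668R2.Ctr

open Set Topology unitInterval Filter
open Pool.Agent.Helper281.Sc (Simp IsCx)
open Pool.Agent.Helper281.Sc.Car

theorem card_two_sorted {s : Finset ℕ} (h : s.card = 2) : ∃ u v, u < v ∧ s = {u, v} := by
  obtain ⟨x, y, hxy, rfl⟩ := Finset.card_eq_two.1 h
  rcases lt_or_gt_of_ne hxy with h | h
  · exact ⟨x, y, h, rfl⟩
  · exact ⟨y, x, h, Finset.pair_comm _ _⟩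

theorem card_three_sorted {s : Finset ℕ} (h : s.card = 3) :
    ∃ u v w, u < v ∧ v < w ∧ s = {u, v, w} := by
  obtain ⟨x, y, z, hxy, hxz, hyz, rfl⟩ := Finset.card_eq_three.1 h
  rcases lt_or_gt_of_ne hxy with h1 | h1 <;> rcases lt_or_gt_of_ne hxz with h2 | h2 <;>
    rcases lt_or_gt_of_ne hyz with h3 | h3
  · exact ⟨x, y, z, h1, h3, rfl⟩
  · exact ⟨x, z, y, h2, h3, by ext; simp; tauto⟩
  · omega
  · exact ⟨z, x, y, h2, h1, by ext; simp; tauto⟩
  · exact ⟨y, x, z, h1, h2, by ext; simp; tauto⟩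
  · omega
  · exact ⟨y, z, x, h3, h2, by ext; simp; tauto⟩
  · exact ⟨z, y, x, h3, h1, by ext; simp; tauto⟩

/-- the `k`-skeleton (simplices with at most `k` vertices) -/
def Sk (K : Set (Finset ℕ)) (k : ℕ) : Set (Finset ℕ) := {s | s ∈ K ∧ s.card ≤ k}

theorem isCx_Sk {K : Set (Finset ℕ)} (hK : IsCx K) (k : ℕ) : IsCx (Sk K k) :=
  ⟨fun h => hK.1 h.1, fun s hs t ht hn => ⟨hK.2 s hs.1 t ht hn, (Finset.card_le_card ht).trans hs.2⟩⟩

theorem Sk_sub (K : Set (Finset ℕ)) (k : ℕ) : Sk K k ⊆ K := fun _ h => h.1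

theorem Sk_mono (K : Set (Finset ℕ)) {k l : ℕ} (h : k ≤ l) : Sk K k ⊆ Sk K l :=
  fun _ hs => ⟨hs.1, hs.2.trans h⟩

theorem Sk_face {K : Set (Finset ℕ)} (hK : IsCx K) (k : ℕ) :
    ∀ s ∈ Sk K (k + 1), s ∉ Sk K k → ∀ t : Finset ℕ, t ⊂ s → t.Nonempty → t ∈ Sk K k := by
  intro s hs _ t ht hn
  exact ⟨hK.2 s hs.1 t ht.subset hn, by have := Finset.card_lt_card ht; have := hs.2; omega⟩

theorem Sk_new {K : Set (Finset ℕ)} {k : ℕ} {s : Finset ℕ} (hs : s ∈ Sk K (k + 1))
    (hs' : s ∉ Sk K k) : s.card = k + 1 := by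
  by_contra h
  exact hs' ⟨hs.1, by have := hs.2; omega⟩

/-- A point of a small skeleton inside a simplex. -/
theorem mem_face {K : Set (Finset ℕ)} (hK : IsCx K) {k : ℕ} {s : Finset ℕ} {x : ℕ → ℝ}
    (hx : x ∈ Simp s) (hx' : x ∈ Rl (Sk K k)) : ∃ t, t ⊆ s ∧ t.Nonempty ∧ t.card ≤ k ∧ x ∈ Simp t :=
  ⟨supp x, supp_subset hx, nonempty_of_mem_simp (mem_simp_supp hx),
    (supp_mem (isCx_Sk hK k) hx').2, mem_simp_supp hx⟩

section

variable {Z : Type} [TopologicalSpace Z]

/-- homotopies of the one-skeleton -/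
theorem skel1 (K : Set (Finset ℕ)) (hK : IsCx K) (hKf : K.Finite) (z1 : Z)
    (p : ∀ v, ({v} : Finset ℕ) ∈ K → ℝ → Z) (hpc : ∀ v h, ContinuousOn (p v h) (Icc 0 1))
    (P : ℕ → ℕ → (I × I → Z) → Prop)
    (he : ∀ u v, u < v → ({u, v} : Finset ℕ) ∈ K → ∀ (hu : ({u} : Finset ℕ) ∈ K) (hv : ({v} : Finset ℕ) ∈ K),
      ∃ F : I × I → Z, Continuous F ∧ (∀ t : I, F (t, 0) = p u hu t) ∧
        (∀ t : I, F (t, 1) = p v hv t) ∧ P u v F) :
    ∃ H : (ℕ → ℝ) × ℝ → Z, ContinuousOn H (Rl (Sk K 2) ×ˢ Icc (0:ℝ) 1) ∧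
      (∀ v (h : ({v} : Finset ℕ) ∈ K), ∀ t ∈ Icc (0:ℝ) 1, H (dl v, t) = p v h t) ∧
      ∀ u v, u < v → ({u, v} : Finset ℕ) ∈ K → ∃ F : I × I → Z, P u v F ∧
        ∀ s t : I, H (seg u v s, t) = F (t, s) := by
  classical
  -- vertices
  obtain ⟨E, E1, -, E3⟩ := ext_cells (Sk K 1) ∅ (isCx_Sk hK 1) (hKf.subset (Sk_sub K 1))
    (empty_subset _) (by
      intro s hs _ t ht hn
      have h1 := Finset.card_lt_card ht
      have h2 := hs.2
      have h3 := hn.card_pos
      omega)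
    (fun s H => ∀ v (h : ({v} : Finset ℕ) ∈ K), s = {v} → ∀ t ∈ Icc (0:ℝ) 1, H (dl v, t) = p v h t)
    (fun _ => z1) (by
      have : Rl (∅ : Set (Finset ℕ)) = ∅ := by ext x; simp [Rl]
      rw [this, empty_prod]; exact continuousOn_empty _) (by
      intro s hs _
      have hc : s.card = 1 := by
        have h3 : s.Nonempty := by rw [Finset.nonempty_iff_ne_empty]; rintro rfl; exact hK.1 hs.1
        have := h3.card_pos
        have := hs.2
        omega
      obtain ⟨v, rfl⟩ := Finset.card_eq_one.1 hc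
      refine ⟨fun w => p v hs.1 w.2, ?_, ?_, ?_⟩
      · exact (hpc v hs.1).comp continuous_snd.continuousOn (fun w hw => hw.2)
      · rintro x _ ⟨s, hs, _⟩
        exact absurd hs (notMem_empty _)
      · rintro v' h' hvv t _
        have : v = v' := Finset.singleton_injective hvv
        subst this
        rfl)
  have E4 : ∀ v (h : ({v} : Finset ℕ) ∈ K), ∀ t ∈ Icc (0:ℝ) 1, E (dl v, t) = p v h t := by
    intro v h t ht
    obtain ⟨H, H1, H2⟩ := E3 {v} ⟨h, by simp⟩ (notMem_empty _)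
    rw [H2 (dl v) (dl_mem v) t ht, H1 v h rfl t ht]
  obtain ⟨F, F1, F2, F3⟩ := ext_cells (Sk K 2) (Sk K 1) (isCx_Sk hK 2) (hKf.subset (Sk_sub K 2))
    (Sk_mono K (by norm_num)) (Sk_face hK 1)
    (fun s H => ∀ u v, u < v → s = {u, v} → ∃ F : I × I → Z, P u v F ∧
        ∀ s t : I, H (seg u v s, t) = F (t, s))
    E E1 (by
      intro s hs hs'
      have hc := Sk_new hs hs'
      obtain ⟨u, v, huv, rfl⟩ := card_two_sorted hc
      have hu : {u} ∈ K := hK.2 _ hs.1 _ (by simp) (by simp)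
      have hv : {v} ∈ K := hK.2 _ hs.1 _ (by simp) (by simp)
      obtain ⟨G, G1, G2, G3, G4⟩ := he u v huv hs.1 hu hv
      refine ⟨fun w => G (projIcc 0 1 zero_le_one w.2, projIcc 0 1 zero_le_one (w.1 v)), ?_, ?_, ?_⟩
      · apply Continuous.continuousOn
        exact G1.comp ((continuous_projIcc.comp continuous_snd).prodMk
          (continuous_projIcc.comp (by fun_prop)))
      · intro x hx hx' t ht
        obtain ⟨r, hr, hrn, hrc, hxr⟩ := mem_face hK hx hx'
        have h1 : r.card = 1 := le_antisymm hrc hrn.card_pos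
        obtain ⟨n, rfl⟩ := Finset.card_eq_one.1 h1
        have hn : n = u ∨ n = v := by simpa using hr
        have hxn := eq_dl hxr
        subst hxn
        rcases hn with rfl | rfl
        · rw [E4 n hu t ht]
          simp only
          have h5 : projIcc (0:ℝ) 1 zero_le_one (dl n v) = 0 := by
            rw [dl_apply, if_neg (ne_of_gt huv)]; exact projIcc_left _
          rw [h5, G2, projIcc_of_mem _ ht]
        · rw [E4 n hv t ht]
          simp only
          have h5 : projIcc (0:ℝ) 1 zero_le_one (dl n n) = 1 := by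
            rw [dl_apply, if_pos rfl]; exact projIcc_right _
          rw [h5, G3, projIcc_of_mem _ ht]
      · intro u' v' huv' hs2
        have h6 : u = u' ∧ v = v' := by
          have e1 : u ∈ ({u', v'} : Finset ℕ) := hs2 ▸ (by simp : u ∈ ({u, v} : Finset ℕ))
          have e2 : v ∈ ({u', v'} : Finset ℕ) := hs2 ▸ (by simp : v ∈ ({u, v} : Finset ℕ))
          simp only [Finset.mem_insert, Finset.mem_singleton] at e1 e2
          omega
        obtain ⟨rfl, rfl⟩ := h6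
        refine ⟨G, G4, fun s t => ?_⟩
        simp only
        rw [seg_apply_right huv.ne, projIcc_val, projIcc_val])
  refine ⟨F, F1, ?_, ?_⟩
  · intro v h t ht
    rw [F2 (dl v) ⟨{v}, ⟨h, by simp⟩, dl_mem v⟩ t ht, E4 v h t ht]
  · intro u v huv h
    obtain ⟨H, H1, H2⟩ := F3 {u, v} ⟨h, by rw [Finset.card_pair huv.ne]⟩ (by
      rintro ⟨_, h2⟩
      rw [Finset.card_pair huv.ne] at h2
      omega)
    obtain ⟨G, G1, G2⟩ := H1 u v huv rfl
    refine ⟨G, G1, fun s t => ?_⟩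
    rw [H2 _ (seg_mem (by simp) (by simp) s.2) t t.2, G2]

/-- A map that is constant on the one-skeleton is null-homotopic rel the vertices. -/
theorem lemA_step2 (K : Set (Finset ℕ)) (hK : IsCx K) (hKf : K.Finite)
    (hdim : ∀ s ∈ K, s.card ≤ 3) (h2 : H2 K) (g : (ℕ → ℝ) → Z) (hg : ContinuousOn g (Rl K))
    (z0 : Z) (hg0 : ∀ x ∈ Rl (Sk K 2), g x = z0) :
    ∃ H : (ℕ → ℝ) × ℝ → Z, ContinuousOn H (Rl K ×ˢ Icc (0:ℝ) 1) ∧
      (∀ x ∈ Rl K, H (x, 0) = g x) ∧ (∀ x ∈ Rl K, H (x, 1) = z0) ∧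
      ∀ v, ({v} : Finset ℕ) ∈ K → ∀ t ∈ Icc (0:ℝ) 1, H (dl v, t) = z0 := by
  classical
  have hedge : ∀ u v, ({u, v} : Finset ℕ) ∈ K → ∀ s ∈ Icc (0:ℝ) 1, g (seg u v s) = z0 := by
    intro u v h s hs
    exact hg0 _ ⟨{u, v}, ⟨h, Finset.card_le_two⟩, seg_mem (by simp) (by simp) hs⟩
  have htri : ∀ u v w, ({u, v, w} : Finset ℕ) ∈ K → ∀ s ∈ Icc (0:ℝ) 1,
      g (seg u v s) = z0 ∧ g (seg v w s) = z0 ∧ g (seg u w s) = z0 := by
    intro u v w h s hs
    refine ⟨hedge u v (hK.2 _ h _ ?_ (by simp)) s hs, hedge v w (hK.2 _ h _ ?_ (by simp)) s hs,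
      hedge u w (hK.2 _ h _ ?_ (by simp)) s hs⟩ <;>
    · intro n hn; simp at hn ⊢; tauto
  have hgs : ∀ s ∈ K, ContinuousOn g (Simp s) := fun s hs => hg.mono fun x hx => ⟨s, hs, hx⟩
  let _ : CommGroup (Path.Homotopic.Quotient (Path.refl z0) (Path.refl z0)) := loopComm z0
  obtain ⟨τ, hτ⟩ := h2 (Path.Homotopic.Quotient (Path.refl z0) (Path.refl z0))
    (fun u v w => if h : ({u, v, w} : Finset ℕ) ∈ K then
      Path.Homotopic.Quotient.mk (sg u v w z0 g (hgs _ h) (htri u v w h)) else 1)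
  have hrep : ∀ u v, ∃ a : Path (Path.refl z0) (Path.refl z0), Path.Homotopic.Quotient.mk a = τ u v :=
    fun u v => Path.Homotopic.Quotient.mk_surjective _
  choose a ha using hrep
  obtain ⟨E, E1, E2, E3⟩ := skel1 K hK hKf z0 (fun _ _ _ => z0) (fun _ _ => continuousOn_const)
    (fun u v F => ∀ t s : I, F (t, s) = a u v t s) (by
      intro u v huv h hu hv
      refine ⟨fun p => a u v p.1 p.2, ?_, ?_, ?_, fun _ _ => rfl⟩
      · exact Path.continuous_uncurry_iff.2 (a u v).continuous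
      · intro t; simp
      · intro t; simp)
  have E4 : ∀ u v, u < v → ({u, v} : Finset ℕ) ∈ K → ∀ s t : I, E (seg u v s, t) = a u v t s := by
    intro u v huv h s t
    obtain ⟨F, F1, F2⟩ := E3 u v huv h
    rw [F2, F1]
  obtain ⟨F, F1, F2, F3⟩ := ext_cells (Sk K 3) (Sk K 2) (isCx_Sk hK 3) (hKf.subset (Sk_sub K 3))
    (Sk_mono K (by norm_num)) (Sk_face hK 2)
    (fun s H => (∀ x ∈ Simp s, H (x, 0) = g x) ∧ ∀ x ∈ Simp s, H (x, 1) = z0)
    E E1 (by
      intro s hs hs'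
      have hc := Sk_new hs hs'
      obtain ⟨u, v, w, huv, hvw, rfl⟩ := card_three_sorted hc
      have huw := huv.trans hvw
      obtain ⟨H, H1, H2, H3, H4, H5, H6⟩ := tri_fill huv.ne hvw.ne huw.ne z0 g (hgs _ hs.1)
        (htri u v w hs.1) (a u v) (a v w) (a u w) (by
          rw [ha, ha, ha]
          have := hτ u v w huv hvw hs.1
          rw [dif_pos hs.1] at this
          exact this)
      refine ⟨H, H1, ?_, H2, H3⟩
      intro x hx hx' t ht
      obtain ⟨r, hr, hrn, hrc, hxr⟩ := mem_face hK hx hx'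
      -- `x` lies on one of the three edges
      have hsub : r ⊆ {u, v} ∨ r ⊆ {v, w} ∨ r ⊆ {u, w} := by
        by_contra hcon
        push Not at hcon
        obtain ⟨c1, c2, c3⟩ := hcon
        have hw : w ∈ r := by
          by_contra hw; exact c1 (fun n hn => by
            have := hr hn; simp at this ⊢
            rcases this with h | h | h
            · exact Or.inl h
            · exact Or.inr h
            · exact absurd (h ▸ hn) hw)
        have hu : u ∈ r := by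
          by_contra hu; exact c2 (fun n hn => by
            have := hr hn; simp at this ⊢
            rcases this with h | h | h
            · exact absurd (h ▸ hn) hu
            · exact Or.inl h
            · exact Or.inr h)
        have hv : v ∈ r := by
          by_contra hv; exact c3 (fun n hn => by
            have := hr hn; simp at this ⊢
            rcases this with h | h | h
            · exact Or.inl h
            · exact absurd (h ▸ hn) hv
            · exact Or.inr h)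
        have : ({u, v, w} : Finset ℕ) ⊆ r := by
          intro n hn
          simp only [Finset.mem_insert, Finset.mem_singleton] at hn
          rcases hn with rfl | rfl | rfl <;> assumption
        have := Finset.card_le_card this
        rw [hc] at this
        omega
      have hK2 : ∀ a b, a ∈ ({u, v, w} : Finset ℕ) → b ∈ ({u, v, w} : Finset ℕ) →
          ({a, b} : Finset ℕ) ∈ K := by
        intro a b ha hb
        refine hK.2 _ hs.1 _ ?_ (by simp)
        intro n hn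
        simp only [Finset.mem_insert, Finset.mem_singleton] at hn
        rcases hn with rfl | rfl <;> assumption
      rcases hsub with hsub | hsub | hsub
      · obtain ⟨e1, e2⟩ := eq_seg huv.ne (simp_mono hsub hxr)
        have h5 := H4 ⟨x v, e2⟩ ⟨t, ht⟩
        have h6 := E4 u v huv (hK2 u v (by simp) (by simp)) ⟨x v, e2⟩ ⟨t, ht⟩
        simp only at h5 h6
        rw [e1, h5, h6]
      · obtain ⟨e1, e2⟩ := eq_seg hvw.ne (simp_mono hsub hxr)
        have h5 := H5 ⟨x w, e2⟩ ⟨t, ht⟩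
        have h6 := E4 v w hvw (hK2 v w (by simp) (by simp)) ⟨x w, e2⟩ ⟨t, ht⟩
        simp only at h5 h6
        rw [e1, h5, h6]
      · obtain ⟨e1, e2⟩ := eq_seg huw.ne (simp_mono hsub hxr)
        have h5 := H6 ⟨x w, e2⟩ ⟨t, ht⟩
        have h6 := E4 u w huw (hK2 u w (by simp) (by simp)) ⟨x w, e2⟩ ⟨t, ht⟩
        simp only at h5 h6
        rw [e1, h5, h6])
  have hSk3 : Sk K 3 = K := by
    ext s; exact ⟨fun h => h.1, fun h => ⟨h, hdim s h⟩⟩
  rw [hSk3] at F1 F3
  -- values on the one-skeleton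
  have hsmall : ∀ x ∈ Rl (Sk K 2), E (x, 0) = z0 ∧ E (x, 1) = z0 := by
    rintro x ⟨s, hs, hx⟩
    have hne : s.Nonempty := by rw [Finset.nonempty_iff_ne_empty]; rintro rfl; exact hK.1 hs.1
    have hpos := hne.card_pos
    have hle := hs.2
    interval_cases hcard : s.card
    · obtain ⟨v, rfl⟩ := Finset.card_eq_one.1 hcard
      rw [eq_dl hx]
      exact ⟨E2 v hs.1 0 mem_Icc0, E2 v hs.1 1 mem_Icc1⟩
    · obtain ⟨u, v, huv, rfl⟩ := card_two_sorted hcard
      obtain ⟨e1, e2⟩ := eq_seg huv.ne hx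
      have h6 := E4 u v huv hs.1 ⟨x v, e2⟩ 0
      have h7 := E4 u v huv hs.1 ⟨x v, e2⟩ 1
      simp only [Icc.coe_zero, Icc.coe_one, Path.source, Path.target, Path.refl_apply] at h6 h7
      rw [e1, h6, h7]
      exact ⟨rfl, rfl⟩
  refine ⟨F, F1, ?_, ?_, ?_⟩
  · rintro x ⟨s, hs, hx⟩
    by_cases hs2 : s ∈ Sk K 2
    · have hx2 : x ∈ Rl (Sk K 2) := ⟨s, hs2, hx⟩
      rw [F2 x hx2 0 mem_Icc0, (hsmall x hx2).1, hg0 x hx2]
    · obtain ⟨H, H1, H2⟩ := F3 s hs hs2
      rw [H2 x hx 0 mem_Icc0, H1.1 x hx]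
  · rintro x ⟨s, hs, hx⟩
    by_cases hs2 : s ∈ Sk K 2
    · have hx2 : x ∈ Rl (Sk K 2) := ⟨s, hs2, hx⟩
      rw [F2 x hx2 1 mem_Icc1, (hsmall x hx2).2]
    · obtain ⟨H, H1, H2⟩ := F3 s hs hs2
      rw [H2 x hx 1 mem_Icc1, H1.2 x hx]
  · intro v hv t ht
    rw [F2 (dl v) ⟨{v}, ⟨hv, by simp⟩, dl_mem v⟩ t ht, E2 v hv t ht]

end

end Pool.Agent.H668R2.Ctr
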