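import Mathlib
import Pool.Agent.H668R2.Ctr.LemA2

set_option autoImplicit false
set_option linter.unusedVariables false

namespace Pool.Agent.H668R2.Ctr

open Set Topology unitInterval Filter
open Pool.Agent.Helper281.Sc (Simp IsCx)
open Pool.Agent.Helper281.Sc.Car

/-- Concatenation of homotopies. -/
theorem concat {W Z : Type*} [TopologicalSpace W] [TopologicalSpace Z] (A : Set W) (hA : IsClosed A)
    (G H : W × ℝ → Z) (hG : ContinuousOn G (A ×ˢ Icc (0:ℝ) 1))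
    (hH : ContinuousOn H (A ×ˢ Icc (0:ℝ) 1)) (h : ∀ x ∈ A, G (x, 1) = H (x, 0)) :
    ∃ F : W × ℝ → Z, ContinuousOn F (A ×ˢ Icc (0:ℝ) 1) ∧ (∀ x ∈ A, F (x, 0) = G (x, 0)) ∧
      (∀ x ∈ A, F (x, 1) = H (x, 1)) ∧
      ∀ x ∈ A, ∀ t ∈ Icc (0:ℝ) 1, (∃ t' ∈ Icc (0:ℝ) 1, F (x, t) = G (x, t')) ∨
        ∃ t' ∈ Icc (0:ℝ) 1, F (x, t) = H (x, t') := by
  classical
  refine ⟨fun w => if w.2 ≤ 1/2 then G (w.1, 2 * w.2) else H (w.1, 2 * w.2 - 1), ?_, ?_, ?_, ?_⟩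
  · have e : A ×ˢ Icc (0:ℝ) 1 = (A ×ˢ Icc (0:ℝ) (1/2)) ∪ (A ×ˢ Icc (1/2:ℝ) 1) := by
      rw [← Set.prod_union, Icc_union_Icc_eq_Icc (by norm_num) (by norm_num)]
    rw [e]
    apply ContinuousOn.union_of_isClosed
    · have h1 : ContinuousOn (fun w : W × ℝ => G (w.1, 2 * w.2)) (A ×ˢ Icc (0:ℝ) (1/2)) := by
        refine hG.comp (by fun_prop) ?_
        intro w hw
        exact ⟨hw.1, by linarith [hw.2.1], by linarith [hw.2.2]⟩
      refine h1.congr fun w hw => ?_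
      simp only
      rw [if_pos hw.2.2]
    · have h1 : ContinuousOn (fun w : W × ℝ => H (w.1, 2 * w.2 - 1)) (A ×ˢ Icc (1/2:ℝ) 1) := by
        refine hH.comp (by fun_prop) ?_
        intro w hw
        exact ⟨hw.1, by linarith [hw.2.1], by linarith [hw.2.2]⟩
      refine h1.congr fun w hw => ?_
      simp only
      split_ifs with h2
      · have h3 : w.2 = 1/2 := le_antisymm h2 hw.2.1
        rw [h3]
        norm_num
        exact h _ hw.1
      · rfl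
    · exact hA.prod isClosed_Icc
    · exact hA.prod isClosed_Icc
  · intro x hx; simp
  · intro x hx
    simp only
    rw [if_neg (by norm_num)]
    norm_num
  · intro x hx t ht
    simp only
    split_ifs with h2
    · exact Or.inl ⟨2 * t, ⟨by linarith [ht.1], by linarith⟩, rfl⟩
    · exact Or.inr ⟨2 * t - 1, ⟨by linarith, by linarith [ht.2]⟩, rfl⟩

/-- A map of a two-dimensional complex with vanishing second cohomology is null-homotopic as soon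
as it is trivial on fundamental groupoids. -/
theorem lemA {Z : Type} [TopologicalSpace Z] (K : Set (Finset ℕ)) (hK : IsCx K) (hKf : K.Finite)
    (hdim : ∀ s ∈ K, s.card ≤ 3) (h2 : H2 K) (g : (ℕ → ℝ) → Z) (hg : ContinuousOn g (Rl K))
    (z0 : Z) (p : ∀ v, ({v} : Finset ℕ) ∈ K → Path (g (dl v)) z0)
    (hp : ∀ u v, u < v → ∀ (h : ({u, v} : Finset ℕ) ∈ K) (hu : ({u} : Finset ℕ) ∈ K)
      (hv : ({v} : Finset ℕ) ∈ K) (hc : ContinuousOn g (Simp {u, v})),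
      ((ep g u v hc).trans (p v hv)).Homotopic (p u hu)) :
    ∃ H : (ℕ → ℝ) × ℝ → Z, ContinuousOn H (Rl K ×ˢ Icc (0:ℝ) 1) ∧
      (∀ x ∈ Rl K, H (x, 0) = g x) ∧ (∀ x ∈ Rl K, H (x, 1) = z0) ∧
      ∀ v (h : ({v} : Finset ℕ) ∈ K), (∀ t, p v h t = z0) → ∀ t ∈ Icc (0:ℝ) 1, H (dl v, t) = z0 := by
  classical
  have hgs : ∀ s ∈ K, ContinuousOn g (Simp s) := fun s hs => hg.mono fun x hx => ⟨s, hs, hx⟩
  obtain ⟨E, E1, E2, E3⟩ := skel1 K hK hKf z0 (fun v h => (p v h).extend)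
    (fun v h => (p v h).continuous_extend.continuousOn)
    (fun u v F => (∀ s : I, F (0, s) = g (seg u v s)) ∧ ∀ s : I, F (1, s) = z0) (by
      intro u v huv h hu hv
      have h1 : ((ep g u v (hgs _ h)).trans (p v hv)).Homotopic ((p u hu).trans (Path.refl z0)) :=
        (hp u v huv h hu hv (hgs _ h)).trans (Path.Homotopic.trans_refl _).symm
      obtain ⟨F, F1, F2, F3, F4, F5⟩ := square_fill _ _ _ _ h1
      refine ⟨F, F1, ?_, ?_, ?_, ?_⟩
      · intro t; rw [F4, Path.extend_apply _ t.2]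
      · intro t; rw [F3, Path.extend_apply _ t.2]
      · intro s; rw [F2]; rfl
      · intro s; rw [F5]; rfl)
  have hpts : ∀ x ∈ Rl (Sk K 2), E (x, 0) = g x ∧ E (x, 1) = z0 := by
    rintro x ⟨s, hs, hx⟩
    have hne : s.Nonempty := by rw [Finset.nonempty_iff_ne_empty]; rintro rfl; exact hK.1 hs.1
    have hpos := hne.card_pos
    have hle := hs.2
    interval_cases hcard : s.card
    · obtain ⟨v, rfl⟩ := Finset.card_eq_one.1 hcard
      rw [eq_dl hx]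
      refine ⟨?_, ?_⟩
      · rw [E2 v hs.1 0 mem_Icc0]; simp
      · rw [E2 v hs.1 1 mem_Icc1]; simp
    · obtain ⟨u, v, huv, rfl⟩ := card_two_sorted hcard
      obtain ⟨e1, e2⟩ := eq_seg huv.ne hx
      obtain ⟨F, ⟨F1, F2⟩, F3⟩ := E3 u v huv hs.1
      have h6 := F3 ⟨x v, e2⟩ 0
      have h7 := F3 ⟨x v, e2⟩ 1
      simp only [Icc.coe_zero, Icc.coe_one, F1, F2] at h6 h7
      rw [e1, h6, h7]
      exact ⟨rfl, rfl⟩
  obtain ⟨G, G1, G2, G3⟩ := hep K (Sk K 2) hK (hKf.subset (Sk_sub K 2)) (isCx_Sk hK 2)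
    (Sk_sub K 2) hKf g hg E E1 (fun x hx => (hpts x hx).1)
  obtain ⟨H, H1, H2, H3, H4⟩ := lemA_step2 K hK hKf hdim h2 (fun x => G (x, 1))
    (G1.comp (by fun_prop) (fun x hx => ⟨hx, mem_Icc1⟩)) z0
    (fun x hx => by rw [G3 x hx 1 mem_Icc1, (hpts x hx).2])
  obtain ⟨F, F1, F2, F3, F4⟩ := concat (Rl K) (isClosed_Rl hKf) G H G1 H1
    (fun x hx => (H2 x hx).symm)
  refine ⟨F, F1, ?_, ?_, ?_⟩
  · intro x hx; rw [F2 x hx, G2 x hx]
  · intro x hx; rw [F3 x hx, H3 x hx]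
  · intro v hv hpv t ht
    rcases F4 (dl v) ⟨{v}, hv, dl_mem v⟩ t ht with ⟨t', ht', h⟩ | ⟨t', ht', h⟩
    · rw [h, G3 (dl v) ⟨{v}, ⟨hv, by simp⟩, dl_mem v⟩ t' ht', E2 v hv t' ht',
        Path.extend_apply _ ht', hpv]
    · rw [h, H4 v hv t' ht']

end Pool.Agent.H668R2.Ctr
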