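import Mathlib
import Pool.Agent.H668R2.Ctr.LemA3

set_option autoImplicit false
set_option linter.unusedVariables false

namespace Pool.Agent.H668R2.Ctr

open Set Topology unitInterval Filter
open Pool.Agent.Helper281.Sc (Simp IsCx)
open Pool.Agent.Helper281.Sc.Car

theorem convex_simp (s : Finset ℕ) : Convex ℝ (Simp s) := by
  intro x hx y hy a b ha hb hab
  refine ⟨fun v => ?_, fun v hv => ?_, ?_⟩
  · simp only [Pi.add_apply, Pi.smul_apply, smul_eq_mul]
    have := mul_nonneg ha (hx.1 v)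
    have := mul_nonneg hb (hy.1 v)
    linarith
  · simp [hx.2.1 v hv, hy.2.1 v hv]
  · simp only [Pi.add_apply, Pi.smul_apply, smul_eq_mul]
    rw [Finset.sum_add_distrib, ← Finset.mul_sum, ← Finset.mul_sum, hx.2.2, hy.2.2]
    linarith

/-- The edge path inside a simplex. -/
noncomputable def eS (S : Finset ℕ) (u v : ℕ) (hu : u ∈ S) (hv : v ∈ S) :
    Path (⟨dl u, dl_mem_of hu⟩ : Simp S) ⟨dl v, dl_mem_of hv⟩ where
  toFun s := ⟨seg u v s, seg_mem hu hv s.2⟩
  continuous_toFun := Continuous.subtype_mk ((continuous_seg u v).comp continuous_subtype_val) _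
  source' := by simp [seg_zero]
  target' := by simp [seg_one]

theorem ep_rel {Z : Type*} [TopologicalSpace Z] (g : (ℕ → ℝ) → Z) (u v w : ℕ)
    (hg : ContinuousOn g (Simp {u, v, w})) (h1 : ContinuousOn g (Simp {u, v}))
    (h2 : ContinuousOn g (Simp {v, w})) (h3 : ContinuousOn g (Simp {u, w})) :
    ((ep g u v h1).trans (ep g v w h2)).Homotopic (ep g u w h3) := by
  have hu : u ∈ ({u, v, w} : Finset ℕ) := by simp
  have hv : v ∈ ({u, v, w} : Finset ℕ) := by simp
  have hw : w ∈ ({u, v, w} : Finset ℕ) := by simp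
  have hc : ContractibleSpace (Simp ({u, v, w} : Finset ℕ)) :=
    (convex_simp _).contractibleSpace ⟨dl u, dl_mem_of hu⟩
  have hh : ((eS {u, v, w} u v hu hv).trans (eS {u, v, w} v w hv hw)).Homotopic
      (eS {u, v, w} u w hu hw) := SimplyConnectedSpace.paths_homotopic _ _
  have h4 := hh.map (⟨fun x : Simp ({u, v, w} : Finset ℕ) => g x,
    continuousOn_iff_continuous_domRestrict.1 hg⟩)
  rw [Path.map_trans] at h4
  exact h4

/-- edge cocycles with values in a group -/
def Coc (X : Set (Finset ℕ)) {G : Type*} [Group G] (f : ℕ → ℕ → G) : Prop :=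
  ∀ u v w, ({u, v, w} : Finset ℕ) ∈ X → f u v * f v w = f u w

/-- edge coboundaries -/
def Cob (L : Set (Finset ℕ)) {G : Type*} [Group G] (f : ℕ → ℕ → G) : Prop :=
  ∃ h : ℕ → G, ∀ u v, ({u, v} : Finset ℕ) ∈ L → f u v = (h u)⁻¹ * h v

theorem exists_p {Z : Type*} [TopologicalSpace Z] (X L : Set (Finset ℕ)) (hX : IsCx X)
    (hL : IsCx L) (hLX : L ⊆ X)
    (g : (ℕ → ℝ) → Z) (hg : ContinuousOn g (Rl X)) (z0 : Z)
    (hj : ∀ v, ({v} : Finset ℕ) ∈ X → Joined (g (dl v)) z0)
    (hT : let _ := loopGroup z0; ∀ f : ℕ → ℕ → Path.Homotopic.Quotient z0 z0, Coc X f → Cob L f)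
    (v0 : ℕ) (hv0 : g (dl v0) = z0) :
    ∃ p : ∀ v, ({v} : Finset ℕ) ∈ L → Path (g (dl v)) z0,
      (∀ u v, u < v → ∀ (h : ({u, v} : Finset ℕ) ∈ L) (hu : ({u} : Finset ℕ) ∈ L)
        (hv : ({v} : Finset ℕ) ∈ L) (hc : ContinuousOn g (Simp {u, v})),
        ((ep g u v hc).trans (p v hv)).Homotopic (p u hu)) ∧
      ∀ h t, p v0 h t = z0 := by
  classical
  let _ : Group (Path.Homotopic.Quotient z0 z0) := loopGroup z0
  have hgs : ∀ s ∈ X, ContinuousOn g (Simp s) := fun s hs => hg.mono fun x hx => ⟨s, hs, hx⟩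
  let q : ∀ v, ({v} : Finset ℕ) ∈ X → Path (g (dl v)) z0 := fun v h =>
    if hv : v = v0 then (Path.refl z0).cast (by rw [hv, hv0]) rfl else (hj v h).somePath
  have hq0 : ∀ v h, v = v0 → ∀ t, q v h t = z0 := by
    intro v h hv t
    have : q v h = (Path.refl z0).cast (by rw [hv, hv0]) rfl := dif_pos hv
    rw [this]; rfl
  let Q : ∀ v, ({v} : Finset ℕ) ∈ X → Path.Homotopic.Quotient (g (dl v)) z0 := fun v h =>
    Path.Homotopic.Quotient.mk (q v h)
  have hXs : ∀ u v, ({u, v} : Finset ℕ) ∈ X → ({u} : Finset ℕ) ∈ X ∧ ({v} : Finset ℕ) ∈ X :=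
    fun u v h => ⟨hX.2 _ h _ (by simp) (by simp), hX.2 _ h _ (by simp) (by simp)⟩
  let f : ℕ → ℕ → Path.Homotopic.Quotient z0 z0 := fun u v =>
    if h : ({u, v} : Finset ℕ) ∈ X then
      ((Q u (hXs u v h).1).symm.trans (Path.Homotopic.Quotient.mk (ep g u v (hgs _ h)))).trans
        (Q v (hXs u v h).2) else 1
  have hf : ∀ u v (h : ({u, v} : Finset ℕ) ∈ X), f u v =
      ((Q u (hXs u v h).1).symm.trans (Path.Homotopic.Quotient.mk (ep g u v (hgs _ h)))).trans
        (Q v (hXs u v h).2) := fun u v h => dif_pos h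
  have hcoc : Coc X f := by
    intro u v w h
    have huv : ({u, v} : Finset ℕ) ∈ X := hX.2 _ h _ (by intro n hn; simp at hn ⊢; tauto) (by simp)
    have hvw : ({v, w} : Finset ℕ) ∈ X := hX.2 _ h _ (by intro n hn; simp at hn ⊢; tauto) (by simp)
    have huw : ({u, w} : Finset ℕ) ∈ X := hX.2 _ h _ (by intro n hn; simp at hn ⊢; tauto) (by simp)
    rw [hf u v huv, hf v w hvw, hf u w huw]
    have h1 := ep_rel g u v w (hgs _ h) (hgs _ huv) (hgs _ hvw) (hgs _ huw)
    rw [← Path.Homotopic.Quotient.eq, Path.Homotopic.Quotient.mk_trans] at h1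
    rw [← h1]
    change Path.Homotopic.Quotient.trans _ _ = _
    simp only [Path.Homotopic.Quotient.trans_assoc]
    congr 2
    rw [← Path.Homotopic.Quotient.trans_assoc, Path.Homotopic.Quotient.trans_symm,
      Path.Homotopic.Quotient.refl_trans]
  obtain ⟨h, hh⟩ := hT f hcoc
  let k : ℕ → Path.Homotopic.Quotient z0 z0 := fun v => (h v0)⁻¹ * h v
  have hk : ∀ u v, ({u, v} : Finset ℕ) ∈ L → f u v = (k u)⁻¹ * k v := by
    intro u v huv
    rw [hh u v huv]
    simp only [k]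
    group
  have hk0 : k v0 = 1 := by simp [k]
  -- the classes
  let P : ∀ v, ({v} : Finset ℕ) ∈ L → Path.Homotopic.Quotient (g (dl v)) z0 := fun v hv =>
    (Q v (hLX hv)).trans (k v)⁻¹
  have hP : ∀ u v (h : ({u, v} : Finset ℕ) ∈ L) (hu : ({u} : Finset ℕ) ∈ L)
        (hv : ({v} : Finset ℕ) ∈ L),
        (Path.Homotopic.Quotient.mk (ep g u v (hgs _ (hLX h)))).trans (P v hv) = P u hu := by
    intro u v huv hu hv
    have h1 := hk u v huv
    rw [hf u v (hLX huv)] at h1
    simp only [P]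
    have h2 : (k u)⁻¹ = f u v * (k v)⁻¹ := by rw [hk u v huv]; group
    rw [h2, hf u v (hLX huv)]
    change _ = (Q u (hLX hu)).trans (Path.Homotopic.Quotient.trans _ _)
    simp only [Path.Homotopic.Quotient.trans_assoc]
    rw [← Path.Homotopic.Quotient.trans_assoc (Q u (hLX hu)), Path.Homotopic.Quotient.trans_symm,
      Path.Homotopic.Quotient.refl_trans]
  have hrep : ∀ v (hv : ({v} : Finset ℕ) ∈ L), ∃ p : Path (g (dl v)) z0,
      Path.Homotopic.Quotient.mk p = P v hv ∧ (v = v0 → ∀ t, p t = z0) := by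
    intro v hv
    by_cases h0 : v = v0
    · subst h0
      refine ⟨q v (hLX hv), ?_, ?_⟩
      · simp only [P, hk0, inv_one]
        change _ = (Q v (hLX hv)).trans (Path.Homotopic.Quotient.refl z0)
        rw [Path.Homotopic.Quotient.trans_refl]
      · intro h0 t
        exact hq0 v (hLX hv) h0 t
    · obtain ⟨p, hp⟩ := Path.Homotopic.Quotient.mk_surjective (P v hv)
      exact ⟨p, hp, fun h => absurd h h0⟩
  choose p hp1 hp2 using hrep
  refine ⟨p, ?_, fun h t => hp2 v0 h rfl t⟩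
  intro u v huv huvL hu hv hc
  rw [← Path.Homotopic.Quotient.eq, Path.Homotopic.Quotient.mk_trans, hp1, hp1]
  exact hP u v huvL hu hv

end Pool.Agent.H668R2.Ctr
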