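import Mathlib
import Pool.Agent.H668R2.Ctr.Tri

set_option autoImplicit false
set_option linter.unusedVariables false

/-! Realization of products with the circle. -/

namespace Pool.Agent.H668R2.Ctr

open Set Topology Filter
open Pool.Agent.Helper281.Sc (Simp IsCx)
open Pool.Agent.Helper281.Sc.Car

/-- cumulative sums -/
def cum (x : ℕ → ℝ) (v : ℕ) : ℝ := ∑ u ∈ Finset.range v, x u

theorem cum_zero (x : ℕ → ℝ) : cum x 0 = 0 := by simp [cum]
theorem cum_succ (x : ℕ → ℝ) (v : ℕ) : cum x (v + 1) = cum x v + x v := by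
  simp [cum, Finset.sum_range_succ]
theorem cum_mono {x : ℕ → ℝ} (hx : ∀ v, 0 ≤ x v) {u v : ℕ} (h : u ≤ v) : cum x u ≤ cum x v :=
  Finset.sum_le_sum_of_subset_of_nonneg (Finset.range_mono h) fun i _ _ => hx i
theorem cum_nonneg {x : ℕ → ℝ} (hx : ∀ v, 0 ≤ x v) (v : ℕ) : 0 ≤ cum x v :=
  Finset.sum_nonneg fun i _ => hx i
theorem cum_le_one {x : ℕ → ℝ} {s : Finset ℕ} (hx : x ∈ Simp s) (v : ℕ) : cum x v ≤ 1 := by
  have h1 : ∑ u ∈ (s ∪ Finset.range v), x u = 1 := by
    rw [← hx.2.2]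
    symm
    exact Finset.sum_subset Finset.subset_union_left fun i _ hi => hx.2.1 i hi
  rw [← h1]
  exact Finset.sum_le_sum_of_subset_of_nonneg Finset.subset_union_right fun i _ _ => hx.1 i

/-- the monotone coupling -/
noncomputable def Wt (x z : ℕ → ℝ) (p : ℕ × ℕ) : ℝ :=
  min (cum x (p.1 + 1)) (cum z (p.2 + 1)) - min (cum x p.1) (cum z (p.2 + 1)) -
    min (cum x (p.1 + 1)) (cum z p.2) + min (cum x p.1) (cum z p.2)

theorem Wt_left {x z : ℕ → ℝ} {p : ℕ × ℕ} (h : x p.1 = 0) : Wt x z p = 0 := by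
  unfold Wt
  rw [cum_succ x, h, add_zero]; ring

theorem Wt_right {x z : ℕ → ℝ} {p : ℕ × ℕ} (h : z p.2 = 0) : Wt x z p = 0 := by
  unfold Wt
  rw [cum_succ z, h, add_zero]; ring

theorem Wt_nonneg {x z : ℕ → ℝ} (hx : ∀ v, 0 ≤ x v) (hz : ∀ v, 0 ≤ z v) (p : ℕ × ℕ) :
    0 ≤ Wt x z p := by
  unfold Wt
  have h1 := cum_mono hx (Nat.le_succ p.1)
  have h2 := cum_mono hz (Nat.le_succ p.2)
  simp only [Nat.succ_eq_add_one] at h1 h2
  generalize cum x (p.1 + 1) = a at *
  generalize cum x p.1 = b at *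
  generalize cum z (p.2 + 1) = c at *
  generalize cum z p.2 = d at *
  rcases min_cases a c with ⟨e1, e1'⟩ | ⟨e1, e1'⟩ <;> rcases min_cases b c with ⟨e2, e2'⟩ | ⟨e2, e2'⟩ <;>
    rcases min_cases a d with ⟨e3, e3'⟩ | ⟨e3, e3'⟩ <;> rcases min_cases b d with ⟨e4, e4'⟩ | ⟨e4, e4'⟩ <;>
    rw [e1, e2, e3, e4] <;> linarith

theorem Wt_ne {x z : ℕ → ℝ} (hx : ∀ v, 0 ≤ x v) (hz : ∀ v, 0 ≤ z v) {p : ℕ × ℕ}
    (h : Wt x z p ≠ 0) : cum x p.1 < cum z (p.2 + 1) ∧ cum z p.2 < cum x (p.1 + 1) := by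
  have h1 := cum_mono hx (Nat.le_succ p.1)
  have h2 := cum_mono hz (Nat.le_succ p.2)
  simp only [Nat.succ_eq_add_one] at h1 h2
  unfold Wt at h
  constructor
  · by_contra hcon
    push Not at hcon
    apply h
    rw [min_eq_right (hcon.trans h1), min_eq_right hcon, min_eq_right ((h2.trans hcon).trans h1),
      min_eq_right (h2.trans hcon)]
    ring
  · by_contra hcon
    push Not at hcon
    apply h
    rw [min_eq_left (hcon.trans h2), min_eq_left ((h1.trans hcon).trans h2), min_eq_left hcon,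
      min_eq_left (h1.trans hcon)]
    ring

theorem Wt_chain {x z : ℕ → ℝ} (hx : ∀ v, 0 ≤ x v) (hz : ∀ v, 0 ≤ z v) {p q : ℕ × ℕ}
    (hp : Wt x z p ≠ 0) (hq : Wt x z q ≠ 0) : p ≤ q ∨ q ≤ p := by
  by_contra hcon
  push Not at hcon
  obtain ⟨h1, h2⟩ := hcon
  rw [Prod.le_def, not_and_or, not_le, not_le] at h1 h2
  have key : ∀ {p q : ℕ × ℕ}, Wt x z p ≠ 0 → Wt x z q ≠ 0 → p.1 < q.1 → q.2 < p.2 → False := by
    intro p q hp hq ha hb
    have e1 := (Wt_ne hx hz hp).2
    have e2 := (Wt_ne hx hz hq).1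
    have e3 := cum_mono hz (Nat.succ_le_of_lt hb)
    have e4 := cum_mono hx (Nat.succ_le_of_lt ha)
    simp only [Nat.succ_eq_add_one] at e3 e4
    linarith
  rcases h1 with h1 | h1
  · rcases h2 with h2 | h2
    · omega
    · exact key hq hp h1 h2
  · rcases h2 with h2 | h2
    · exact key hp hq h2 h1
    · omega

theorem cum_three {z : ℕ → ℝ} {t : Finset ℕ} (hz : z ∈ Simp t) (ht : t ⊆ {0, 1, 2}) :
    cum z 3 = 1 := by
  have : cum z 3 = ∑ u ∈ ({0, 1, 2} : Finset ℕ), z u := by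
    unfold cum; rfl
  rw [this, ← hz.2.2]
  symm
  exact Finset.sum_subset ht fun i _ hi => hz.2.1 i hi

theorem Wt_marg {x z : ℕ → ℝ} {s t : Finset ℕ} (hx : x ∈ Simp s) (hz : z ∈ Simp t)
    (ht : t ⊆ {0, 1, 2}) (v : ℕ) : ∑ c ∈ ({0, 1, 2} : Finset ℕ), Wt x z (v, c) = x v := by
  have h3 := cum_three hz ht
  have e1 := min_eq_left (cum_le_one hx (v + 1))
  have e2 := min_eq_left (cum_le_one hx v)
  have e3 := min_eq_right (cum_nonneg hx.1 (v + 1))
  have e4 := min_eq_right (cum_nonneg hx.1 v)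
  rw [Finset.sum_insert (by simp), Finset.sum_insert (by simp), Finset.sum_singleton]
  simp only [Wt, zero_add, cum_zero]
  rw [show (1 + 1 : ℕ) = 2 from rfl, show (2 + 1 : ℕ) = 3 from rfl, h3, e1, e2, e3, e4]
  rw [cum_succ x]
  ring

section

variable (VN : Finset ℕ) (ν : ℕ × ℕ → ℕ)

/-- the map from the product -/
noncomputable def Phi (x z : ℕ → ℝ) : ℕ → ℝ :=
  ∑ p ∈ VN ×ˢ ({0, 1, 2} : Finset ℕ), Wt x z p • dl (ν p)

theorem continuous_cum (v : ℕ) : Continuous (fun x : ℕ → ℝ => cum x v) := by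
  unfold cum; fun_prop

theorem continuous_Phi : Continuous (fun p : (ℕ → ℝ) × (ℕ → ℝ) => Phi VN ν p.1 p.2) := by
  unfold Phi Wt
  refine continuous_finsetSum _ fun p _ => ?_
  have h1 : ∀ v, Continuous (fun p : (ℕ → ℝ) × (ℕ → ℝ) => cum p.1 v) :=
    fun v => (continuous_cum v).comp continuous_fst
  have h2 : ∀ v, Continuous (fun p : (ℕ → ℝ) × (ℕ → ℝ) => cum p.2 v) :=
    fun v => (continuous_cum v).comp continuous_snd
  have := h1 (p.1 + 1)
  have := h1 p.1
  have := h2 (p.2 + 1)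
  have := h2 p.2
  fun_prop

variable (hν : Set.InjOn ν ((VN ×ˢ ({0, 1, 2} : Finset ℕ) : Finset (ℕ × ℕ)) : Set (ℕ × ℕ)))
include hν

theorem Phi_apply (x z : ℕ → ℝ) {p : ℕ × ℕ} (hp : p ∈ VN ×ˢ ({0, 1, 2} : Finset ℕ)) :
    Phi VN ν x z (ν p) = Wt x z p := by
  unfold Phi
  rw [Finset.sum_apply, Finset.sum_eq_single p]
  · simp [dl_apply]
  · intro q hq hqp
    simp only [Pi.smul_apply, smul_eq_mul, dl_apply]
    rw [if_neg (fun h => hqp (hν (Finset.mem_coe.2 hq) (Finset.mem_coe.2 hp) h.symm)), mul_zero]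
  · intro h; exact absurd hp h

omit hν in
theorem Phi_apply_not (x z : ℕ → ℝ) {n : ℕ}
    (hn : ∀ p ∈ VN ×ˢ ({0, 1, 2} : Finset ℕ), Wt x z p ≠ 0 → n ≠ ν p) : Phi VN ν x z n = 0 := by
  unfold Phi
  rw [Finset.sum_apply]
  apply Finset.sum_eq_zero
  intro p hp
  simp only [Pi.smul_apply, smul_eq_mul, dl_apply]
  by_cases h : Wt x z p = 0
  · rw [h, zero_mul]
  · rw [if_neg (hn p hp h), mul_zero]

theorem Phi_mem {x z : ℕ → ℝ} {s t : Finset ℕ} (hx : x ∈ Simp s) (hs : s ⊆ VN) (hz : z ∈ Simp t)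
    (ht : t ⊆ {0, 1, 2}) :
    ∃ A : Finset (ℕ × ℕ), A.Nonempty ∧ (∀ p ∈ A, ∀ q ∈ A, p ≤ q ∨ q ≤ p) ∧
      A.image Prod.fst ⊆ s ∧ A.image Prod.snd ⊆ t ∧ Phi VN ν x z ∈ Simp (A.image ν) := by
  classical
  set A : Finset (ℕ × ℕ) := (VN ×ˢ ({0, 1, 2} : Finset ℕ)).filter (fun p => Wt x z p ≠ 0) with hA
  have hmem : Phi VN ν x z ∈ Simp (A.image ν) := by
    refine ⟨fun n => ?_, fun n hn => ?_, ?_⟩
    · unfold Phi
      rw [Finset.sum_apply]
      apply Finset.sum_nonneg
      intro p _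
      simp only [Pi.smul_apply, smul_eq_mul]
      exact mul_nonneg (Wt_nonneg hx.1 hz.1 p) ((dl_mem _).1 n)
    · apply Phi_apply_not
      intro p hp hw h
      exact hn (Finset.mem_image.2 ⟨p, Finset.mem_filter.2 ⟨hp, hw⟩, h.symm⟩)
    · rw [Finset.sum_image (fun p hp q hq h => hν (Finset.mem_coe.2 (Finset.mem_filter.1 hp).1)
        (Finset.mem_coe.2 (Finset.mem_filter.1 hq).1) h)]
      rw [Finset.sum_congr rfl (fun p hp => Phi_apply VN ν hν x z (Finset.mem_filter.1 hp).1)]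
      rw [Finset.sum_filter_ne_zero, Finset.sum_product]
      rw [Finset.sum_congr rfl (fun v _ => Wt_marg hx hz ht v)]
      rw [← hx.2.2]
      symm
      exact Finset.sum_subset hs fun i _ hi => hx.2.1 i hi
  refine ⟨A, ?_, ?_, ?_, ?_, hmem⟩
  · have := nonempty_of_mem_simp hmem
    exact Finset.image_nonempty.1 this
  · intro p hp q hq
    exact Wt_chain hx.1 hz.1 (Finset.mem_filter.1 hp).2 (Finset.mem_filter.1 hq).2
  · intro v hv
    obtain ⟨p, hp, rfl⟩ := Finset.mem_image.1 hv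
    by_contra hcon
    exact (Finset.mem_filter.1 hp).2 (Wt_left (hx.2.1 _ hcon))
  · intro v hv
    obtain ⟨p, hp, rfl⟩ := Finset.mem_image.1 hv
    by_contra hcon
    exact (Finset.mem_filter.1 hp).2 (Wt_right (hz.2.1 _ hcon))

omit hν in
/-- projections -/
def prN (y : ℕ → ℝ) : ℕ → ℝ := fun v => if v ∈ VN then ∑ c ∈ ({0, 1, 2} : Finset ℕ), y (ν (v, c)) else 0

omit hν in
/-- projections -/
def prC (y : ℕ → ℝ) : ℕ → ℝ := fun c =>
  if c ∈ ({0, 1, 2} : Finset ℕ) then ∑ v ∈ VN, y (ν (v, c)) else 0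

omit hν in
theorem continuous_prN : Continuous (prN VN ν) := by
  unfold prN
  refine continuous_pi fun v => ?_
  split_ifs <;> fun_prop

omit hν in
theorem continuous_prC : Continuous (prC VN ν) := by
  unfold prC
  refine continuous_pi fun v => ?_
  split_ifs <;> fun_prop

theorem Phi_pr {y : ℕ → ℝ} {A : Finset (ℕ × ℕ)} (hA : A ⊆ VN ×ˢ ({0, 1, 2} : Finset ℕ))
    (hch : ∀ p ∈ A, ∀ q ∈ A, p ≤ q ∨ q ≤ p) (hy : y ∈ Simp (A.image ν)) :
    prN VN ν y ∈ Simp (A.image Prod.fst) ∧ prC VN ν y ∈ Simp (A.image Prod.snd) ∧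
      Phi VN ν (prN VN ν y) (prC VN ν y) = y := by
  classical
  set D := VN ×ˢ ({0, 1, 2} : Finset ℕ) with hD
  have hl0 : ∀ p ∈ D, p ∉ A → y (ν p) = 0 := by
    intro p hp hpA
    apply hy.2.1
    intro h
    obtain ⟨q, hq, hqp⟩ := Finset.mem_image.1 h
    have := hν (Finset.mem_coe.2 (hA hq)) (Finset.mem_coe.2 hp) hqp
    exact hpA (this ▸ hq)
  -- the matrix
  set l : ℕ → ℕ → ℝ := fun v c => if (v, c) ∈ A then y (ν (v, c)) else 0 with hl
  have hlnn : ∀ v c, 0 ≤ l v c := by
    intro v c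
    simp only [hl]
    split_ifs
    · exact hy.1 _
    · exact le_rfl
  have hlD : ∀ v c, v ∈ VN → c ∈ ({0, 1, 2} : Finset ℕ) → y (ν (v, c)) = l v c := by
    intro v c hv hc
    simp only [hl]
    split_ifs with h
    · rfl
    · exact hl0 _ (Finset.mem_product.2 ⟨hv, hc⟩) h
  have hN : ∀ v, prN VN ν y v = ∑ c ∈ Finset.range 3, l v c := by
    intro v
    unfold prN
    split_ifs with hv
    · exact Finset.sum_congr rfl fun c hc => hlD v c hv hc
    · symm
      apply Finset.sum_eq_zero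
      intro c _
      simp only [hl]
      rw [if_neg]
      intro h
      exact hv (Finset.mem_product.1 (hA h)).1
  obtain ⟨M, hM⟩ : ∃ M, VN ⊆ Finset.range M := by
    refine ⟨VN.sup id + 1, fun v hv => ?_⟩
    rw [Finset.mem_range]
    have : v ≤ VN.sup id := Finset.le_sup (f := id) hv
    omega
  have hC : ∀ c, prC VN ν y c = ∑ v ∈ Finset.range M, l v c := by
    intro c
    unfold prC
    split_ifs with hc
    · rw [Finset.sum_congr rfl fun v hv => hlD v c hv hc]
      apply Finset.sum_subset hM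
      intro v _ hv
      simp only [hl]
      rw [if_neg]
      intro h
      exact hv (Finset.mem_product.1 (hA h)).1
    · symm
      apply Finset.sum_eq_zero
      intro v _
      simp only [hl]
      rw [if_neg]
      intro h
      exact hc (Finset.mem_product.1 (hA h)).2
  have hlA : ∀ v c, l v c ≠ 0 → (v, c) ∈ A := by
    intro v c h
    by_contra hcon
    apply h
    simp only [hl]
    rw [if_neg hcon]
  have hsum : ∑ p ∈ D, l p.1 p.2 = 1 := by
    rw [← hy.2.2, Finset.sum_image (fun p hp q hq h => hν (Finset.mem_coe.2 (hA hp))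
      (Finset.mem_coe.2 (hA hq)) h)]
    symm
    rw [← Finset.sum_subset hA]
    · apply Finset.sum_congr rfl
      intro p hp
      simp only [hl]
      rw [if_pos hp]
    · intro p _ hp
      simp only [hl]
      rw [if_neg hp]
  refine ⟨⟨fun v => ?_, fun v hv => ?_, ?_⟩, ⟨fun c => ?_, fun c hc => ?_, ?_⟩, ?_⟩
  · rw [hN]; exact Finset.sum_nonneg fun c _ => hlnn v c
  · rw [hN]
    apply Finset.sum_eq_zero
    intro c _
    by_contra h
    exact hv (Finset.mem_image.2 ⟨(v, c), hlA v c h, rfl⟩)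
  · rw [Finset.sum_congr rfl fun v _ => hN v]
    rw [← hsum, hD, Finset.sum_product]
    apply Finset.sum_subset
    · intro v hv
      obtain ⟨p, hp, rfl⟩ := Finset.mem_image.1 hv
      exact (Finset.mem_product.1 (hA hp)).1
    · intro v _ hv
      apply Finset.sum_eq_zero
      intro c _
      by_contra h
      exact hv (Finset.mem_image.2 ⟨(v, c), hlA v c h, rfl⟩)
  · rw [hC]; exact Finset.sum_nonneg fun v _ => hlnn v c
  · rw [hC]
    apply Finset.sum_eq_zero
    intro v _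
    by_contra h
    exact hc (Finset.mem_image.2 ⟨(v, c), hlA v c h, rfl⟩)
  · rw [Finset.sum_congr rfl fun v _ => hC v]
    rw [← hsum, hD, Finset.sum_product, Finset.sum_comm]
    have e1 : ∑ v ∈ VN, ∑ c ∈ ({0, 1, 2} : Finset ℕ), l v c =
        ∑ v ∈ Finset.range M, ∑ c ∈ ({0, 1, 2} : Finset ℕ), l v c := by
      apply Finset.sum_subset hM
      intro v _ hv
      apply Finset.sum_eq_zero
      intro c _
      by_contra h
      exact hv (Finset.mem_product.1 (hA (hlA v c h))).1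
    rw [e1]
    apply Finset.sum_congr rfl
    intro v _
    apply Finset.sum_subset
    · intro c hc
      obtain ⟨p, hp, rfl⟩ := Finset.mem_image.1 hc
      exact (Finset.mem_product.1 (hA hp)).2
    · intro c _ hc
      by_contra h
      exact hc (Finset.mem_image.2 ⟨(v, c), hlA v c h, rfl⟩)
  · -- the coupling
    have hcN : ∀ v, cum (prN VN ν y) v = ∑ u ∈ Finset.range v, ∑ c ∈ Finset.range 3, l u c := by
      intro v
      unfold cum
      exact Finset.sum_congr rfl fun u _ => hN u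
    have hcC : ∀ c, cum (prC VN ν y) c = ∑ u ∈ Finset.range M, ∑ d ∈ Finset.range c, l u d := by
      intro c
      unfold cum
      rw [Finset.sum_congr rfl fun u _ => hC u, Finset.sum_comm]
    have hL : ∀ v c, v ≤ M → c ≤ 3 → min (cum (prN VN ν y) v) (cum (prC VN ν y) c) =
        ∑ u ∈ Finset.range v, ∑ d ∈ Finset.range c, l u d := by
      intro v c hv hc
      have h1 : ∑ u ∈ Finset.range v, ∑ d ∈ Finset.range c, l u d ≤ cum (prN VN ν y) v := by
        rw [hcN]
        apply Finset.sum_le_sum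
        intro u _
        exact Finset.sum_le_sum_of_subset_of_nonneg (Finset.range_mono hc) fun d _ _ => hlnn u d
      have h2 : ∑ u ∈ Finset.range v, ∑ d ∈ Finset.range c, l u d ≤ cum (prC VN ν y) c := by
        rw [hcC]
        exact Finset.sum_le_sum_of_subset_of_nonneg (Finset.range_mono hv)
          fun u _ _ => Finset.sum_nonneg fun d _ => hlnn u d
      apply le_antisymm _ (le_min h1 h2)
      by_cases hcase : ∀ u d, (u, d) ∈ A → u < v → d < c
      · refine (min_le_left _ _).trans ?_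
        rw [hcN]
        apply Finset.sum_le_sum
        intro u hu
        have : ∑ d ∈ Finset.range 3, l u d = ∑ d ∈ Finset.range c, l u d := by
          symm
          apply Finset.sum_subset (Finset.range_mono hc)
          intro d _ hd
          by_contra h
          exact hd (Finset.mem_range.2 (hcase u d (hlA u d h) (Finset.mem_range.1 hu)))
        rw [this]
      · push Not at hcase
        obtain ⟨u0, d0, h0, h0u, h0d⟩ := hcase
        refine (min_le_right _ _).trans ?_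
        rw [hcC]
        apply le_of_eq
        symm
        apply Finset.sum_subset (Finset.range_mono hv)
        intro u _ hu
        apply Finset.sum_eq_zero
        intro d hd
        by_contra h
        have h5 := hlA u d h
        rw [Finset.mem_range] at hu hd
        rcases hch _ h0 _ h5 with h6 | h6
        · have := h6.2; simp only at this; omega
        · have := h6.1; simp only at this; omega
    funext n
    by_cases hn : ∃ p ∈ D, n = ν p
    · obtain ⟨⟨v, c⟩, hp, rfl⟩ := hn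
      rw [Phi_apply VN ν hν _ _ hp]
      obtain ⟨hv, hc⟩ := Finset.mem_product.1 hp
      have hvM : v < M := Finset.mem_range.1 (hM hv)
      have hc3 : c < 3 := by
        simp only [Finset.mem_insert, Finset.mem_singleton] at hc
        omega
      unfold Wt
      simp only
      rw [hL (v + 1) (c + 1) hvM hc3, hL v (c + 1) hvM.le hc3, hL (v + 1) c hvM hc3.le,
        hL v c hvM.le hc3.le, hlD v c hv hc]
      rw [Finset.sum_range_succ, Finset.sum_range_succ (f := fun u => ∑ d ∈ Finset.range c, l u d),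
        Finset.sum_range_succ (f := fun d => l v d)]
      ring
    · push Not at hn
      rw [Phi_apply_not VN ν _ _ (fun p hp _ => hn p hp)]
      symm
      apply hy.2.1
      intro h
      obtain ⟨q, hq, hqn⟩ := Finset.mem_image.1 h
      exact hn q (hA hq) hqn.symm

end

end Pool.Agent.H668R2.Ctr
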