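import Mathlib
import Pool.Agent.H668R2.Ctr.Prod
import Pool.Agent.H668R2.Ctr.Edge

set_option autoImplicit false
set_option linter.unusedVariables false

/-! The three-vertex circle and the pieces. -/

namespace Pool.Agent.H668R2.Ctr

open Set Topology unitInterval Filter
open Pool.Agent.Helper281.Sc (Simp IsCx)
open Pool.Agent.Helper281.Sc.Car

/-- edges of the circle -/
def edg (e : Fin 3) : Finset ℕ := match e with
  | 0 => {0, 1}
  | 1 => {1, 2}
  | 2 => {2, 0}

/-- the time at which the standard loop passes a point of the edge -/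
noncomputable def sgm (e : Fin 3) (z : ℕ → ℝ) : ℝ := match e with
  | 0 => z 1 / 3
  | 1 => 1 / 3 + z 2 / 3
  | 2 => 2 / 3 + z 0 / 3

theorem continuous_sgm (e : Fin 3) : Continuous (sgm e) := by
  fin_cases e
  · change Continuous (fun z : ℕ → ℝ => z 1 / 3); fun_prop
  · change Continuous (fun z : ℕ → ℝ => 1 / 3 + z 2 / 3); fun_prop
  · change Continuous (fun z : ℕ → ℝ => 2 / 3 + z 0 / 3); fun_prop

/-- the standard loop -/
noncomputable def gam (s : ℝ) : ℕ → ℝ :=
  if s ≤ 1 / 3 then seg 0 1 (3 * s) else if s ≤ 2 / 3 then seg 1 2 (3 * s - 1) else seg 2 0 (3 * s - 2)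

theorem continuous_gam : Continuous gam := by
  unfold gam
  refine Continuous.if_le ((continuous_seg 0 1).comp (by fun_prop)) ?_ continuous_id
    continuous_const ?_
  · refine Continuous.if_le ((continuous_seg 1 2).comp (by fun_prop))
      ((continuous_seg 2 0).comp (by fun_prop)) continuous_id continuous_const ?_
    intro s hs
    change s = 2 / 3 at hs
    rw [hs]
    norm_num [seg_one, seg_zero]
  · intro s hs
    change s = 1 / 3 at hs
    rw [hs, if_pos (by norm_num)]
    norm_num [seg_one, seg_zero]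

theorem gam_zero : gam 0 = dl 0 := by
  unfold gam; rw [if_pos (by norm_num), mul_zero, seg_zero]

theorem gam_one : gam 1 = dl 0 := by
  unfold gam; rw [if_neg (by norm_num), if_neg (by norm_num)]; norm_num [seg_one]

theorem gam_mem {s : ℝ} (hs : s ∈ Icc (0:ℝ) 1) : ∃ e, gam s ∈ Simp (edg e) := by
  unfold gam
  split_ifs with h1 h2
  · exact ⟨0, seg_mem (by simp [edg]) (by simp [edg]) ⟨by linarith [hs.1], by linarith⟩⟩
  · exact ⟨1, seg_mem (by simp [edg]) (by simp [edg]) ⟨by linarith, by linarith⟩⟩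
  · exact ⟨2, seg_mem (by simp [edg]) (by simp [edg]) ⟨by linarith, by linarith [hs.2]⟩⟩

theorem sgm_mem (e : Fin 3) {z : ℕ → ℝ} (hz : z ∈ Simp (edg e)) : sgm e z ∈ Icc (0:ℝ) 1 := by
  fin_cases e
  · have h := (eq_seg (by norm_num : (0:ℕ) ≠ 1) hz).2
    change z 1 / 3 ∈ _
    exact ⟨by linarith [h.1], by linarith [h.2]⟩
  · have h := (eq_seg (by norm_num : (1:ℕ) ≠ 2) hz).2
    change 1 / 3 + z 2 / 3 ∈ _
    exact ⟨by linarith [h.1], by linarith [h.2]⟩
  · have h := (eq_seg (by norm_num : (2:ℕ) ≠ 0) hz).2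
    change 2 / 3 + z 0 / 3 ∈ _
    exact ⟨by linarith [h.1], by linarith [h.2]⟩

theorem gam_sgm (e : Fin 3) {z : ℕ → ℝ} (hz : z ∈ Simp (edg e)) : gam (sgm e z) = z := by
  fin_cases e
  · obtain ⟨h1, h2⟩ := eq_seg (by norm_num : (0:ℕ) ≠ 1) hz
    change gam (z 1 / 3) = z
    unfold gam
    rw [if_pos (by linarith [h2.2])]
    conv_rhs => rw [h1]
    congr 1
    ring
  · obtain ⟨h1, h2⟩ := eq_seg (by norm_num : (1:ℕ) ≠ 2) hz
    change gam (1 / 3 + z 2 / 3) = z
    unfold gam
    split_ifs with h3 h4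
    · have h5 : z 2 = 0 := le_antisymm (by linarith) h2.1
      rw [h5] at h1 ⊢
      rw [h1, seg_zero]
      norm_num [seg_one]
    · conv_rhs => rw [h1]
      congr 1
      ring
    · exact absurd (by linarith [h2.2] : 1 / 3 + z 2 / 3 ≤ 2 / 3) h4
  · obtain ⟨h1, h2⟩ := eq_seg (by norm_num : (2:ℕ) ≠ 0) hz
    change gam (2 / 3 + z 0 / 3) = z
    unfold gam
    split_ifs with h3 h4
    · exact absurd h3 (by linarith [h2.1])
    · have h5 : z 0 = 0 := le_antisymm (by linarith) h2.1
      rw [h5] at h1 ⊢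
      rw [h1, seg_zero]
      norm_num [seg_one]
    · conv_rhs => rw [h1]
      congr 1
      ring

theorem edg_sub (e : Fin 3) : edg e ⊆ {0, 1, 2} := by
  fin_cases e <;> decide

/-- connectedness by edge paths -/
def Conn (K : Set (Finset ℕ)) : Prop :=
  ∀ v, ({v} : Finset ℕ) ∈ K → Relation.ReflTransGen (fun a b => ({a, b} : Finset ℕ) ∈ K) v 0

theorem joinedIn_of_conn {K : Set (Finset ℕ)} (hK : IsCx K) (hc : Conn K) (v : ℕ)
    (hv : ({v} : Finset ℕ) ∈ K) : JoinedIn (Rl K) (dl v) (dl 0) := by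
  have h0 : ∀ v, ({v} : Finset ℕ) ∈ K → dl v ∈ Rl K := fun v hv => ⟨{v}, hv, dl_mem v⟩
  have key : ∀ w, Relation.ReflTransGen (fun a b => ({a, b} : Finset ℕ) ∈ K) v w →
      JoinedIn (Rl K) (dl v) (dl w) := by
    intro w hw
    induction hw with
    | refl => exact JoinedIn.refl (h0 v hv)
    | tail _ hbc ih =>
      rename_i b c _
      refine ih.trans ⟨⟨⟨fun s => seg b c s, (continuous_seg b c).comp continuous_subtype_val⟩,
        by simp [seg_zero], by simp [seg_one]⟩, fun s => ⟨{b, c}, hbc,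
          seg_mem (by simp) (by simp) s.2⟩⟩
  exact key 0 (hc v hv)

end Pool.Agent.H668R2.Ctr
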