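import Mathlib
import Pool.Agent.H668R2.Ctr.Edge

set_option autoImplicit false
set_option linter.unusedVariables false

namespace Pool.Agent.H668R2.Ctr

open Set Topology unitInterval Filter
open Pool.Agent.Helper281.Sc (Simp IsCx)
open Pool.Agent.Helper281.Sc.Car

section

variable {X : Set (Finset ℕ)} (hX : IsCx X) {G : Type} [Group G] [TopologicalSpace G]
  [DiscreteTopology G] (f : ℕ → ℕ → G) (hf : Coc X f)

theorem exists_index (x : Rl X) : ∃ v, x.1 v ≠ 0 := by
  obtain ⟨x, s, hs, hx⟩ := x
  obtain ⟨v, hv⟩ := nonempty_of_mem_simp (mem_simp_supp hx)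
  exact ⟨v, (mem_supp hx v).1 hv⟩

theorem mem_of_ne (x : Rl X) {s : Finset ℕ} (hn : s.Nonempty) (h : ∀ v ∈ s, x.1 v ≠ 0)
    (hX : IsCx X) : s ∈ X := by
  obtain ⟨x, r, hr, hx⟩ := x
  refine hX.2 r hr s (fun v hv => ?_) hn
  exact supp_subset hx ((mem_supp hx v).2 (h v hv))

/-- the local system of a cocycle -/
noncomputable def core : FiberBundleCore ℕ (Rl X) G where
  baseSet v := {x | x.1 v ≠ 0}
  isOpen_baseSet v := isOpen_ne_fun ((continuous_apply v).comp continuous_subtype_val)
    continuous_const
  indexAt x := (exists_index x).choose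
  mem_baseSet_at x := (exists_index x).choose_spec
  coordChange i j _ g := g * f i j
  coordChange_self i x hx g := by
    have h : ({i, i, i} : Finset ℕ) ∈ X := by
      apply mem_of_ne x (by simp) _ hX
      intro v hv
      have : v = i := by simpa using hv
      rw [this]; exact hx
    have := hf i i i h
    have h1 : f i i = 1 := by simpa using this
    rw [h1, mul_one]
  continuousOn_coordChange i j :=
    ((continuous_of_discreteTopology (f := fun g : G => g * f i j)).comp continuous_snd).continuousOn
  coordChange_comp i j k x hx g := by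
    have h : ({i, j, k} : Finset ℕ) ∈ X := by
      apply mem_of_ne x (by simp) _ hX
      intro v hv
      simp only [Finset.mem_insert, Finset.mem_singleton] at hv
      rcases hv with rfl | rfl | rfl
      · exact hx.1.1
      · exact hx.1.2
      · exact hx.2
    rw [mul_assoc, hf i j k h]

end

/-- If the realization is contractible then every edge cocycle is a coboundary. -/
theorem cob_of_contractible (X : Set (Finset ℕ)) (hX : IsCx X) [ContractibleSpace (Rl X)]
    {G : Type} [Group G] (f : ℕ → ℕ → G) (hf : Coc X f) : Cob X f := by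
  classical
  let _ : TopologicalSpace G := ⊥
  have _ : DiscreteTopology G := ⟨rfl⟩
  let Z := core hX f hf
  have hcov : IsCoveringMap Z.proj := FiberBundle.isCoveringMap (F := G) (E := Z.Fiber)
  obtain ⟨y, ⟨hy⟩⟩ := id_nullhomotopic (Rl X)
  let H := hy.symm
  let e0 : Z.TotalSpace := ⟨y, (1 : G)⟩
  let HH := hcov.liftHomotopy H.toContinuousMap (ContinuousMap.const _ e0) (fun a => by
    change H (0, a) = _
    rw [H.apply_zero]; rfl)
  have hHH : ∀ x, Z.proj (HH (1, x)) = x := by
    intro x
    have := congrFun (hcov.liftHomotopy_lifts H.toContinuousMap (ContinuousMap.const _ e0) (fun a => by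
      change H (0, a) = _
      rw [H.apply_zero]; rfl)) (1, x)
    change Z.proj (HH (1, x)) = H (1, x) at this
    rw [this, H.apply_one]; rfl
  let s : Rl X → Z.TotalSpace := fun x => HH (1, x)
  have hs : Continuous s := HH.continuous.comp (by fun_prop)
  -- coordinates
  let c : ℕ → Rl X → G := fun v x => (Z.localTriv v (s x)).2
  let s2 : Rl X → G := fun x => (s x).2
  have hcc : ∀ v x, c v x = s2 x * f (Z.indexAt x) v := by
    intro v x
    have h1 := hHH x
    have h2 : (s x).1 = x := h1
    have h3 : c v x = s2 x * f (Z.indexAt (s x).1) v := rfl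
    rw [h3, h2]
  have hidx : ∀ x : Rl X, x.1 (Z.indexAt x) ≠ 0 := fun x => Z.mem_baseSet_at x
  have hch : ∀ (u v : ℕ) (x : Rl X), x.1 u ≠ 0 → x.1 v ≠ 0 → c v x = c u x * f u v := by
    intro u v x hu hv
    rw [hcc, hcc, mul_assoc, hf]
    apply mem_of_ne x (by simp) _ hX
    intro w hw
    simp only [Finset.mem_insert, Finset.mem_singleton] at hw
    rcases hw with rfl | rfl | rfl
    · exact hidx x
    · exact hu
    · exact hv
  have hcont : ∀ v (γ : I → Rl X), Continuous γ → (∀ t, (γ t).1 v ≠ 0) →
      ∀ t t', c v (γ t) = c v (γ t') := by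
    intro v γ hγ hv t t'
    have h1 : Continuous fun t => c v (γ t) := by
      have h2 : ContinuousOn (Z.localTriv v) (Z.localTriv v).source := (Z.localTriv v).continuousOn
      have h3 : Continuous fun t => Z.localTriv v (s (γ t)) := by
        refine h2.comp_continuous (hs.comp hγ) fun t => ?_
        rw [FiberBundleCore.mem_localTriv_source]
        change (s (γ t)).1 ∈ {x : Rl X | x.1 v ≠ 0}
        have : (s (γ t)).1 = γ t := hHH (γ t)
        rw [this]
        exact hv t
      exact continuous_snd.comp h3
    exact PreconnectedSpace.constant inferInstance h1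
  -- vertices
  let h : ℕ → G := fun v => if hv : ({v} : Finset ℕ) ∈ X then c v ⟨dl v, {v}, hv, dl_mem v⟩ else 1
  refine ⟨h, fun u v huv => ?_⟩
  have hu : ({u} : Finset ℕ) ∈ X := hX.2 _ huv _ (by simp) (by simp)
  have hv : ({v} : Finset ℕ) ∈ X := hX.2 _ huv _ (by simp) (by simp)
  have hhu : h u = c u ⟨dl u, {u}, hu, dl_mem u⟩ := dif_pos hu
  have hhv : h v = c v ⟨dl v, {v}, hv, dl_mem v⟩ := dif_pos hv
  by_cases huv' : u = v
  · subst huv'
    have h1 := hf u u u (by simpa using hu)
    have h2 : f u u = 1 := by simpa using h1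
    rw [h2]; simp
  let mid : Rl X := ⟨seg u v (1/2), {u, v}, huv, seg_mem (by simp) (by simp) ⟨by norm_num, by norm_num⟩⟩
  have hmu : mid.1 u ≠ 0 := by
    simp only [mid, seg, Pi.add_apply, Pi.smul_apply, smul_eq_mul, dl_apply, if_pos]
    rw [if_neg huv']; norm_num
  have hmv : mid.1 v ≠ 0 := by
    simp only [mid, seg, Pi.add_apply, Pi.smul_apply, smul_eq_mul, dl_apply, if_pos]
    rw [if_neg (Ne.symm huv')]; norm_num
  have e1 : c u ⟨dl u, {u}, hu, dl_mem u⟩ = c u mid := by
    have := hcont u (fun t => ⟨seg u v (t / 2), {u, v}, huv, seg_mem (by simp) (by simp)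
      ⟨by linarith [t.2.1], by linarith [t.2.2]⟩⟩)
      (Continuous.subtype_mk ((continuous_seg u v).comp (by fun_prop)) _) (fun t => by
        simp only [seg, Pi.add_apply, Pi.smul_apply, smul_eq_mul, dl_apply, if_pos]
        rw [if_neg huv']
        have := t.2.2
        nlinarith) 0 1
    simp only [Icc.coe_zero, Icc.coe_one, zero_div, seg_zero] at this
    exact this
  have e2 : c v mid = c v ⟨dl v, {v}, hv, dl_mem v⟩ := by
    have := hcont v (fun t => ⟨seg u v ((1 + t) / 2), {u, v}, huv, seg_mem (by simp) (by simp)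
      ⟨by linarith [t.2.1], by linarith [t.2.2]⟩⟩)
      (Continuous.subtype_mk ((continuous_seg u v).comp (by fun_prop)) _) (fun t => by
        simp only [seg, Pi.add_apply, Pi.smul_apply, smul_eq_mul, dl_apply, if_pos]
        rw [if_neg (Ne.symm huv')]
        have := t.2.1
        nlinarith) 0 1
    simp only [Icc.coe_zero, Icc.coe_one] at this
    norm_num [seg_one] at this
    simpa [mid] using this
  rw [hhu, hhv, ← e2, e1, hch u v mid hmu hmv]
  group

end Pool.Agent.H668R2.Ctr
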