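import Mathlib
import Pool.Agent.H668R2.Ctr.Edge

set_option autoImplicit false
set_option linter.unusedVariables false

/-! Triangulated presentation complexes. -/

namespace Pool.Agent.H668R2.Ctr

open Pool.Agent.Helper281.Sc (Simp IsCx)

/-- first vertex of the circle of letter `l` -/
def v1 (l : ℕ) : ℕ := Nat.pair 1 (2 * l)
/-- second vertex of the circle of letter `l` -/
def v2 (l : ℕ) : ℕ := Nat.pair 1 (2 * l + 1)
/-- ring vertices of disc `q` -/
def rg (q i : ℕ) : ℕ := Nat.pair (3 + q) (i + 1)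
/-- centre of disc `q` -/
def cn (q : ℕ) : ℕ := Nat.pair (3 + q) 0

/-- the edges passed when reading a letter -/
def le (l : ℕ × Bool) : List (ℕ × ℕ) :=
  cond l.2 [(0, v1 l.1), (v1 l.1, v2 l.1), (v2 l.1, 0)] [(0, v2 l.1), (v2 l.1, v1 l.1), (v1 l.1, 0)]

/-- the edges passed when reading a word -/
def pe (w : List (ℕ × Bool)) : List (ℕ × ℕ) := w.flatMap le

/-- start of the `i`-th edge -/
def av (E : List (ℕ × ℕ)) (i : ℕ) : ℕ := (E.getD i (0, 0)).1
/-- end of the `i`-th edge -/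
def bv (E : List (ℕ × ℕ)) (i : ℕ) : ℕ := (E.getD i (0, 0)).2

/-- the triangles of the disc `q` with boundary path `E` -/
def Dk (q : ℕ) (E : List (ℕ × ℕ)) : Set (ℕ × ℕ × ℕ) :=
  {x | (∃ i < E.length, x = (av E i, bv E i, rg q i) ∨ x = (bv E i, rg q i, rg q (i + 1)) ∨
    x = (rg q i, rg q (i + 1), cn q)) ∨ x = (0, rg q E.length, rg q 0) ∨
    x = (rg q E.length, rg q 0, cn q)}

/-- the underlying set of a triangle -/
def tr (x : ℕ × ℕ × ℕ) : Finset ℕ := {x.1, x.2.1, x.2.2}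

/-- the facets of the presentation complex with letters `l < n` and relators `wd q`, `q < n` -/
def Fc (n : ℕ) (wd : ℕ → List (ℕ × Bool)) : Set (Finset ℕ) :=
  {f | (∃ l < n, f = {0, v1 l} ∨ f = {v1 l, v2 l} ∨ f = {v2 l, 0}) ∨
    ∃ q < n, ∃ x ∈ Dk q (pe (wd q)), f = tr x}

/-- the presentation complex -/
def KK (n : ℕ) (wd : ℕ → List (ℕ × Bool)) : Set (Finset ℕ) :=
  {s | s.Nonempty ∧ ∃ f ∈ Fc n wd, s ⊆ f}

theorem v1_ne_zero (l : ℕ) : v1 l ≠ 0 := by
  intro h
  have : v1 l = Nat.pair 0 0 := h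
  unfold v1 at this
  rw [Nat.pair_eq_pair] at this
  omega

theorem v2_ne_zero (l : ℕ) : v2 l ≠ 0 := by
  intro h
  have : v2 l = Nat.pair 0 0 := h
  unfold v2 at this
  rw [Nat.pair_eq_pair] at this
  omega

theorem v1_ne_v2 (l l' : ℕ) : v1 l ≠ v2 l' := by
  unfold v1 v2
  intro h
  rw [Nat.pair_eq_pair] at h
  omega

theorem v1_inj {l l' : ℕ} (h : v1 l = v1 l') : l = l' := by
  unfold v1 at h
  rw [Nat.pair_eq_pair] at h
  omega

theorem v2_inj {l l' : ℕ} (h : v2 l = v2 l') : l = l' := by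
  unfold v2 at h
  rw [Nat.pair_eq_pair] at h
  omega

theorem isCx_KK (n : ℕ) (wd : ℕ → List (ℕ × Bool)) : IsCx (KK n wd) := by
  refine ⟨fun h => by simpa using h.1, ?_⟩
  rintro s ⟨_, f, hf, hs⟩ t ht hn
  exact ⟨hn, f, hf, ht.trans hs⟩

theorem KK_mono {n n' : ℕ} (h : n ≤ n') (wd : ℕ → List (ℕ × Bool)) : KK n wd ⊆ KK n' wd := by
  rintro s ⟨hn, f, hf, hs⟩
  refine ⟨hn, f, ?_, hs⟩
  rcases hf with ⟨l, hl, hf⟩ | ⟨q, hq, hf⟩
  · exact Or.inl ⟨l, by omega, hf⟩
  · exact Or.inr ⟨q, by omega, hf⟩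

theorem Dk_finite (q : ℕ) (E : List (ℕ × ℕ)) : (Dk q E).Finite := by
  have h : Dk q E ⊆ (⋃ i ∈ Finset.range E.length, ({(av E i, bv E i, rg q i),
      (bv E i, rg q i, rg q (i + 1)), (rg q i, rg q (i + 1), cn q)} : Set (ℕ × ℕ × ℕ))) ∪
      {(0, rg q E.length, rg q 0), (rg q E.length, rg q 0, cn q)} := by
    rintro x (⟨i, hi, h⟩ | h)
    · left
      simp only [Set.mem_iUnion]
      exact ⟨i, Finset.mem_range.2 hi, by simpa using h⟩
    · right; simpa using h
  refine Set.Finite.subset (Set.Finite.union ?_ (by simp)) h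
  exact Set.Finite.biUnion (Finset.finite_toSet _) fun i _ => by simp

theorem Fc_finite (n : ℕ) (wd : ℕ → List (ℕ × Bool)) : (Fc n wd).Finite := by
  have h : Fc n wd ⊆ (⋃ l ∈ Finset.range n, ({{0, v1 l}, {v1 l, v2 l}, {v2 l, 0}} : Set (Finset ℕ))) ∪
      ⋃ q ∈ Finset.range n, tr '' (Dk q (pe (wd q))) := by
    rintro f (⟨l, hl, h⟩ | ⟨q, hq, x, hx, rfl⟩)
    · left
      simp only [Set.mem_iUnion]
      exact ⟨l, Finset.mem_range.2 hl, by simpa using h⟩
    · right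
      simp only [Set.mem_iUnion]
      exact ⟨q, Finset.mem_range.2 hq, x, hx, rfl⟩
  refine Set.Finite.subset (Set.Finite.union ?_ ?_) h
  · exact Set.Finite.biUnion (Finset.finite_toSet _) fun i _ => by simp
  · exact Set.Finite.biUnion (Finset.finite_toSet _) fun i _ => (Dk_finite _ _).image _

theorem KK_finite (n : ℕ) (wd : ℕ → List (ℕ × Bool)) : (KK n wd).Finite := by
  have h : KK n wd ⊆ ⋃ f ∈ Fc n wd, ((f.powerset : Finset (Finset ℕ)) : Set (Finset ℕ)) := by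
    rintro s ⟨_, f, hf, hs⟩
    simp only [Set.mem_iUnion]
    exact ⟨f, hf, Finset.mem_coe.2 (Finset.mem_powerset.2 hs)⟩
  exact Set.Finite.subset ((Fc_finite n wd).biUnion fun f _ => Finset.finite_toSet _) h

theorem card_Fc {n : ℕ} {wd : ℕ → List (ℕ × Bool)} {f : Finset ℕ} (hf : f ∈ Fc n wd) :
    f.card ≤ 3 := by
  rcases hf with ⟨l, _, h | h | h⟩ | ⟨q, _, x, _, rfl⟩
  · rw [h]; exact Finset.card_le_two.trans (by norm_num)
  · rw [h]; exact Finset.card_le_two.trans (by norm_num)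
  · rw [h]; exact Finset.card_le_two.trans (by norm_num)
  · exact Finset.card_le_three

theorem card_KK {n : ℕ} {wd : ℕ → List (ℕ × Bool)} {s : Finset ℕ} (hs : s ∈ KK n wd) :
    s.card ≤ 3 := by
  obtain ⟨_, f, hf, h⟩ := hs
  exact (Finset.card_le_card h).trans (card_Fc hf)

/-! ### edge paths -/

theorem pe_cons (l : ℕ × Bool) (w : List (ℕ × Bool)) : pe (l :: w) = le l ++ pe w := by
  simp [pe]

theorem av_nil (i : ℕ) : av [] i = 0 := by simp [av]

theorem av_pe_zero (w : List (ℕ × Bool)) : av (pe w) 0 = 0 := by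
  cases w with
  | nil => simp [pe, av]
  | cons l w =>
    obtain ⟨l, b⟩ := l
    rw [pe_cons]
    cases b <;> simp [le, av]

theorem le_length (l : ℕ × Bool) : (le l).length = 3 := by
  obtain ⟨l, b⟩ := l
  cases b <;> simp [le]

theorem pe_length (w : List (ℕ × Bool)) : (pe w).length = 3 * w.length := by
  induction w with
  | nil => simp [pe]
  | cons l w ih => rw [pe_cons, List.length_append, le_length, ih, List.length_cons]; ring

theorem getD_cons_add (l : ℕ × Bool) (w : List (ℕ × Bool)) (i : ℕ) :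
    (pe (l :: w)).getD (i + 3) (0, 0) = (pe w).getD i (0, 0) := by
  rw [pe_cons]
  obtain ⟨l, b⟩ := l
  cases b <;> simp [le]

theorem av_cons (l : ℕ × Bool) (w : List (ℕ × Bool)) (i : ℕ) :
    av (pe (l :: w)) (i + 3) = av (pe w) i := by
  unfold av; rw [getD_cons_add]

theorem bv_cons (l : ℕ × Bool) (w : List (ℕ × Bool)) (i : ℕ) :
    bv (pe (l :: w)) (i + 3) = bv (pe w) i := by
  unfold bv; rw [getD_cons_add]

theorem pe_chain (w : List (ℕ × Bool)) (i : ℕ) (hi : i < (pe w).length) :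
    bv (pe w) i = av (pe w) (i + 1) := by
  induction w generalizing i with
  | nil => simp [pe] at hi
  | cons l w ih =>
    match i with
    | 0 => rw [pe_cons]; obtain ⟨l, b⟩ := l; cases b <;> simp [le, av, bv]
    | 1 => rw [pe_cons]; obtain ⟨l, b⟩ := l; cases b <;> simp [le, av, bv]
    | 2 =>
      rw [show 2 + 1 = 0 + 3 from rfl, av_cons, av_pe_zero, pe_cons]
      obtain ⟨l, b⟩ := l; cases b <;> simp [le, bv]
    | j + 3 =>
      rw [show j + 3 + 1 = (j + 1) + 3 by ring, av_cons, bv_cons]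
      apply ih
      rw [pe_length] at hi ⊢
      simp only [List.length_cons] at hi
      omega

/-- the edges of a path: both endpoints and their type -/
theorem pe_edge (w : List (ℕ × Bool)) (i : ℕ) (hi : i < (pe w).length) :
    ∃ l ∈ w, (av (pe w) i = 0 ∧ bv (pe w) i = v1 l.1) ∨ (av (pe w) i = v1 l.1 ∧ bv (pe w) i = v2 l.1) ∨
      (av (pe w) i = v2 l.1 ∧ bv (pe w) i = 0) ∨ (av (pe w) i = 0 ∧ bv (pe w) i = v2 l.1) ∨
      (av (pe w) i = v2 l.1 ∧ bv (pe w) i = v1 l.1) ∨ (av (pe w) i = v1 l.1 ∧ bv (pe w) i = 0) := by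
  induction w generalizing i with
  | nil => simp [pe] at hi
  | cons l w ih =>
    match i with
    | 0 => refine ⟨l, by simp, ?_⟩; rw [pe_cons]; obtain ⟨l, b⟩ := l; cases b <;> simp [le, av, bv]
    | 1 => refine ⟨l, by simp, ?_⟩; rw [pe_cons]; obtain ⟨l, b⟩ := l; cases b <;> simp [le, av, bv]
    | 2 => refine ⟨l, by simp, ?_⟩; rw [pe_cons]; obtain ⟨l, b⟩ := l; cases b <;> simp [le, av, bv]
    | j + 3 =>
      rw [av_cons, bv_cons]
      obtain ⟨l', hl', h⟩ := ih j (by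
        rw [pe_length] at hi ⊢
        simp only [List.length_cons] at hi
        omega)
      exact ⟨l', by simp [hl'], h⟩

theorem pe_ne (w : List (ℕ × Bool)) (i : ℕ) (hi : i < (pe w).length) :
    av (pe w) i ≠ bv (pe w) i := by
  obtain ⟨l, _, h⟩ := pe_edge w i hi
  have h1 := v1_ne_zero l.1
  have h2 := v2_ne_zero l.1
  have h3 := v1_ne_v2 l.1 l.1
  rcases h with ⟨e1, e2⟩ | ⟨e1, e2⟩ | ⟨e1, e2⟩ | ⟨e1, e2⟩ | ⟨e1, e2⟩ | ⟨e1, e2⟩ <;> rw [e1, e2]
  · exact h1.symm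
  · exact h3
  · exact h2
  · exact h2.symm
  · exact h3.symm
  · exact h1

/-- vertices of the graph -/
def Gv (x : ℕ) : Prop := x = 0 ∨ ∃ l, x = v1 l ∨ x = v2 l

theorem Gv_av (w : List (ℕ × Bool)) (i : ℕ) : Gv (av (pe w) i) := by
  by_cases hi : i < (pe w).length
  · obtain ⟨l, _, h⟩ := pe_edge w i hi
    rcases h with ⟨e1, e2⟩ | ⟨e1, e2⟩ | ⟨e1, e2⟩ | ⟨e1, e2⟩ | ⟨e1, e2⟩ | ⟨e1, e2⟩ <;> rw [e1]
    · exact Or.inl rfl
    · exact Or.inr ⟨_, Or.inl rfl⟩
    · exact Or.inr ⟨_, Or.inr rfl⟩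
    · exact Or.inl rfl
    · exact Or.inr ⟨_, Or.inr rfl⟩
    · exact Or.inr ⟨_, Or.inl rfl⟩
  · left
    unfold av
    rw [List.getD_eq_default _ _ (by omega)]

theorem Gv_bv (w : List (ℕ × Bool)) (i : ℕ) (hi : i < (pe w).length) : Gv (bv (pe w) i) := by
  rw [pe_chain w i hi]; exact Gv_av w _

/-! ### products along paths -/

section

variable {G : Type*} [Group G]

/-- evaluation of a word -/
def ev (t : ℕ → G) (w : List (ℕ × Bool)) : G :=
  (w.map fun l => cond l.2 (t l.1) (t l.1)⁻¹).prod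

theorem ev_nil (t : ℕ → G) : ev t [] = 1 := rfl
theorem ev_cons (t : ℕ → G) (l : ℕ × Bool) (w : List (ℕ × Bool)) :
    ev t (l :: w) = cond l.2 (t l.1) (t l.1)⁻¹ * ev t w := by simp [ev]
theorem ev_append (t : ℕ → G) (w w' : List (ℕ × Bool)) : ev t (w ++ w') = ev t w * ev t w' := by
  simp [ev]

/-- product of the values along the first `i` edges -/
def pp (f : ℕ → ℕ → G) (E : List (ℕ × ℕ)) (i : ℕ) : G :=
  ((List.range i).map fun j => f (av E j) (bv E j)).prod

theorem pp_zero (f : ℕ → ℕ → G) (E : List (ℕ × ℕ)) : pp f E 0 = 1 := rfl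
theorem pp_succ (f : ℕ → ℕ → G) (E : List (ℕ × ℕ)) (i : ℕ) :
    pp f E (i + 1) = pp f E i * f (av E i) (bv E i) := by
  simp [pp, List.range_succ]

theorem pp_pe (f : ℕ → ℕ → G) (t : ℕ → G) (w : List (ℕ × Bool))
    (h : ∀ l ∈ w, f 0 (v1 l.1) * f (v1 l.1) (v2 l.1) * f (v2 l.1) 0 = t l.1 ∧
      f 0 (v2 l.1) * f (v2 l.1) (v1 l.1) * f (v1 l.1) 0 = (t l.1)⁻¹) :
    pp f (pe w) (pe w).length = ev t w := by
  induction w with
  | nil => simp [pe, pp, ev]
  | cons l w ih =>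
    have h1 := ih fun l' hl' => h l' (by simp [hl'])
    have h2 := h l (by simp)
    rw [pe_length] at h1 ⊢
    rw [List.length_cons, ev_cons, ← h1]
    have e : ∀ n, pp f (pe (l :: w)) (n + 3) = pp f (pe (l :: w)) 3 * pp f (pe w) n := by
      intro n
      induction n with
      | zero => rw [pp_zero, mul_one]
      | succ n ihn =>
        rw [show n + 1 + 3 = (n + 3) + 1 by ring, pp_succ, ihn, pp_succ f (pe w), av_cons, bv_cons, mul_assoc]
    rw [show 3 * (w.length + 1) = 3 * w.length + 3 by ring, e]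
    congr 1
    rw [pp_succ, pp_succ, pp_succ, pp_zero, one_mul, pe_cons]
    obtain ⟨l, b⟩ := l
    cases b
    · simpa [le, av, bv] using h2.2
    · simpa [le, av, bv] using h2.1

end

end Pool.Agent.H668R2.Ctr
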