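import Mathlib
import Pool.Agent.H668R2.Ctr.Cpx

set_option autoImplicit false
set_option linter.unusedVariables false

/-! Cocycles on presentation complexes. -/

namespace Pool.Agent.H668R2.Ctr

open Pool.Agent.Helper281.Sc (Simp IsCx)

section

variable {G : Type} [Group G] {X : Set (Finset ℕ)} (hX : IsCx X) {f : ℕ → ℕ → G} (hf : Coc X f)

include hf in
theorem coc_self {x : ℕ} (h : ({x} : Finset ℕ) ∈ X) : f x x = 1 := by
  have := hf x x x (by simpa using h)
  simpa using this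

include hX hf in
theorem coc_inv {x y : ℕ} (h : ({x, y} : Finset ℕ) ∈ X) : f y x = (f x y)⁻¹ := by
  have h1 := hf x y x (by
    have : ({x, y, x} : Finset ℕ) = {x, y} := by ext; simp; tauto
    rw [this]; exact h)
  have h2 := coc_self hf (hX.2 _ h _ (by simp) (by simp) : ({x} : Finset ℕ) ∈ X)
  rw [h2] at h1
  exact eq_inv_of_mul_eq_one_right h1

include hf in
/-- one step along the boundary of a disc -/
theorem disk_step {q : ℕ} {w : List (ℕ × Bool)} (hD : ∀ x ∈ Dk q (pe w), tr x ∈ X) {i : ℕ}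
    (hi : i < (pe w).length) :
    f (av (pe w) i) (rg q i) * f (rg q i) (cn q) = f (av (pe w) i) (bv (pe w) i) *
      (f (av (pe w) (i + 1)) (rg q (i + 1)) * f (rg q (i + 1)) (cn q)) := by
  have T1 := hf _ _ _ (hD _ (Or.inl ⟨i, hi, Or.inl rfl⟩))
  have T2 := hf _ _ _ (hD _ (Or.inl ⟨i, hi, Or.inr (Or.inl rfl)⟩))
  have T3 := hf _ _ _ (hD _ (Or.inl ⟨i, hi, Or.inr (Or.inr rfl)⟩))
  rw [← pe_chain w i hi, ← T1, ← T2, ← T3]
  group

include hf in
theorem disk_rel {q : ℕ} {w : List (ℕ × Bool)} (hD : ∀ x ∈ Dk q (pe w), tr x ∈ X) :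
    pp f (pe w) (pe w).length = 1 := by
  have key : ∀ i ≤ (pe w).length, pp f (pe w) i *
      (f (av (pe w) i) (rg q i) * f (rg q i) (cn q)) =
      f (av (pe w) 0) (rg q 0) * f (rg q 0) (cn q) := by
    intro i
    induction i with
    | zero => intro _; rw [pp_zero, one_mul]
    | succ i ih =>
      intro hi
      rw [← ih (by omega), pp_succ, disk_step hf hD (by omega : i < (pe w).length), mul_assoc]
  have h1 := key _ le_rfl
  have T4 := hf _ _ _ (hD _ (Or.inr (Or.inl rfl)))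
  have T5 := hf _ _ _ (hD _ (Or.inr (Or.inr rfl)))
  have e1 : av (pe w) (pe w).length = 0 := by
    unfold av; rw [List.getD_eq_default _ _ le_rfl]
  rw [e1, av_pe_zero, ← T5, ← mul_assoc (f 0 _), T4] at h1
  exact mul_eq_right.1 h1

/-- holonomy of a letter -/
def hol (f : ℕ → ℕ → G) (l : ℕ) : G := f 0 (v1 l) * f (v1 l) (v2 l) * f (v2 l) 0

/-- all letters of the words are below `n` -/
def WF (n : ℕ) (wd : ℕ → List (ℕ × Bool)) : Prop := ∀ q < n, ∀ l ∈ wd q, l.1 < n

variable {n : ℕ} {wd : ℕ → List (ℕ × Bool)} (hK : KK n wd ⊆ X)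

theorem mem_KK_Dk {q : ℕ} (hq : q < n) : ∀ x ∈ Dk q (pe (wd q)), tr x ∈ KK n wd := by
  intro x hx
  exact ⟨⟨x.1, by simp [tr]⟩, tr x, Or.inr ⟨q, hq, x, hx, rfl⟩, subset_rfl⟩

theorem mem_KK_e1 {l : ℕ} (hl : l < n) : ({0, v1 l} : Finset ℕ) ∈ KK n wd :=
  ⟨by simp, _, Or.inl ⟨l, hl, Or.inl rfl⟩, subset_rfl⟩
theorem mem_KK_e2 {l : ℕ} (hl : l < n) : ({v1 l, v2 l} : Finset ℕ) ∈ KK n wd :=
  ⟨by simp, _, Or.inl ⟨l, hl, Or.inr (Or.inl rfl)⟩, subset_rfl⟩
theorem mem_KK_e3 {l : ℕ} (hl : l < n) : ({v2 l, 0} : Finset ℕ) ∈ KK n wd :=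
  ⟨by simp, _, Or.inl ⟨l, hl, Or.inr (Or.inr rfl)⟩, subset_rfl⟩

include hX hf hK in
theorem ev_hol (hwf : WF n wd) {q : ℕ} (hq : q < n) : ev (hol f) (wd q) = 1 := by
  rw [← pp_pe f (hol f) (wd q)]
  · exact disk_rel hf fun x hx => hK (mem_KK_Dk hq x hx)
  · intro l hl
    have hl' := hwf q hq l hl
    refine ⟨rfl, ?_⟩
    have e1 := coc_inv hX hf (hK (mem_KK_e1 (wd := wd) hl'))
    have e2 := coc_inv hX hf (hK (mem_KK_e2 (wd := wd) hl'))
    have e3 := coc_inv hX hf (hK (mem_KK_e3 (wd := wd) hl'))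
    rw [e1, e2, e3]
    unfold hol
    group

include hX hf in
theorem all_pairs {h : ℕ → G} {x y z : ℕ} (hxyz : ({x, y, z} : Finset ℕ) ∈ X)
    (h1 : h x * f x y = h y) (h2 : h x * f x z = h z) :
    ∀ u ∈ ({x, y, z} : Finset ℕ), ∀ v ∈ ({x, y, z} : Finset ℕ), h u * f u v = h v := by
  have hs : ∀ u ∈ ({x, y, z} : Finset ℕ), ({x, u} : Finset ℕ) ∈ X := by
    intro u hu
    refine hX.2 _ hxyz _ ?_ (by simp)
    intro v hv
    simp only [Finset.mem_insert, Finset.mem_singleton] at hu hv ⊢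
    rcases hv with rfl | rfl
    · exact Or.inl rfl
    · exact hu
  have hx : ∀ u ∈ ({x, y, z} : Finset ℕ), h x * f x u = h u := by
    intro u hu
    simp only [Finset.mem_insert, Finset.mem_singleton] at hu
    rcases hu with rfl | rfl | rfl
    · rw [coc_self hf (hX.2 _ hxyz _ (by simp) (by simp)), mul_one]
    · exact h1
    · exact h2
  intro u hu v hv
  rw [← hx u hu, ← hx v hv, mul_assoc]
  congr 1
  apply hf
  refine hX.2 _ hxyz _ ?_ (by simp)
  intro k hk
  simp only [Finset.mem_insert, Finset.mem_singleton] at hu hv hk ⊢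
  rcases hk with rfl | rfl | rfl <;> tauto

theorem unpair_Gv {x : ℕ} (h : Gv x) : (Nat.unpair x).1 ≤ 1 := by
  rcases h with rfl | ⟨l, rfl | rfl⟩
  · simp
  · unfold v1; rw [Nat.unpair_pair]
  · unfold v2; rw [Nat.unpair_pair]

theorem unpair_rg (q i : ℕ) : Nat.unpair (rg q i) = (3 + q, i + 1) := by
  unfold rg; rw [Nat.unpair_pair]

theorem unpair_cn (q : ℕ) : Nat.unpair (cn q) = (3 + q, 0) := by
  unfold cn; rw [Nat.unpair_pair]

include hX hf hK in
theorem cob_of_hol (hwf : WF n wd) (h0 : ∀ l < n, hol f l = 1) : Cob (KK n wd) f := by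
  classical
  let H : ℕ → G := fun q => f 0 (rg q 0) * f (rg q 0) (cn q)
  let h : ℕ → G := fun x => if (Nat.unpair x).1 ≤ 1 then f 0 x else
    H ((Nat.unpair x).1 - 3) * f (cn ((Nat.unpair x).1 - 3)) x
  have hg : ∀ x, Gv x → h x = f 0 x := fun x hx => if_pos (unpair_Gv hx)
  have hr : ∀ q i, h (rg q i) = H q * f (cn q) (rg q i) := by
    intro q i
    simp only [h, unpair_rg]
    rw [if_neg (by omega)]
    have : 3 + q - 3 = q := by omega
    rw [this]
  have hc : ∀ q, h (cn q) = H q * f (cn q) (cn q) := by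
    intro q
    simp only [h, unpair_cn]
    rw [if_neg (by omega)]
    have : 3 + q - 3 = q := by omega
    rw [this]
  by_cases hn : n = 0
  · refine ⟨fun _ => 1, ?_⟩
    rintro u v ⟨_, g, hg, _⟩
    rcases hg with ⟨l, hl, _⟩ | ⟨l, hl, _⟩ <;> omega
  have h00 : ({0} : Finset ℕ) ∈ X := hX.2 _ (hK (mem_KK_e1 (wd := wd) (Nat.pos_of_ne_zero hn))) _
    (by simp) (by simp)
  have hz : h 0 = 1 := by rw [hg 0 (Or.inl rfl), coc_self hf h00]
  -- graph edges
  have E1 : ∀ l < n, h 0 * f 0 (v1 l) = h (v1 l) := by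
    intro l hl
    rw [hz, one_mul, hg _ (Or.inr ⟨l, Or.inl rfl⟩)]
  have E3 : ∀ l < n, h 0 * f 0 (v2 l) = h (v2 l) := by
    intro l hl
    rw [hz, one_mul, hg _ (Or.inr ⟨l, Or.inr rfl⟩)]
  have E2 : ∀ l < n, h (v1 l) * f (v1 l) (v2 l) = h (v2 l) := by
    intro l hl
    rw [← E1 l hl, ← E3 l hl, hz, one_mul, one_mul]
    have e1 := h0 l hl
    unfold hol at e1
    have e3 := coc_inv hX hf (hK (mem_KK_e3 (wd := wd) hl))
    rw [e3]
    exact eq_inv_of_mul_eq_one_left e1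
  have inv : ∀ x y, ({x, y} : Finset ℕ) ∈ X → h x * f x y = h y → h y * f y x = h x := by
    intro x y hxy e
    rw [coc_inv hX hf hxy, ← e]; group
  have e1' : ∀ l < n, ({0, v2 l} : Finset ℕ) ∈ X := by
    intro l hl
    have := hK (mem_KK_e3 (wd := wd) hl)
    rwa [Finset.pair_comm] at this
  have Epath : ∀ q < n, ∀ i < (pe (wd q)).length,
      h (av (pe (wd q)) i) * f (av (pe (wd q)) i) (bv (pe (wd q)) i) = h (bv (pe (wd q)) i) := by
    intro q hq i hi
    obtain ⟨l, hl, h⟩ := pe_edge (wd q) i hi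
    have hln := hwf q hq l hl
    rcases h with ⟨e1, e2⟩ | ⟨e1, e2⟩ | ⟨e1, e2⟩ | ⟨e1, e2⟩ | ⟨e1, e2⟩ | ⟨e1, e2⟩ <;> rw [e1, e2]
    · exact E1 _ hln
    · exact E2 _ hln
    · exact inv _ _ (e1' _ hln) (E3 _ hln)
    · exact E3 _ hln
    · exact inv _ _ (hK (mem_KK_e2 hln)) (E2 _ hln)
    · exact inv _ _ (hK (mem_KK_e1 hln)) (E1 _ hln)
  -- the ring
  have hDX : ∀ q < n, ∀ x ∈ Dk q (pe (wd q)), tr x ∈ X := fun q hq x hx => hK (mem_KK_Dk hq x hx)
  have hcr : ∀ q < n, ∀ i ≤ (pe (wd q)).length, ({rg q i, cn q} : Finset ℕ) ∈ X := by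
    intro q hq i hi
    rcases Nat.lt_or_ge i (pe (wd q)).length with h1 | h1
    · refine hX.2 _ (hDX q hq _ (Or.inl ⟨i, h1, Or.inr (Or.inr rfl)⟩)) _ ?_ (by simp)
      intro v hv; simp [tr] at hv ⊢; tauto
    · have : i = (pe (wd q)).length := le_antisymm hi h1
      subst this
      refine hX.2 _ (hDX q hq _ (Or.inr (Or.inr rfl))) _ ?_ (by simp)
      intro v hv; simp [tr] at hv ⊢; tauto
  have Ering : ∀ q < n, ∀ i ≤ (pe (wd q)).length,
      h (av (pe (wd q)) i) * (f (av (pe (wd q)) i) (rg q i) * f (rg q i) (cn q)) = H q := by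
    intro q hq i
    induction i with
    | zero => intro _; rw [av_pe_zero, hz, one_mul]
    | succ i ih =>
      intro hi
      have hi' : i < (pe (wd q)).length := by omega
      rw [← ih hi'.le, disk_step hf (hDX q hq) hi', ← mul_assoc (h (av (pe (wd q)) i)),
        Epath q hq i hi', pe_chain _ _ hi']
  have Erg : ∀ q < n, ∀ i ≤ (pe (wd q)).length,
      h (av (pe (wd q)) i) * f (av (pe (wd q)) i) (rg q i) = h (rg q i) := by
    intro q hq i hi
    rw [hr, ← Ering q hq i hi, coc_inv hX hf (hcr q hq i hi)]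
    group
  have Ecn : ∀ q < n, ∀ i ≤ (pe (wd q)).length, h (cn q) * f (cn q) (rg q i) = h (rg q i) := by
    intro q hq i hi
    rw [hc, hr, coc_self hf (hX.2 _ (hcr q hq i hi) _ (by simp) (by simp)), mul_one]
  have eL : ∀ q, av (pe (wd q)) (pe (wd q)).length = 0 := by
    intro q; unfold av; rw [List.getD_eq_default _ _ le_rfl]
  -- every facet
  have fac : ∀ g ∈ Fc n wd, ∀ u ∈ g, ∀ v ∈ g, h u * f u v = h v := by
    rintro g (⟨l, hl, rfl | rfl | rfl⟩ | ⟨q, hq, x, hx, rfl⟩)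
    · have := all_pairs hX hf (h := h) (x := 0) (y := v1 l) (z := v1 l)
        (by simpa using hK (mem_KK_e1 (wd := wd) hl)) (E1 l hl) (E1 l hl)
      simpa using this
    · have := all_pairs hX hf (h := h) (x := v1 l) (y := v2 l) (z := v2 l)
        (by simpa using hK (mem_KK_e2 (wd := wd) hl)) (E2 l hl) (E2 l hl)
      simpa using this
    · have := all_pairs hX hf (h := h) (x := v2 l) (y := 0) (z := 0)
        (by simpa using hK (mem_KK_e3 (wd := wd) hl)) (inv _ _ (e1' l hl) (E3 l hl))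
        (inv _ _ (e1' l hl) (E3 l hl))
      simpa using this
    · have hxX := hDX q hq x hx
      rcases hx with ⟨i, hi, rfl | rfl | rfl⟩ | rfl | rfl
      · exact all_pairs hX hf hxX (Epath q hq i hi) (Erg q hq i hi.le)
      · have hset : tr (bv (pe (wd q)) i, rg q i, rg q (i + 1)) =
            ({rg q i, bv (pe (wd q)) i, rg q (i + 1)} : Finset ℕ) := by
          ext; simp [tr]; tauto
        rw [hset] at hxX ⊢
        refine all_pairs hX hf hxX ?_ ?_
        · have hx1 := hDX q hq _ (Or.inl ⟨i, hi, Or.inl rfl⟩)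
          exact all_pairs hX hf hx1 (Epath q hq i hi) (Erg q hq i hi.le) _ (by simp) _ (by simp)
        · have hx3 := hDX q hq _ (Or.inl ⟨i, hi, Or.inr (Or.inr rfl)⟩)
          have hset3 : tr (rg q i, rg q (i + 1), cn q) =
              ({cn q, rg q i, rg q (i + 1)} : Finset ℕ) := by
            ext; simp [tr]; tauto
          rw [hset3] at hx3
          exact all_pairs hX hf hx3 (Ecn q hq i hi.le) (Ecn q hq (i + 1) hi) _ (by simp) _ (by simp)
      · have hset3 : tr (rg q i, rg q (i + 1), cn q) =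
            ({cn q, rg q i, rg q (i + 1)} : Finset ℕ) := by
          ext; simp [tr]; tauto
        rw [hset3] at hxX ⊢
        exact all_pairs hX hf hxX (Ecn q hq i hi.le) (Ecn q hq (i + 1) hi)
      · refine all_pairs hX hf hxX ?_ ?_
        · have := Erg q hq _ le_rfl
          rwa [eL] at this
        · have := Erg q hq 0 (Nat.zero_le _)
          rwa [av_pe_zero] at this
      · have hset3 : tr (rg q (pe (wd q)).length, rg q 0, cn q) =
            ({cn q, rg q (pe (wd q)).length, rg q 0} : Finset ℕ) := by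
          ext; simp [tr]; tauto
        rw [hset3] at hxX ⊢
        exact all_pairs hX hf hxX (Ecn q hq _ le_rfl) (Ecn q hq 0 (Nat.zero_le _))
  refine ⟨h, ?_⟩
  rintro u v ⟨_, g, hg, huv⟩
  rw [← fac g hg u (huv (by simp)) v (huv (by simp))]
  group

end

/-- triangular exponent sums -/
def Tri (n : ℕ) (wd : ℕ → List (ℕ × Bool)) : Prop :=
  ∀ q < n, ∃ ρ : List (ℕ × Bool), (∀ l ∈ ρ, l.1 < q) ∧
    ∀ (A : Type) [CommGroup A] (t : ℕ → A), ev t (wd q) = (t q)⁻¹ * ev t ρ

theorem ev_eq_one {A : Type} [Group A] (t : ℕ → A) (w : List (ℕ × Bool))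
    (h : ∀ l ∈ w, t l.1 = 1) : ev t w = 1 := by
  induction w with
  | nil => rfl
  | cons l w ih =>
    rw [ev_cons, ih (fun l' hl' => h l' (by simp [hl'])), h l (by simp)]
    cases l.2 <;> simp

theorem h1_KK {n : ℕ} {wd : ℕ → List (ℕ × Bool)} (hwf : WF n wd) (ht : Tri n wd) (A : Type)
    [CommGroup A] (f : ℕ → ℕ → A) (hf : Coc (KK n wd) f) : Cob (KK n wd) f := by
  apply cob_of_hol (isCx_KK n wd) hf subset_rfl hwf
  intro l
  induction l using Nat.strong_induction_on with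
  | _ l ih =>
    intro hl
    obtain ⟨ρ, h1, h2⟩ := ht l hl
    have e1 := ev_hol (isCx_KK n wd) hf subset_rfl hwf hl
    rw [h2, ev_eq_one (hol f) ρ (fun l' hl' => ih l'.1 (h1 l' hl') (by have := h1 l' hl'; omega)),
      mul_one, inv_eq_one] at e1
    exact e1

end Pool.Agent.H668R2.Ctr
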