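import Mathlib
import Pool.Agent.H668R2.Ctr.Cpx2

set_option autoImplicit false
set_option linter.unusedVariables false

/-! Construction of (twisted) cocycles on presentation complexes. -/

namespace Pool.Agent.H668R2.Ctr

open Pool.Agent.Helper281.Sc (Simp IsCx)

section

variable {G : Type} [Group G] (c : ℕ → ℕ → ℕ → G) (t : ℕ → G) (wd : ℕ → List (ℕ × Bool))

/-- values on the graph -/
def gr (x y : ℕ) : G :=
  if x = 0 ∧ (Nat.unpair y).1 = 1 ∧ (Nat.unpair y).2 % 2 = 0 then t ((Nat.unpair y).2 / 2)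
  else if y = 0 ∧ (Nat.unpair x).1 = 1 ∧ (Nat.unpair x).2 % 2 = 0 then (t ((Nat.unpair x).2 / 2))⁻¹
  else 1

theorem gr_symm (x y : ℕ) : gr t y x = (gr t x y)⁻¹ := by
  unfold gr
  by_cases h1 : x = 0 ∧ (Nat.unpair y).1 = 1 ∧ (Nat.unpair y).2 % 2 = 0
  · by_cases h2 : y = 0 ∧ (Nat.unpair x).1 = 1 ∧ (Nat.unpair x).2 % 2 = 0
    · exfalso
      have := h1.2.1
      rw [h2.1] at this
      simp at this
    · rw [if_neg h2, if_pos h1, if_pos h1]
  · by_cases h2 : y = 0 ∧ (Nat.unpair x).1 = 1 ∧ (Nat.unpair x).2 % 2 = 0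
    · rw [if_pos h2, if_neg h1, if_pos h2, inv_inv]
    · rw [if_neg h2, if_neg h1, if_neg h1, if_neg h2, inv_one]

theorem gr_self (x : ℕ) : gr t x x = 1 := by
  unfold gr
  by_cases h : x = 0
  · subst h; simp
  · rw [if_neg (by tauto), if_neg (by tauto)]

theorem gr_1 (l : ℕ) : gr t 0 (v1 l) = t l := by
  unfold gr v1
  rw [Nat.unpair_pair, if_pos ⟨rfl, rfl, by simp⟩]
  simp

theorem gr_2 (l : ℕ) : gr t (v1 l) (v2 l) = 1 := by
  unfold gr
  rw [if_neg (fun h => v1_ne_zero l h.1), if_neg (fun h => v2_ne_zero l h.1)]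

theorem gr_3 (l : ℕ) : gr t (v2 l) 0 = 1 := by
  unfold gr
  rw [if_neg (fun h => v2_ne_zero l h.1), if_neg]
  rintro ⟨_, _, h⟩
  unfold v2 at h
  rw [Nat.unpair_pair] at h
  simp only at h
  omega

/-- first constant -/
def c1 (q i : ℕ) : G := c (av (pe (wd q)) i) (bv (pe (wd q)) i) (rg q i)
/-- second constant -/
def c2 (q i : ℕ) : G := c (bv (pe (wd q)) i) (rg q i) (rg q (i + 1))
/-- third constant -/
def c3 (q i : ℕ) : G := c (rg q i) (rg q (i + 1)) (cn q)
/-- fourth constant -/
def c4 (q : ℕ) : G := c 0 (rg q (pe (wd q)).length) (rg q 0)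
/-- fifth constant -/
def c5 (q : ℕ) : G := c (rg q (pe (wd q)).length) (rg q 0) (cn q)

/-- partial products of the constants -/
def kS (q i : ℕ) : G := ((List.range i).map fun j => c1 c wd q j * (c2 c wd q j)⁻¹ * c3 c q j).prod

/-- the total constant -/
def kap (q : ℕ) : G := kS c wd q (pe (wd q)).length * c5 c wd q * (c4 c wd q)⁻¹

/-- value on `(a_i, r_i)` -/
def ee (q i : ℕ) : G := (pp (gr t) (pe (wd q)) i)⁻¹ * kS c wd q i

/-- value on `(b_i, r_i)` -/
def dd (q i : ℕ) : G :=
  (gr t (av (pe (wd q)) i) (bv (pe (wd q)) i))⁻¹ * c1 c wd q i * ee c t wd q i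

/-- value on `(x, r_i)` -/
def Fx (q i x : ℕ) : G := if x = av (pe (wd q)) i then ee c t wd q i else dd c t wd q i

/-- value on `(r_i, r_j)` -/
def RR (q i j : ℕ) : G :=
  if j = i + 1 then c3 c q i else if i = j + 1 then (c3 c q j)⁻¹
  else if i = (pe (wd q)).length ∧ j = 0 ∧ i ≠ j then c5 c wd q
  else if j = (pe (wd q)).length ∧ i = 0 ∧ i ≠ j then (c5 c wd q)⁻¹ else 1

theorem RR_symm (q i j : ℕ) : RR c wd q j i = (RR c wd q i j)⁻¹ := by
  unfold RR
  by_cases h1 : j = i + 1
  · rw [if_pos h1, if_neg (by omega), if_pos h1]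
  · by_cases h2 : i = j + 1
    · rw [if_pos h2, if_neg h1, if_pos h2, inv_inv]
    · rw [if_neg h2, if_neg h1, if_neg h1, if_neg h2]
      by_cases h3 : i = (pe (wd q)).length ∧ j = 0 ∧ i ≠ j
      · rw [if_neg (by omega), if_pos ⟨h3.1, h3.2.1, h3.2.2.symm⟩, if_pos h3]
      · by_cases h4 : j = (pe (wd q)).length ∧ i = 0 ∧ i ≠ j
        · rw [if_pos ⟨h4.1, h4.2.1, h4.2.2.symm⟩, if_neg h3, if_pos h4, inv_inv]
        · rw [if_neg (fun h => h4 ⟨h.1, h.2.1, h.2.2.symm⟩),
            if_neg (fun h => h3 ⟨h.1, h.2.1, h.2.2.symm⟩), if_neg h3, if_neg h4, inv_one]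

/-- the cochain -/
def bf (x y : ℕ) : G :=
  if (Nat.unpair x).1 ≤ 1 then
    (if (Nat.unpair y).1 ≤ 1 then gr t x y
      else if (Nat.unpair y).2 = 0 then 1
      else Fx c t wd ((Nat.unpair y).1 - 3) ((Nat.unpair y).2 - 1) x)
  else if (Nat.unpair y).1 ≤ 1 then
    (if (Nat.unpair x).2 = 0 then 1
      else (Fx c t wd ((Nat.unpair x).1 - 3) ((Nat.unpair x).2 - 1) y)⁻¹)
  else if (Nat.unpair x).1 = (Nat.unpair y).1 ∧ (Nat.unpair x).2 ≠ 0 ∧ (Nat.unpair y).2 ≠ 0 then
    RR c wd ((Nat.unpair x).1 - 3) ((Nat.unpair x).2 - 1) ((Nat.unpair y).2 - 1)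
  else 1

theorem bf_symm (x y : ℕ) : bf c t wd y x = (bf c t wd x y)⁻¹ := by
  unfold bf
  by_cases h1 : (Nat.unpair x).1 ≤ 1
  · by_cases h2 : (Nat.unpair y).1 ≤ 1
    · rw [if_pos h2, if_pos h1, if_pos h1, if_pos h2, gr_symm]
    · rw [if_neg h2, if_pos h1, if_pos h1, if_neg h2]
      split_ifs <;> simp
  · by_cases h2 : (Nat.unpair y).1 ≤ 1
    · rw [if_pos h2, if_neg h1, if_neg h1, if_pos h2]
      split_ifs <;> simp
    · rw [if_neg h2, if_neg h1, if_neg h1, if_neg h2]
      by_cases h3 : (Nat.unpair x).1 = (Nat.unpair y).1 ∧ (Nat.unpair x).2 ≠ 0 ∧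
          (Nat.unpair y).2 ≠ 0
      · rw [if_pos ⟨h3.1.symm, h3.2.2, h3.2.1⟩, if_pos h3, h3.1, RR_symm]
      · rw [if_neg (fun h => h3 ⟨h.1.symm, h.2.2, h.2.1⟩), if_neg h3, inv_one]

theorem bf_self (x : ℕ) : bf c t wd x x = 1 := by
  unfold bf
  split_ifs with h1 h2
  · exact gr_self t x
  · unfold RR
    rw [if_neg (by omega), if_neg (by omega), if_neg (by omega), if_neg (by omega)]
  · rfl

theorem bf_g {x y : ℕ} (hx : Gv x) (hy : Gv y) : bf c t wd x y = gr t x y := by
  unfold bf
  rw [if_pos (unpair_Gv hx), if_pos (unpair_Gv hy)]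

theorem bf_gr {x : ℕ} (hx : Gv x) (q i : ℕ) : bf c t wd x (rg q i) = Fx c t wd q i x := by
  unfold bf
  rw [if_pos (unpair_Gv hx), unpair_rg]
  simp only
  rw [if_neg (by omega), if_neg (by omega)]
  have e1 : 3 + q - 3 = q := by omega
  rw [e1, Nat.add_sub_cancel]

theorem bf_rr (q i j : ℕ) : bf c t wd (rg q i) (rg q j) = RR c wd q i j := by
  unfold bf
  rw [unpair_rg, unpair_rg]
  simp only
  rw [if_neg (by omega), if_neg (by omega), if_pos ⟨trivial, by omega, by omega⟩]
  have e1 : 3 + q - 3 = q := by omega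
  rw [e1, Nat.add_sub_cancel, Nat.add_sub_cancel]

theorem bf_rc (q i : ℕ) : bf c t wd (rg q i) (cn q) = 1 := by
  unfold bf
  rw [unpair_rg, unpair_cn]
  simp only
  rw [if_neg (by omega), if_neg (by omega), if_neg (by simp)]

/-- the cochain has the prescribed coboundary -/
theorem build (hc : ∀ x y z g, c x y z * g = g * c x y z) (q : ℕ) (hw : wd q ≠ [])
    (ht : ev t (wd q) = kap c wd q) : ∀ x ∈ Dk q (pe (wd q)),
      bf c t wd x.1 x.2.1 * bf c t wd x.2.1 x.2.2 * bf c t wd x.2.2 x.1 = c x.1 x.2.1 x.2.2 := by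
  have hL : 0 < (pe (wd q)).length := by
    rw [pe_length]
    have := List.length_pos_of_ne_nil hw
    omega
  have eL : av (pe (wd q)) (pe (wd q)).length = 0 := by
    unfold av; rw [List.getD_eq_default _ _ le_rfl]
  have ha : ∀ i, bf c t wd (av (pe (wd q)) i) (rg q i) = ee c t wd q i := by
    intro i
    rw [bf_gr c t wd (Gv_av _ _)]
    unfold Fx
    rw [if_pos rfl]
  have hb : ∀ i < (pe (wd q)).length, bf c t wd (bv (pe (wd q)) i) (rg q i) = dd c t wd q i := by
    intro i hi
    rw [bf_gr c t wd (Gv_bv _ _ hi)]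
    unfold Fx
    rw [if_neg (pe_ne _ _ hi).symm]
  have e0 : ee c t wd q 0 = 1 := by
    unfold ee kS
    rw [pp_zero]
    simp
  rintro x (⟨i, hi, rfl | rfl | rfl⟩ | rfl | rfl)
  · simp only
    rw [bf_g c t wd (Gv_av _ _) (Gv_bv _ _ hi), hb i hi, bf_symm c t wd (av _ _) (rg q i), ha]
    unfold dd
    change _ = c1 c wd q i
    group
  · simp only
    have e1 : ee c t wd q (i + 1) = (gr t (av (pe (wd q)) i) (bv (pe (wd q)) i))⁻¹ *
        ee c t wd q i * (c1 c wd q i * (c2 c wd q i)⁻¹ * c3 c q i) := by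
      unfold ee
      rw [pp_succ]
      have : kS c wd q (i + 1) = kS c wd q i * (c1 c wd q i * (c2 c wd q i)⁻¹ * c3 c q i) := by
        simp [kS, List.range_succ]
      rw [this]
      group
    rw [hb i hi, bf_rr, bf_symm c t wd (bv _ _) (rg q (i + 1))]
    have h3 : bf c t wd (bv (pe (wd q)) i) (rg q (i + 1)) = ee c t wd q (i + 1) := by
      rw [pe_chain _ _ hi, ha]
    rw [h3, e1]
    have h4 : RR c wd q i (i + 1) = c3 c q i := by unfold RR; rw [if_pos rfl]
    rw [h4]
    unfold dd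
    change _ = c2 c wd q i
    have k1 : ∀ g, c1 c wd q i * g = g * c1 c wd q i := fun g => hc _ _ _ g
    have k2 : ∀ g, c2 c wd q i * g = g * c2 c wd q i := fun g => hc _ _ _ g
    generalize c1 c wd q i = C1 at *
    generalize c2 c wd q i = C2 at *
    generalize c3 c q i = C3
    generalize gr t (av (pe (wd q)) i) (bv (pe (wd q)) i) = g
    generalize ee c t wd q i = X
    calc g⁻¹ * C1 * X * C3 * (g⁻¹ * X * (C1 * C2⁻¹ * C3))⁻¹
        = g⁻¹ * (C1 * X) * C2 * (C1⁻¹ * X⁻¹ * g) := by group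
      _ = g⁻¹ * (X * C1) * C2 * (C1⁻¹ * X⁻¹ * g) := by rw [k1]
      _ = (g⁻¹ * X * C1) * (C2 * (C1⁻¹ * X⁻¹ * g)) := by group
      _ = (g⁻¹ * X * C1) * ((C1⁻¹ * X⁻¹ * g) * C2) := by rw [k2]
      _ = C2 := by group
  · simp only
    rw [bf_rr, bf_rc, bf_symm c t wd (rg q i) (cn q), bf_rc]
    have h4 : RR c wd q i (i + 1) = c3 c q i := by unfold RR; rw [if_pos rfl]
    rw [h4]
    simp [c3]
  · simp only
    have h1 : bf c t wd 0 (rg q (pe (wd q)).length) = ee c t wd q (pe (wd q)).length := by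
      have := ha (pe (wd q)).length
      rwa [eL] at this
    have h2 : bf c t wd 0 (rg q 0) = 1 := by
      have := ha 0
      rwa [av_pe_zero, e0] at this
    have h3 : RR c wd q (pe (wd q)).length 0 = c5 c wd q := by
      have : 2 ≤ (pe (wd q)).length := by rw [pe_length] at hL ⊢; omega
      unfold RR
      rw [if_neg (by omega), if_neg (by omega), if_pos ⟨rfl, rfl, by omega⟩]
    rw [h1, bf_rr, h3, bf_symm c t wd 0 (rg q 0), h2]
    change _ = c4 c wd q
    unfold ee
    have h5 : pp (gr t) (pe (wd q)) (pe (wd q)).length = kap c wd q := by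
      rw [← ht]
      apply pp_pe
      intro l _
      rw [gr_1, gr_2, gr_3, gr_symm t (v1 l.1) (v2 l.1), gr_2, gr_symm t 0 (v1 l.1), gr_1,
        gr_symm t (v2 l.1) 0, gr_3]
      simp
    rw [h5]
    unfold kap
    group
  · simp only
    have h3 : RR c wd q (pe (wd q)).length 0 = c5 c wd q := by
      have : 2 ≤ (pe (wd q)).length := by rw [pe_length] at hL ⊢; omega
      unfold RR
      rw [if_neg (by omega), if_neg (by omega), if_pos ⟨rfl, rfl, by omega⟩]
    rw [bf_rr, bf_rc, bf_symm c t wd (rg q (pe (wd q)).length) (cn q), bf_rc, h3]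
    simp [c5]

end

/-- non-abelian cocycles from letter values satisfying the relators -/
theorem coc_of_letters {G : Type} [Group G] (n : ℕ) (wd : ℕ → List (ℕ × Bool))
    (hne : ∀ q < n, wd q ≠ []) (t : ℕ → G) (ht : ∀ q < n, ev t (wd q) = 1) :
    ∃ f : ℕ → ℕ → G, (∀ x y, f y x = (f x y)⁻¹) ∧ (∀ x, f x x = 1) ∧ Coc (KK n wd) f ∧
      (∀ l, f 0 (v1 l) = t l) ∧ (∀ l, f (v1 l) (v2 l) = 1) ∧ (∀ l, f (v2 l) 0 = 1) := by
  let c : ℕ → ℕ → ℕ → G := fun _ _ _ => 1
  have hk : ∀ q, kap c wd q = 1 := by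
    intro q
    simp [kap, kS, c1, c2, c3, c4, c5, c]
  have hb := fun q hq => build c t wd (by simp [c]) q (hne q hq) (by rw [ht q hq, hk])
  refine ⟨bf c t wd, bf_symm c t wd, bf_self c t wd, ?_, ?_, ?_, ?_⟩
  · -- potential on each facet
    have pot : ∀ g ∈ Fc n wd, ∃ x, ∀ u ∈ g, ∀ v ∈ g,
        bf c t wd u v = (bf c t wd x u)⁻¹ * bf c t wd x v := by
      have two : ∀ a b : ℕ, ∃ x, ∀ u ∈ ({a, b} : Finset ℕ), ∀ v ∈ ({a, b} : Finset ℕ),
          bf c t wd u v = (bf c t wd x u)⁻¹ * bf c t wd x v := by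
        intro a b
        refine ⟨a, ?_⟩
        intro u hu v hv
        simp only [Finset.mem_insert, Finset.mem_singleton] at hu hv
        rcases hu with rfl | rfl <;> rcases hv with rfl | rfl
        · simp [bf_self]
        · simp [bf_self]
        · rw [bf_self, bf_symm, mul_one]
        · simp [bf_self]
      rintro g (⟨l, hl, rfl | rfl | rfl⟩ | ⟨q, hq, ⟨x, y, z⟩, hx, rfl⟩)
      · exact two _ _
      · exact two _ _
      · exact two _ _
      · have h1 := hb q hq _ hx
        simp only [c] at h1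
        refine ⟨x, ?_⟩
        have h2 : bf c t wd x y * bf c t wd y z = bf c t wd x z := by
          rw [bf_symm c t wd x z] at h1
          exact mul_inv_eq_one.1 h1
        have h3 : bf c t wd y z = (bf c t wd x y)⁻¹ * bf c t wd x z := by rw [← h2]; group
        intro u hu v hv
        simp only [tr, Finset.mem_insert, Finset.mem_singleton] at hu hv
        rcases hu with rfl | rfl | rfl <;> rcases hv with rfl | rfl | rfl
        · simp [bf_self]
        · simp [bf_self]
        · simp [bf_self]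
        · rw [bf_self, bf_symm, mul_one]
        · rw [bf_self]; group
        · exact h3
        · rw [bf_self, bf_symm, mul_one]
        · rw [bf_symm, h3]; group
        · rw [bf_self]; group
    rintro u v w ⟨_, g, hg, hs⟩
    obtain ⟨x, hx⟩ := pot g hg
    rw [hx u (hs (by simp)) v (hs (by simp)), hx v (hs (by simp)) w (hs (by simp)),
      hx u (hs (by simp)) w (hs (by simp))]
    group
  · intro l
    rw [bf_g c t wd (Or.inl rfl) (Or.inr ⟨l, Or.inl rfl⟩), gr_1]
  · intro l
    rw [bf_g c t wd (Or.inr ⟨l, Or.inl rfl⟩) (Or.inr ⟨l, Or.inr rfl⟩), gr_2]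
  · intro l
    rw [bf_g c t wd (Or.inr ⟨l, Or.inr rfl⟩) (Or.inl rfl), gr_3]

/-- the alternating extension -/
def alt {A : Type} [CommGroup A] (c : ℕ → ℕ → ℕ → A) (x y z : ℕ) : A :=
  if x < y ∧ y < z then (c x y z)⁻¹ else if y < z ∧ z < x then (c y z x)⁻¹
  else if z < x ∧ x < y then (c z x y)⁻¹ else if x < z ∧ z < y then c x z y
  else if z < y ∧ y < x then c z y x else if y < x ∧ x < z then c y x z else 1

theorem cg1 {A : Type} [CommGroup A] (a b d : A) : a = a * b⁻¹ * d⁻¹ * (d * b) := by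
  have : ∀ (B : Type) [AddCommGroup B] (a b d : B), a = a + (-b) + (-d) + (d + b) := by
    intros; abel
  exact this (Additive A) a b d

theorem cg2 {A : Type} [CommGroup A] (a b d : A) : a = d⁻¹ * a * b⁻¹ * (d * b) := by
  have : ∀ (B : Type) [AddCommGroup B] (a b d : B), a = (-d) + a + (-b) + (d + b) := by
    intros; abel
  exact this (Additive A) a b d

theorem cg3 {A : Type} [CommGroup A] (a b d : A) : a = (a⁻¹ * d * b)⁻¹ * (d * b) := by
  have : ∀ (B : Type) [AddCommGroup B] (a b d : B), a = -((-a) + d + b) + (d + b) := by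
    intros; abel
  exact this (Additive A) a b d

theorem cg4 {A : Type} [CommGroup A] (a b d : A) : a = (b * a⁻¹ * d)⁻¹ * (d * b) := by
  have : ∀ (B : Type) [AddCommGroup B] (a b d : B), a = -(b + (-a) + d) + (d + b) := by
    intros; abel
  exact this (Additive A) a b d

theorem cg5 {A : Type} [CommGroup A] (a b d : A) : a = b⁻¹ * d⁻¹ * a * (d * b) := by
  have : ∀ (B : Type) [AddCommGroup B] (a b d : B), a = (-b) + (-d) + a + (d + b) := by
    intros; abel
  exact this (Additive A) a b d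

theorem alt_spec {A : Type} [CommGroup A] (c : ℕ → ℕ → ℕ → A) (f : ℕ → ℕ → A)
    (hf : ∀ x y, f y x = (f x y)⁻¹) (x y z : ℕ) (h : f x y * f y z * f z x = alt c x y z)
    (u v w : ℕ) (huv : u < v) (hvw : v < w) (hs : ({u, v, w} : Finset ℕ) = {x, y, z}) :
    f u w = c u v w * (f u v * f v w) := by
  have hu : u = x ∨ u = y ∨ u = z := by
    have : u ∈ ({x, y, z} : Finset ℕ) := hs ▸ (by simp)
    simpa using this
  have hv : v = x ∨ v = y ∨ v = z := by
    have : v ∈ ({x, y, z} : Finset ℕ) := hs ▸ (by simp)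
    simpa using this
  have hw : w = x ∨ w = y ∨ w = z := by
    have : w ∈ ({x, y, z} : Finset ℕ) := hs ▸ (by simp)
    simpa using this
  rcases hu with rfl | rfl | rfl
  · rcases hv with rfl | rfl | rfl
    · omega
    · rcases hw with rfl | rfl | rfl
      · omega
      · omega
      · unfold alt at h
        rw [if_pos ⟨huv, hvw⟩, hf u w] at h
        rw [mul_inv_eq_iff_eq_mul] at h
        rw [h]; group
    · rcases hw with rfl | rfl | rfl
      · omega
      · unfold alt at h
        rw [if_neg (by omega), if_neg (by omega), if_neg (by omega), if_pos ⟨huv, hvw⟩,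
          hf v w, hf u v] at h
        rw [← h]
        exact cg1 _ _ _
      · omega
  · rcases hv with rfl | rfl | rfl
    · rcases hw with rfl | rfl | rfl
      · omega
      · omega
      · unfold alt at h
        rw [if_neg (by omega), if_neg (by omega), if_neg (by omega), if_neg (by omega),
          if_neg (by omega), if_pos ⟨huv, hvw⟩, hf u v, hf v w] at h
        rw [← h]
        exact cg2 _ _ _
    · omega
    · rcases hw with rfl | rfl | rfl
      · unfold alt at h
        rw [if_neg (by omega), if_pos ⟨huv, hvw⟩, hf u w] at h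
        have h2 : c u v w = ((f u w)⁻¹ * f u v * f v w)⁻¹ := by rw [h, inv_inv]
        rw [h2]
        exact cg3 _ _ _
      · omega
      · omega
  · rcases hv with rfl | rfl | rfl
    · rcases hw with rfl | rfl | rfl
      · omega
      · unfold alt at h
        rw [if_neg (by omega), if_neg (by omega), if_pos ⟨huv, hvw⟩, hf u w] at h
        have h2 : c u v w = (f v w * (f u w)⁻¹ * f u v)⁻¹ := by rw [h, inv_inv]
        rw [h2]
        exact cg4 _ _ _
      · omega
    · rcases hw with rfl | rfl | rfl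
      · unfold alt at h
        rw [if_neg (by omega), if_neg (by omega), if_neg (by omega), if_neg (by omega),
          if_pos ⟨huv, hvw⟩, hf v w, hf u v] at h
        rw [← h]
        exact cg5 _ _ _
      · omega
      · omega
    · omega

/-- letter values with prescribed values of the relators -/
theorem solve_tri {n : ℕ} {wd : ℕ → List (ℕ × Bool)} (ht : Tri n wd) {A : Type} [CommGroup A]
    (K : ℕ → A) : ∃ t : ℕ → A, ∀ q < n, ev t (wd q) = K q := by
  classical
  have key : ∀ m ≤ n, ∃ t : ℕ → A, ∀ q < m, ev t (wd q) = K q := by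
    intro m
    induction m with
    | zero => intro _; exact ⟨fun _ => 1, fun q hq => absurd hq (Nat.not_lt_zero q)⟩
    | succ m ih =>
      intro hm
      obtain ⟨t, h⟩ := ih (by omega)
      obtain ⟨ρ, r1, r2⟩ := ht m (by omega)
      have hcongr : ∀ (t' : ℕ → A) (w : List (ℕ × Bool)), (∀ l ∈ w, t' l.1 = t l.1) →
          ev t' w = ev t w := by
        intro t' w hw
        unfold ev
        congr 1
        apply List.map_congr_left
        intro l hl
        rw [hw l hl]
      refine ⟨Function.update t m ((K m)⁻¹ * ev t ρ), ?_⟩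
      intro q hq
      rcases Nat.lt_or_ge q m with h1 | h1
      · obtain ⟨ρ', s1, s2⟩ := ht q (by omega)
        rw [s2, Function.update_of_ne (by omega), hcongr _ ρ', ← h q h1, s2]
        intro l hl
        have := s1 l hl
        exact Function.update_of_ne (by omega) _ _
      · have hqm : q = m := by omega
        rw [hqm, r2, Function.update_self, hcongr (Function.update t m ((K m)⁻¹ * ev t ρ)) ρ]
        · rw [mul_inv_rev, inv_inv, mul_comm _ (K m), mul_assoc, inv_mul_cancel, mul_one]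
        · intro l hl
          have h3 := r1 l hl
          exact Function.update_of_ne (Nat.ne_of_lt h3) _ _
  exact key n le_rfl

theorem h2_KK {n : ℕ} {wd : ℕ → List (ℕ × Bool)} (hne : ∀ q < n, wd q ≠ []) (ht : Tri n wd) :
    H2 (KK n wd) := by
  intro A _ c
  obtain ⟨t, h⟩ := solve_tri ht (kap (alt c) wd)
  refine ⟨bf (alt c) t wd, ?_⟩
  intro u v w huv hvw hs
  obtain ⟨_, g, hg, hsg⟩ := hs
  have hcard : ({u, v, w} : Finset ℕ).card = 3 := by
    rw [Finset.card_insert_of_notMem (by simp; omega), Finset.card_pair (by omega)]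
  have hg3 := Finset.card_le_card hsg
  rw [hcard] at hg3
  rcases hg with ⟨l, hl, rfl | rfl | rfl⟩ | ⟨q, hq, ⟨x, y, z⟩, hx, rfl⟩
  · have := Finset.card_le_two (a := 0) (b := v1 l); omega
  · have := Finset.card_le_two (a := v1 l) (b := v2 l); omega
  · have := Finset.card_le_two (a := v2 l) (b := 0); omega
  · have heq : ({u, v, w} : Finset ℕ) = {x, y, z} := by
      apply Finset.eq_of_subset_of_card_le hsg
      rw [hcard]
      exact Finset.card_le_three
    exact alt_spec c _ (bf_symm _ _ _) x y z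
      (build (alt c) t wd (fun _ _ _ _ => mul_comm _ _) q (hne q hq) (h q hq) _ hx) u v w huv hvw heq

end Pool.Agent.H668R2.Ctr
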