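import Mathlib
import Pool.Agent.H668R2.Ctr.Circ

set_option autoImplicit false
set_option linter.unusedVariables false

/-! The topological criterion for contractibility. -/

namespace Pool.Agent.H668R2.Ctr

open Set Topology unitInterval Filter
open Pool.Agent.Helper281.Sc (Simp IsCx)
open Pool.Agent.Helper281.Sc.Car

/-- chains in the product of a simplex of `N` with an edge of the circle -/
def IsCh (N : Set (Finset ℕ)) (e : Fin 3) (A : Finset (ℕ × ℕ)) : Prop :=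
  A.Nonempty ∧ (∀ p ∈ A, ∀ q ∈ A, p ≤ q ∨ q ≤ p) ∧ A.image Prod.fst ∈ N ∧ A.image Prod.snd ⊆ edg e

/-- the part of a piece over an edge of the circle -/
def Pc (N : Set (Finset ℕ)) (ν : ℕ × ℕ → ℕ) (e : Fin 3) : Set (Finset ℕ) :=
  {s | ∃ A, IsCh N e A ∧ s = A.image ν}

/-- Hypotheses of the topological criterion. -/
structure Data (N P X : Set (Finset ℕ)) (VN : Finset ℕ) (J : Finset ℕ) (ν : ℕ → ℕ × ℕ → ℕ) :
    Prop where
  hXf : X.Finite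
  hN : IsCx N
  hP : IsCx P
  hX : IsCx X
  hNP : N ⊆ P
  hPX : P ⊆ X
  hPd : ∀ s ∈ P, s.card ≤ 3
  hVN : ∀ s ∈ N, s ⊆ VN
  h0 : ({0} : Finset ℕ) ∈ N
  hν : ∀ j ∈ J, Set.InjOn (ν j) ((VN ×ˢ ({0, 1, 2} : Finset ℕ) : Finset (ℕ × ℕ)) : Set (ℕ × ℕ))
  hν0 : ∀ j ∈ J, ∀ v ∈ VN, ν j (v, 0) = v
  hcirc : ∀ j ∈ J, ∀ e, ∀ t ⊆ edg e, t.Nonempty → t.image (fun c => ν j (0, c)) ∈ P
  hpiece : ∀ j ∈ J, ∀ e, Pc N (ν j) e ⊆ X
  hdec : ∀ s ∈ X, s ∈ P ∨ ∃ j ∈ J, ∃ e, s ∈ Pc N (ν j) e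
  hov : ∀ j ∈ J, ∀ v ∈ VN, ∀ c ∈ ({0, 1, 2} : Finset ℕ), v ≠ 0 → c ≠ 0 → ∀ s ∈ P, ν j (v, c) ∉ s
  hovj : ∀ i ∈ J, ∀ j ∈ J, i ≠ j → ∀ v ∈ VN, ∀ c ∈ ({0, 1, 2} : Finset ℕ), c ≠ 0 →
    ∀ q ∈ VN ×ˢ ({0, 1, 2} : Finset ℕ), ν i (v, c) ≠ ν j q
  hcN : Conn N
  hcX : Conn X

variable {N P X : Set (Finset ℕ)} {VN : Finset ℕ} {J : Finset ℕ} {ν : ℕ → ℕ × ℕ → ℕ}

theorem IsCh.sub (D : Data N P X VN J ν) {e : Fin 3} {A : Finset (ℕ × ℕ)} (hA : IsCh N e A) :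
    A ⊆ VN ×ˢ ({0, 1, 2} : Finset ℕ) := by
  intro p hp
  rw [Finset.mem_product]
  exact ⟨D.hVN _ hA.2.2.1 (Finset.mem_image_of_mem _ hp),
    edg_sub e (hA.2.2.2 (Finset.mem_image_of_mem _ hp))⟩

theorem Data.pr (D : Data N P X VN J ν) {j : ℕ} (hj : j ∈ J) {e : Fin 3} {y : ℕ → ℝ}
    (hy : y ∈ Rl (Pc N (ν j) e)) :
    prN VN (ν j) y ∈ Rl N ∧ prC VN (ν j) y ∈ Simp (edg e) ∧
      Phi VN (ν j) (prN VN (ν j) y) (prC VN (ν j) y) = y := by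
  obtain ⟨s, ⟨A, hA, rfl⟩, hy⟩ := hy
  obtain ⟨h1, h2, h3⟩ := Phi_pr VN (ν j) (D.hν j hj) (hA.sub D) hA.2.1 hy
  exact ⟨⟨_, hA.2.2.1, h1⟩, simp_mono hA.2.2.2 h2, h3⟩

/-- a point of a piece whose support has only `c = 0` -/
theorem Data.flat (D : Data N P X VN J ν) {j : ℕ} (hj : j ∈ J) {e : Fin 3} {y : ℕ → ℝ}
    (hy : y ∈ Rl (Pc N (ν j) e))
    (h : ∀ v ∈ VN, ∀ c ∈ ({0, 1, 2} : Finset ℕ), c ≠ 0 → ν j (v, c) ∉ supp y) :
    prC VN (ν j) y = dl 0 := by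
  obtain ⟨s, ⟨A, hA, rfl⟩, hy⟩ := hy
  have hsub := supp_subset hy
  set A' := A.filter (fun p => ν j p ∈ supp y) with hA'
  have e1 : A'.image (ν j) = supp y := by
    ext n
    constructor
    · intro hn
      obtain ⟨p, hp, rfl⟩ := Finset.mem_image.1 hn
      exact (Finset.mem_filter.1 hp).2
    · intro hn
      obtain ⟨p, hp, rfl⟩ := Finset.mem_image.1 (hsub hn)
      exact Finset.mem_image.2 ⟨p, Finset.mem_filter.2 ⟨hp, hn⟩, rfl⟩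
  have e2 : A' ⊆ VN ×ˢ ({0, 1, 2} : Finset ℕ) := (Finset.filter_subset _ _).trans (hA.sub D)
  have e3 := (Phi_pr VN (ν j) (D.hν j hj) e2 (fun p hp q hq =>
    hA.2.1 p (Finset.mem_filter.1 hp).1 q (Finset.mem_filter.1 hq).1)
    (by rw [e1]; exact mem_simp_supp hy)).2.1
  refine eq_dl (simp_mono ?_ e3)
  intro c hc
  obtain ⟨p, hp, rfl⟩ := Finset.mem_image.1 hc
  rw [Finset.mem_singleton]
  by_contra hcon
  obtain ⟨h3, h4⟩ := Finset.mem_product.1 (e2 hp)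
  exact h p.1 h3 p.2 h4 hcon (Finset.mem_filter.1 hp).2

/-- overlap of a piece with `P` -/
theorem Data.ovP (D : Data N P X VN J ν) {j : ℕ} (hj : j ∈ J) {e : Fin 3} {y : ℕ → ℝ}
    (hy : y ∈ Rl (Pc N (ν j) e)) (hyP : y ∈ Rl P) :
    prC VN (ν j) y = dl 0 ∨ prN VN (ν j) y = dl 0 := by
  obtain ⟨s, ⟨A, hA, rfl⟩, hy'⟩ := id hy
  have hsub := supp_subset hy'
  have hsP := supp_mem D.hP hyP
  by_cases h : ∀ v ∈ VN, ∀ c ∈ ({0, 1, 2} : Finset ℕ), c ≠ 0 → ν j (v, c) ∉ supp y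
  · exact Or.inl (D.flat hj hy h)
  · right
    push Not at h
    obtain ⟨v, hv, c, hc, hc0, hvc⟩ := h
    have hv0 : v = 0 := by
      by_contra hv0
      exact D.hov j hj v hv c hc hv0 hc0 _ hsP hvc
    subst hv0
    -- `(0, c) ∈ A`
    have h0A : (0, c) ∈ A := by
      obtain ⟨p, hp, hpn⟩ := Finset.mem_image.1 (hsub hvc)
      have := D.hν j hj (Finset.mem_coe.2 (hA.sub D hp))
        (Finset.mem_coe.2 (Finset.mem_product.2 ⟨hv, hc⟩)) hpn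
      exact this ▸ hp
    set A' := A.filter (fun p => ν j p ∈ supp y) with hA'
    have e1 : A'.image (ν j) = supp y := by
      ext n
      constructor
      · intro hn
        obtain ⟨p, hp, rfl⟩ := Finset.mem_image.1 hn
        exact (Finset.mem_filter.1 hp).2
      · intro hn
        obtain ⟨p, hp, rfl⟩ := Finset.mem_image.1 (hsub hn)
        exact Finset.mem_image.2 ⟨p, Finset.mem_filter.2 ⟨hp, hn⟩, rfl⟩
    have e2 : A' ⊆ VN ×ˢ ({0, 1, 2} : Finset ℕ) := (Finset.filter_subset _ _).trans (hA.sub D)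
    have e3 := (Phi_pr VN (ν j) (D.hν j hj) e2 (fun p hp q hq =>
      hA.2.1 p (Finset.mem_filter.1 hp).1 q (Finset.mem_filter.1 hq).1)
      (by rw [e1]; exact mem_simp_supp hy')).1
    refine eq_dl (simp_mono ?_ e3)
    intro u hu
    obtain ⟨p, hp, rfl⟩ := Finset.mem_image.1 hu
    rw [Finset.mem_singleton]
    obtain ⟨hpA, hpy⟩ := Finset.mem_filter.1 hp
    obtain ⟨h3, h4⟩ := Finset.mem_product.1 (e2 hp)
    by_cases hc' : p.2 = 0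
    · rcases hA.2.1 _ hpA _ h0A with h5 | h5
      · exact Nat.le_zero.1 h5.1
      · exact absurd (Nat.le_zero.1 (hc' ▸ h5.2 : c ≤ 0)) hc0
    · by_contra hcon
      exact D.hov j hj p.1 h3 p.2 h4 hcon hc' _ hsP hpy

end Pool.Agent.H668R2.Ctr
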