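import Mathlib
import Pool.Agent.H668R2.Ctr.Top

set_option autoImplicit false
set_option linter.unusedVariables false

/-! The topological criterion for contractibility. -/

namespace Pool.Agent.H668R2.Ctr

open Set Topology unitInterval Filter
open Pool.Agent.Helper281.Sc (Simp IsCx)
open Pool.Agent.Helper281.Sc.Car

variable {N P X : Set (Finset ℕ)} {VN : Finset ℕ} {J : Finset ℕ} {ν : ℕ → ℕ × ℕ → ℕ}

attribute [local irreducible] Phi gam

/-- The product map lands in the complex. -/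
theorem Data.Phi_mem_X (D : Data N P X VN J ν) {j : ℕ} (hj : j ∈ J) {x z : ℕ → ℝ} {e : Fin 3}
    (hx : x ∈ Rl N) (hz : z ∈ Simp (edg e)) : Phi VN (ν j) x z ∈ Rl X := by
  obtain ⟨s, hs, hx⟩ := hx
  obtain ⟨A, hA1, hA2, hA3, hA4, hA5⟩ := Phi_mem VN (ν j) (D.hν j hj) hx (D.hVN s hs) hz (edg_sub e)
  refine ⟨_, D.hpiece j hj e ⟨A, ⟨hA1, hA2, ?_, hA4⟩, rfl⟩, hA5⟩
  exact D.hN.2 s hs _ hA3 (Finset.image_nonempty.2 hA1)

theorem Data.Phi_zero (D : Data N P X VN J ν) {j : ℕ} (hj : j ∈ J) {x : ℕ → ℝ}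
    (hx : x ∈ Rl N) : Phi VN (ν j) x (dl 0) ∈ Rl P := by
  obtain ⟨s, hs, hx⟩ := hx
  obtain ⟨A, hA1, hA2, hA3, hA4, hA5⟩ := Phi_mem VN (ν j) (D.hν j hj) hx (D.hVN s hs)
    (dl_mem 0) (by decide)
  refine ⟨_, D.hNP (D.hN.2 s hs _ ?_ (Finset.image_nonempty.2 hA1)), hA5⟩
  intro n hn
  obtain ⟨p, hp, rfl⟩ := Finset.mem_image.1 hn
  have h1 : p.1 ∈ s := hA3 (Finset.mem_image_of_mem _ hp)
  have h2 : p.2 = 0 := Finset.mem_singleton.1 (hA4 (Finset.mem_image_of_mem _ hp))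
  have h3 : p = (p.1, 0) := Prod.ext rfl h2
  rw [h3, D.hν0 j hj _ (D.hVN s hs h1)]
  exact h1

theorem Data.Phi_base (D : Data N P X VN J ν) {j : ℕ} (hj : j ∈ J) {z : ℕ → ℝ} {e : Fin 3}
    (hz : z ∈ Simp (edg e)) : Phi VN (ν j) (dl 0) z ∈ Rl P := by
  obtain ⟨A, hA1, hA2, hA3, hA4, hA5⟩ := Phi_mem VN (ν j) (D.hν j hj) (dl_mem 0)
    (D.hVN _ D.h0) hz (edg_sub e)
  refine ⟨_, D.hcirc j hj e (A.image Prod.snd) hA4 (Finset.image_nonempty.2 hA1), ?_⟩
  rw [Finset.image_image]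
  have : A.image ((fun c => ν j (0, c)) ∘ Prod.snd) = A.image (ν j) := by
    apply Finset.image_congr
    intro p hp
    have h1 : p.1 = 0 := Finset.mem_singleton.1 (hA3 (Finset.mem_image_of_mem _ hp))
    simp only [Function.comp]
    rw [← h1]
  rw [this]
  exact hA5

/-- The loops over the points of `N`. -/
theorem Data.theta (D : Data N P X VN J ν) {Y : Type*} [TopologicalSpace Y] (h : (ℕ → ℝ) → Y)
    (hh : ContinuousOn h (Rl X)) (z0 : Y) (h0 : ∀ x ∈ Rl P, h x = z0) {j : ℕ} (hj : j ∈ J) :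
    ∃ θ : (ℕ → ℝ) → Path z0 z0, ContinuousOn θ (Rl N) ∧
      (∀ x ∈ Rl N, ∀ s : I, θ x s = h (Phi VN (ν j) x (gam s))) ∧ θ (dl 0) = Path.refl z0 := by
  classical
  have hmem : ∀ x ∈ Rl N, ∀ s ∈ Icc (0:ℝ) 1, Phi VN (ν j) x (gam s) ∈ Rl X := by
    intro x hx s hs
    obtain ⟨e, he⟩ := gam_mem hs
    exact D.Phi_mem_X hj hx he
  have hc0 : Continuous (fun p : Rl N × I => Phi VN (ν j) (p.1 : ℕ → ℝ) (gam (p.2 : ℝ))) := by
    have h1 : Continuous (fun p : Rl N × I => ((p.1 : ℕ → ℝ), gam (p.2 : ℝ))) :=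
      (continuous_subtype_val.comp continuous_fst).prodMk
        (continuous_gam.comp (continuous_subtype_val.comp continuous_snd))
    have h2 := Continuous.comp (g := fun q : (ℕ → ℝ) × (ℕ → ℝ) => Phi VN (ν j) q.1 q.2)
      (continuous_Phi VN (ν j)) h1
    simpa only [Function.comp_def] using h2
  have hc : Continuous (fun p : Rl N × I => h (Phi VN (ν j) (p.1 : ℕ → ℝ) (gam (p.2 : ℝ)))) :=
    ContinuousOn.comp_continuous (g := h) (s := Rl X) hh hc0
      (fun p => hmem (p.1 : ℕ → ℝ) p.1.2 (p.2 : ℝ) p.2.2)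
  let θ' : Rl N → Path z0 z0 := fun x =>
    { toFun := fun s => h (Phi VN (ν j) x (gam s))
      continuous_toFun := by
        have h1 : Continuous (fun s : I => ((x, s) : Rl N × I)) := by fun_prop
        exact hc.comp h1
      source' := by
        simp only [Icc.coe_zero, gam_zero]
        exact h0 _ (D.Phi_zero hj x.2)
      target' := by
        simp only [Icc.coe_one, gam_one]
        exact h0 _ (D.Phi_zero hj x.2) }
  have hθ' : Continuous θ' := Path.continuous_uncurry_iff.1 hc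
  let θ : (ℕ → ℝ) → Path z0 z0 := fun x => if hx : x ∈ Rl N then θ' ⟨x, hx⟩ else Path.refl z0
  have e1 : ∀ x (hx : x ∈ Rl N), θ x = θ' ⟨x, hx⟩ := fun x hx => dif_pos hx
  refine ⟨θ, ?_, ?_, ?_⟩
  · rw [continuousOn_iff_continuous_domRestrict]
    refine hθ'.congr fun x => ?_
    exact (e1 x.1 x.2).symm
  · intro x hx s
    rw [e1 x hx]; rfl
  · have h0N : dl 0 ∈ Rl N := ⟨{0}, D.h0, dl_mem 0⟩
    rw [e1 _ h0N]
    ext s
    change h (Phi VN (ν j) (dl 0) (gam s)) = z0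
    obtain ⟨e, he⟩ := gam_mem s.2
    exact h0 _ (D.Phi_base hj he)

/-- A map that is constant on `P` is null-homotopic. -/
theorem Data.last (D : Data N P X VN J ν) (h2N : H2 N)
    (h1N : ∀ (A : Type) [CommGroup A] (f : ℕ → ℕ → A), Coc N f → Cob N f)
    {Y : Type} [TopologicalSpace Y] (h : (ℕ → ℝ) → Y)
    (hh : ContinuousOn h (Rl X)) (z0 : Y) (h0 : ∀ x ∈ Rl P, h x = z0) :
    ∃ F : (ℕ → ℝ) × ℝ → Y, ContinuousOn F (Rl X ×ˢ Icc (0:ℝ) 1) ∧
      (∀ x ∈ Rl X, F (x, 0) = h x) ∧ (∀ x ∈ Rl X, F (x, 1) = z0) := by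
  classical
  have key : ∀ j : ℕ, ∃ Θ : (ℕ → ℝ) × ℝ → Path z0 z0, j ∈ J →
      (ContinuousOn Θ (Rl N ×ˢ Icc (0:ℝ) 1) ∧
        (∀ x ∈ Rl N, ∀ s : I, Θ (x, 0) s = h (Phi VN (ν j) x (gam s))) ∧
        (∀ x ∈ Rl N, Θ (x, 1) = Path.refl z0) ∧
        ∀ t ∈ Icc (0:ℝ) 1, Θ (dl 0, t) = Path.refl z0) := by
    intro j
    by_cases hj : j ∈ J
    · obtain ⟨θ, T1, T2, T3⟩ := D.theta h hh z0 h0 hj
      obtain ⟨p, p1, p2⟩ := exists_p N N D.hN D.hN (subset_refl _) θ T1 (Path.refl z0) (by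
          intro v hv
          obtain ⟨γ, hγ⟩ := joinedIn_of_conn D.hN D.hcN v hv
          refine ⟨⟨⟨fun s => θ (γ s), ?_⟩, ?_, ?_⟩⟩
          · exact T1.comp_continuous γ.continuous hγ
          · simp
          · simp [T3]) (by
          intro _ f hf
          exact @h1N _ (loopComm z0) f hf) 0 T3
      obtain ⟨Θ, Q1, Q2, Q3, Q4⟩ := lemA N D.hN (D.hXf.subset (D.hNP.trans D.hPX))
        (fun s hs => D.hPd s (D.hNP hs)) h2N θ T1 (Path.refl z0) p p1
      refine ⟨Θ, fun _ => ⟨Q1, ?_, Q3, ?_⟩⟩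
      · intro x hx s
        rw [Q2 x hx, T2 x hx]
      · exact Q4 0 D.h0 (p2 D.h0)
    · exact ⟨fun _ => Path.refl z0, fun hj' => absurd hj' hj⟩
  choose Θ hΘ using key
  -- evaluation
  have hev : Continuous (fun p : Path z0 z0 × I => p.1 p.2) :=
    Path.continuous_uncurry_iff.2 continuous_id
  let G : ℕ → Fin 3 → (ℕ → ℝ) × ℝ → Y := fun j e w =>
    Θ j (prN VN (ν j) w.1, w.2) (projIcc 0 1 zero_le_one (sgm e (prC VN (ν j) w.1)))
  have hG : ∀ j ∈ J, ∀ e, ContinuousOn (G j e) (Rl (Pc N (ν j) e) ×ˢ Icc (0:ℝ) 1) := by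
    intro j hj e
    refine hev.comp_continuousOn (ContinuousOn.prodMk ?_ ?_)
    · refine (hΘ j hj).1.comp ?_ ?_
      · exact (((continuous_prN VN (ν j)).comp continuous_fst).prodMk continuous_snd).continuousOn
      · intro w hw
        exact ⟨(D.pr hj hw.1).1, hw.2⟩
    · have h1 : Continuous fun w : (ℕ → ℝ) × ℝ =>
          projIcc (0:ℝ) 1 zero_le_one (sgm e (prC VN (ν j) w.1)) :=
        continuous_projIcc.comp ((continuous_sgm e).comp
          ((continuous_prC VN (ν j)).comp continuous_fst))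
      exact h1.continuousOn
  -- value when `prC = dl 0`
  have hz : ∀ j ∈ J, ∀ e, ∀ w : (ℕ → ℝ) × ℝ, w.1 ∈ Rl (Pc N (ν j) e) →
      prC VN (ν j) w.1 = dl 0 → G j e w = z0 := by
    intro j hj e w hw h1
    have h2 := (D.pr hj hw).2.1
    simp only [G]
    rw [h1] at h2 ⊢
    match e, h2 with
    | 0, h2 =>
      have : projIcc (0:ℝ) 1 zero_le_one (sgm 0 (dl 0)) = 0 := by
        apply projIcc_of_le_left
        change dl 0 1 / 3 ≤ 0
        simp [dl_apply]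
      rw [this, Path.source]
    | 1, h2 =>
      exfalso
      have := h2.2.1 0 (by decide)
      simp [dl_apply] at this
    | 2, h2 =>
      have : projIcc (0:ℝ) 1 zero_le_one (sgm 2 (dl 0)) = 1 := by
        apply projIcc_of_right_le
        change 1 ≤ 2 / 3 + dl 0 0 / 3
        norm_num [dl_apply]
      rw [this, Path.target]
  have hzN : ∀ j ∈ J, ∀ e, ∀ w : (ℕ → ℝ) × ℝ, w.2 ∈ Icc (0:ℝ) 1 →
      prN VN (ν j) w.1 = dl 0 → G j e w = z0 := by
    intro j hj e w hw h1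
    simp only [G]
    rw [h1, (hΘ j hj).2.2.2 w.2 hw]
    rfl
  -- agreement over different edges
  have hee : ∀ j ∈ J, ∀ e e', ∀ w : (ℕ → ℝ) × ℝ, w.1 ∈ Rl (Pc N (ν j) e) →
      w.1 ∈ Rl (Pc N (ν j) e') → G j e w = G j e' w := by
    intro j hj e e' w hw hw'
    by_cases hee : e = e'
    · rw [hee]
    · have h1 := (D.pr hj hw).2.1
      have h2 := (D.pr hj hw').2.1
      by_cases h3 : prC VN (ν j) w.1 = dl 0
      · rw [hz j hj e w hw h3, hz j hj e' w hw' h3]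
      · simp only [G]
        congr 2
        generalize prC VN (ν j) w.1 = z at *
        have hsup : supp z ⊆ edg e ∩ edg e' :=
          Finset.subset_inter (supp_subset h1) (supp_subset h2)
        have aux : ∀ c, edg e ∩ edg e' = {c} → z = dl c := by
          intro c hc
          exact eq_dl (mem_simp_of_supp h1 (hc ▸ hsup))
        match e, e', hee, aux with
        | 0, 0, hee, _ => exact absurd rfl hee
        | 1, 1, hee, _ => exact absurd rfl hee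
        | 2, 2, hee, _ => exact absurd rfl hee
        | 0, 1, _, aux =>
          rw [aux 1 (by decide)]
          change dl 1 1 / 3 = 1 / 3 + dl 1 2 / 3
          norm_num [dl_apply]
        | 1, 0, _, aux =>
          rw [aux 1 (by decide)]
          change 1 / 3 + dl 1 2 / 3 = dl 1 1 / 3
          norm_num [dl_apply]
        | 1, 2, _, aux =>
          rw [aux 2 (by decide)]
          change 1 / 3 + dl 2 2 / 3 = 2 / 3 + dl 2 0 / 3
          norm_num [dl_apply]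
        | 2, 1, _, aux =>
          rw [aux 2 (by decide)]
          change 2 / 3 + dl 2 0 / 3 = 1 / 3 + dl 2 2 / 3
          norm_num [dl_apply]
        | 0, 2, _, aux => exact absurd (aux 0 (by decide)) h3
        | 2, 0, _, aux => exact absurd (aux 0 (by decide)) h3
  obtain ⟨F, F1, F2⟩ := glue (ι := Option ({j // j ∈ J} × Fin 3)) (fun _ => z0)
    (fun i => match i with
      | none => Rl P ×ˢ Icc (0:ℝ) 1
      | some p => Rl (Pc N (ν p.1.1) p.2) ×ˢ Icc (0:ℝ) 1)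
    (by
      rintro (_ | p)
      · exact (isClosed_Rl (D.hXf.subset D.hPX)).prod isClosed_Icc
      · exact (isClosed_Rl (D.hXf.subset (D.hpiece _ p.1.2 _))).prod isClosed_Icc)
    (fun i => match i with
      | none => fun _ => z0
      | some p => G p.1.1 p.2)
    (by
      rintro (_ | p)
      · exact continuousOn_const
      · exact hG _ p.1.2 _)
    (by
      have hP' : ∀ (p : {j // j ∈ J} × Fin 3) (w : (ℕ → ℝ) × ℝ), w ∈ Rl P ×ˢ Icc (0:ℝ) 1 →
          w ∈ Rl (Pc N (ν p.1.1) p.2) ×ˢ Icc (0:ℝ) 1 → G p.1.1 p.2 w = z0 := by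
        intro p w hw hw'
        rcases D.ovP p.1.2 hw'.1 hw.1 with h1 | h1
        · exact hz _ p.1.2 _ w hw'.1 h1
        · exact hzN _ p.1.2 _ w hw.2 h1
      rintro (_ | p) (_ | p') w hw hw'
      · rfl
      · exact (hP' p' w hw hw').symm
      · exact hP' p w hw' hw
      · obtain ⟨⟨j, hj⟩, e⟩ := p
        obtain ⟨⟨j', hj'⟩, e'⟩ := p'
        simp only at hw hw' ⊢
        by_cases hjj : j = j'
        · subst hjj
          exact hee j hj e e' w hw.1 hw'.1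
        · have f1 : ∀ i (hi : i ∈ J) i' (hi' : i' ∈ J), i ≠ i' → ∀ e e', w.1 ∈ Rl (Pc N (ν i) e) →
              w.1 ∈ Rl (Pc N (ν i') e') → prC VN (ν i) w.1 = dl 0 := by
            intro i hi i' hi' hii e e' h1 h2
            apply D.flat hi h1
            intro v hv c hc hc0 hcon
            obtain ⟨s', ⟨A, hA, rfl⟩, h3⟩ := h2
            obtain ⟨q, hq, hqn⟩ := Finset.mem_image.1 (supp_subset h3 hcon)
            exact D.hovj i hi i' hi' hii v hv c hc hc0 q (hA.sub D hq) hqn.symm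
          rw [hz j hj e w hw.1 (f1 j hj j' hj' hjj e e' hw.1 hw'.1),
            hz j' hj' e' w hw'.1 (f1 j' hj' j hj (Ne.symm hjj) e' e hw'.1 hw.1)])
  have hcov : ∀ x ∈ Rl X, x ∈ Rl P ∨ ∃ j ∈ J, ∃ e, x ∈ Rl (Pc N (ν j) e) := by
    rintro x ⟨s, hs, hx⟩
    rcases D.hdec s hs with h1 | ⟨j, hj, e, h1⟩
    · exact Or.inl ⟨s, h1, hx⟩
    · exact Or.inr ⟨j, hj, e, s, h1, hx⟩
  refine ⟨F, F1.mono ?_, ?_, ?_⟩
  · rintro w ⟨hw, ht⟩
    rw [mem_iUnion]
    rcases hcov w.1 hw with h1 | ⟨j, hj, e, h1⟩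
    · exact ⟨none, h1, ht⟩
    · exact ⟨some (⟨j, hj⟩, e), h1, ht⟩
  · intro x hx
    rcases hcov x hx with h1 | ⟨j, hj, e, h1⟩
    · rw [F2 none (x, 0) ⟨h1, mem_Icc0⟩, h0 x h1]
    · rw [F2 (some (⟨j, hj⟩, e)) (x, 0) ⟨h1, mem_Icc0⟩]
      simp only [G]
      obtain ⟨a1, a2, a3⟩ := D.pr hj h1
      rw [(hΘ j hj).2.1 _ a1, projIcc_of_mem _ (sgm_mem e a2)]
      simp only
      rw [gam_sgm e a2, a3]
  · intro x hx
    rcases hcov x hx with h1 | ⟨j, hj, e, h1⟩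
    · rw [F2 none (x, 1) ⟨h1, mem_Icc1⟩]
    · rw [F2 (some (⟨j, hj⟩, e)) (x, 1) ⟨h1, mem_Icc1⟩]
      simp only [G]
      obtain ⟨a1, a2, a3⟩ := D.pr hj h1
      rw [(hΘ j hj).2.2.1 _ a1]
      rfl

/-- The topological criterion for contractibility. -/
theorem Data.contractible (D : Data N P X VN J ν) (h2P : H2 P) (h2N : H2 N)
    (h1N : ∀ (A : Type) [CommGroup A] (f : ℕ → ℕ → A), Coc N f → Cob N f)
    (hcoc : ∀ (G : Type) [Group G] (f : ℕ → ℕ → G), Coc X f → Cob P f) :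
    ContractibleSpace (Rl X) := by
  classical
  have hXn : dl 0 ∈ Rl X := ⟨{0}, D.hPX (D.hNP D.h0), dl_mem 0⟩
  have hXf := D.hXf
  let g : (ℕ → ℝ) → Rl X := fun x => if hx : x ∈ Rl X then ⟨x, hx⟩ else ⟨dl 0, hXn⟩
  have hgx : ∀ x (hx : x ∈ Rl X), g x = ⟨x, hx⟩ := fun x hx => dif_pos hx
  have hg : ContinuousOn g (Rl X) := by
    rw [continuousOn_iff_continuous_domRestrict]
    refine continuous_id.congr fun x => ?_
    exact (hgx x.1 x.2).symm
  let z0 : Rl X := ⟨dl 0, hXn⟩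
  have hgP : ContinuousOn g (Rl P) := hg.mono (Rl_mono D.hPX)
  obtain ⟨p, p1, p2⟩ := exists_p X P D.hX D.hP D.hPX g hg z0 (by
      intro v hv
      obtain ⟨γ, hγ⟩ := joinedIn_of_conn D.hX D.hcX v hv
      refine ⟨⟨⟨fun s => g (γ s), ?_⟩, ?_, ?_⟩⟩
      · exact hg.comp_continuous γ.continuous hγ
      · simp
      · simp [z0, hgx _ hXn]) (by
      intro _ f hf
      exact @hcoc _ (loopGroup z0) f hf) 0 (hgx _ hXn)
  obtain ⟨H, H1, H2, H3, H4⟩ := lemA P D.hP (hXf.subset D.hPX) D.hPd h2P g hgP z0 p p1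
  obtain ⟨G, G1, G2, G3⟩ := hep X P D.hX (hXf.subset D.hPX) D.hP D.hPX hXf g hg H H1 H2
  obtain ⟨F, F1, F2, F3⟩ := D.last h2N h1N (fun x => G (x, 1))
    (G1.comp (by fun_prop) (fun x hx => ⟨hx, mem_Icc1⟩)) z0
    (fun x hx => by rw [G3 x hx 1 mem_Icc1, H3 x hx])
  obtain ⟨E, E1, E2, E3, -⟩ := concat (Rl X) (isClosed_Rl hXf) G F G1 F1
    (fun x hx => (F2 x hx).symm)
  rw [contractible_iff_id_nullhomotopic]
  refine ⟨z0, ⟨⟨⟨fun p => E (p.2.1, p.1), ?_⟩, ?_, ?_⟩⟩⟩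
  · exact E1.comp_continuous ((continuous_subtype_val.comp continuous_snd).prodMk
      (continuous_subtype_val.comp continuous_fst)) (fun p => ⟨p.2.2, p.1.2⟩)
  · intro x
    change E (x.1, ((0:I):ℝ)) = x
    rw [Icc.coe_zero, E2 x.1 x.2, G2 x.1 x.2, hgx]
  · intro x
    change E (x.1, ((1:I):ℝ)) = z0
    rw [Icc.coe_one, E3 x.1 x.2, F3 x.1 x.2]

end Pool.Agent.H668R2.Ctr
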