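import Mathlib
import Pool.Agent.H668R2.Ctr.Cpx3
import Pool.Agent.H668R2.Ctr.Top2

set_option autoImplicit false
set_option linter.unusedVariables false

/-! The complex `X`. -/

namespace Pool.Agent.H668R2.Ctr

open Pool.Agent.Helper281.Sc (Simp IsCx)

/-- the vertices of the tori -/
def nu (M j : ℕ) (p : ℕ × ℕ) : ℕ :=
  if p.2 = 0 then p.1 else if p.1 = 0 then (if p.2 = 1 then v1 (M + j) else v2 (M + j))
  else Nat.pair 2 (Nat.pair j (Nat.pair p.2 p.1))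

/-- the complex -/
def XX (M J0 : ℕ) (wd : ℕ → List (ℕ × Bool)) : Set (Finset ℕ) :=
  KK (M + J0) wd ∪ {s | ∃ j < J0, ∃ e, s ∈ Pc (KK M wd) (nu M j) e}

theorem vert_KK {n : ℕ} {wd : ℕ → List (ℕ × Bool)} (hwf : WF n wd) {v : ℕ}
    (h : ({v} : Finset ℕ) ∈ KK n wd) :
    v = 0 ∨ (∃ l < n, v = v1 l ∨ v = v2 l) ∨
      ∃ q < n, (∃ i ≤ (pe (wd q)).length, v = rg q i) ∨ v = cn q := by
  obtain ⟨_, g, hg, hs⟩ := h
  have hv : v ∈ g := hs (Finset.mem_singleton_self v)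
  have hpe : ∀ q < n, ∀ i ≤ (pe (wd q)).length, ∀ x, x = av (pe (wd q)) i →
      x = 0 ∨ (∃ l < n, x = v1 l ∨ x = v2 l) := by
    intro q hq i hi x hx
    rcases Nat.lt_or_ge i (pe (wd q)).length with h1 | h1
    · obtain ⟨l, hl, h⟩ := pe_edge (wd q) i h1
      have hln := hwf q hq l hl
      rcases h with ⟨e1, e2⟩ | ⟨e1, e2⟩ | ⟨e1, e2⟩ | ⟨e1, e2⟩ | ⟨e1, e2⟩ | ⟨e1, e2⟩ <;>
        rw [e1] at hx
      · exact Or.inl hx
      · exact Or.inr ⟨_, hln, Or.inl hx⟩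
      · exact Or.inr ⟨_, hln, Or.inr hx⟩
      · exact Or.inl hx
      · exact Or.inr ⟨_, hln, Or.inr hx⟩
      · exact Or.inr ⟨_, hln, Or.inl hx⟩
    · left
      rw [hx]
      unfold av; rw [List.getD_eq_default _ _ h1]
  rcases hg with ⟨l, hl, rfl | rfl | rfl⟩ | ⟨q, hq, ⟨x, y, z⟩, hx, rfl⟩
  · simp only [Finset.mem_insert, Finset.mem_singleton] at hv
    rcases hv with rfl | rfl
    · exact Or.inl rfl
    · exact Or.inr (Or.inl ⟨l, hl, Or.inl rfl⟩)
  · simp only [Finset.mem_insert, Finset.mem_singleton] at hv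
    rcases hv with rfl | rfl
    · exact Or.inr (Or.inl ⟨l, hl, Or.inl rfl⟩)
    · exact Or.inr (Or.inl ⟨l, hl, Or.inr rfl⟩)
  · simp only [Finset.mem_insert, Finset.mem_singleton] at hv
    rcases hv with rfl | rfl
    · exact Or.inr (Or.inl ⟨l, hl, Or.inr rfl⟩)
    · exact Or.inl rfl
  · have A : ∀ i ≤ (pe (wd q)).length, v = av (pe (wd q)) i → v = 0 ∨ (∃ l < n, v = v1 l ∨ v = v2 l) ∨
      ∃ q < n, (∃ i ≤ (pe (wd q)).length, v = rg q i) ∨ v = cn q := by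
      intro i hi h
      rcases hpe q hq i hi v h with h | h
      · exact Or.inl h
      · exact Or.inr (Or.inl h)
    simp only [tr, Finset.mem_insert, Finset.mem_singleton] at hv
    rcases hx with ⟨i, hi, h | h | h⟩ | h | h
    all_goals
      rw [Prod.mk.injEq, Prod.mk.injEq] at h
      obtain ⟨rfl, rfl, rfl⟩ := h
    · rcases hv with hv | hv | hv
      · exact A i hi.le hv
      · rw [pe_chain _ _ hi] at hv
        exact A (i + 1) hi hv
      · exact Or.inr (Or.inr ⟨q, hq, Or.inl ⟨i, hi.le, hv⟩⟩)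
    · rcases hv with hv | hv | hv
      · rw [pe_chain _ _ hi] at hv
        exact A (i + 1) hi hv
      · exact Or.inr (Or.inr ⟨q, hq, Or.inl ⟨i, hi.le, hv⟩⟩)
      · exact Or.inr (Or.inr ⟨q, hq, Or.inl ⟨i + 1, hi, hv⟩⟩)
    · rcases hv with hv | hv | hv
      · exact Or.inr (Or.inr ⟨q, hq, Or.inl ⟨i, hi.le, hv⟩⟩)
      · exact Or.inr (Or.inr ⟨q, hq, Or.inl ⟨i + 1, hi, hv⟩⟩)
      · exact Or.inr (Or.inr ⟨q, hq, Or.inr hv⟩)
    · rcases hv with hv | hv | hv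
      · exact Or.inl hv
      · exact Or.inr (Or.inr ⟨q, hq, Or.inl ⟨_, le_rfl, hv⟩⟩)
      · exact Or.inr (Or.inr ⟨q, hq, Or.inl ⟨0, Nat.zero_le _, hv⟩⟩)
    · rcases hv with hv | hv | hv
      · exact Or.inr (Or.inr ⟨q, hq, Or.inl ⟨_, le_rfl, hv⟩⟩)
      · exact Or.inr (Or.inr ⟨q, hq, Or.inl ⟨0, Nat.zero_le _, hv⟩⟩)
      · exact Or.inr (Or.inr ⟨q, hq, Or.inr hv⟩)

theorem conn_KK {n : ℕ} {wd : ℕ → List (ℕ × Bool)} (hwf : WF n wd) {X : Set (Finset ℕ)}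
    (hX : IsCx X) (hK : KK n wd ⊆ X) {v : ℕ} (hv : ({v} : Finset ℕ) ∈ KK n wd) :
    Relation.ReflTransGen (fun a b => ({a, b} : Finset ℕ) ∈ X) v 0 := by
  rcases vert_KK hwf hv with rfl | ⟨l, hl, rfl | rfl⟩ | ⟨q, hq, h⟩
  · exact Relation.ReflTransGen.refl
  · refine Relation.ReflTransGen.single ?_
    rw [Finset.pair_comm]
    exact hK (mem_KK_e1 hl)
  · exact Relation.ReflTransGen.single (hK (mem_KK_e3 hl))
  · have hc : Relation.ReflTransGen (fun a b => ({a, b} : Finset ℕ) ∈ X) (cn q) 0 := by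
      have h1 : ({cn q, rg q 0} : Finset ℕ) ∈ X :=
        hX.2 _ (hK (mem_KK_Dk hq _ (Or.inr (Or.inr rfl)))) _ (by
          intro v hv; simp [tr] at hv ⊢; tauto) (by simp)
      have h2 : ({rg q 0, 0} : Finset ℕ) ∈ X :=
        hX.2 _ (hK (mem_KK_Dk hq _ (Or.inr (Or.inl rfl)))) _ (by
          intro v hv; simp [tr] at hv ⊢; tauto) (by simp)
      exact Relation.ReflTransGen.head h1 (Relation.ReflTransGen.single h2)
    rcases h with ⟨i, hi, rfl⟩ | rfl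
    · refine Relation.ReflTransGen.head ?_ hc
      rcases Nat.lt_or_ge i (pe (wd q)).length with h1 | h1
      · exact hX.2 _ (hK (mem_KK_Dk hq _ (Or.inl ⟨i, h1, Or.inr (Or.inr rfl)⟩))) _ (by
          intro v hv; simp [tr] at hv ⊢; tauto) (by simp)
      · have : i = (pe (wd q)).length := le_antisymm hi h1
        subst this
        exact hX.2 _ (hK (mem_KK_Dk hq _ (Or.inr (Or.inr rfl)))) _ (by
          intro v hv; simp [tr] at hv ⊢; tauto) (by simp)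
    · exact hc

/-- the vertices of a presentation complex -/
noncomputable def VK (n : ℕ) (wd : ℕ → List (ℕ × Bool)) : Finset ℕ :=
  (KK_finite n wd).toFinset.sup id

theorem sub_VK {n : ℕ} {wd : ℕ → List (ℕ × Bool)} {s : Finset ℕ} (hs : s ∈ KK n wd) :
    s ⊆ VK n wd := by
  have : s ≤ (KK_finite n wd).toFinset.sup id :=
    Finset.le_sup (f := id) ((KK_finite n wd).mem_toFinset.2 hs)
  exact this

theorem mem_VK {n : ℕ} {wd : ℕ → List (ℕ × Bool)} {v : ℕ} (h : v ∈ VK n wd) :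
    ({v} : Finset ℕ) ∈ KK n wd := by
  unfold VK at h
  rw [Finset.mem_sup] at h
  obtain ⟨s, hs, hv⟩ := h
  exact (isCx_KK n wd).2 _ ((KK_finite n wd).mem_toFinset.1 hs) _
    (Finset.singleton_subset_iff.2 hv) (by simp)

theorem VK_cases {n : ℕ} {wd : ℕ → List (ℕ × Bool)} (hwf : WF n wd) {v : ℕ} (h : v ∈ VK n wd) :
    v = 0 ∨ (∃ l < n, v = v1 l ∨ v = v2 l) ∨ ∃ q < n, ∃ i, v = Nat.pair (3 + q) i := by
  rcases vert_KK hwf (mem_VK h) with h | h | ⟨q, hq, ⟨i, _, h⟩ | h⟩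
  · exact Or.inl h
  · exact Or.inr (Or.inl h)
  · exact Or.inr (Or.inr ⟨q, hq, i + 1, h⟩)
  · exact Or.inr (Or.inr ⟨q, hq, 0, h⟩)

theorem VK_ne_v1 {M j : ℕ} {wd : ℕ → List (ℕ × Bool)} (hwf : WF M wd) : v1 (M + j) ∉ VK M wd := by
  intro h
  rcases VK_cases hwf h with h | ⟨l, hl, h | h⟩ | ⟨q, hq, i, h⟩
  · exact v1_ne_zero _ h
  · have := v1_inj h; omega
  · exact v1_ne_v2 _ _ h
  · unfold v1 at h
    rw [Nat.pair_eq_pair] at h
    omega

theorem VK_ne_v2 {M j : ℕ} {wd : ℕ → List (ℕ × Bool)} (hwf : WF M wd) : v2 (M + j) ∉ VK M wd := by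
  intro h
  rcases VK_cases hwf h with h | ⟨l, hl, h | h⟩ | ⟨q, hq, i, h⟩
  · exact v2_ne_zero _ h
  · exact v1_ne_v2 _ _ h.symm
  · have := v2_inj h; omega
  · unfold v2 at h
    rw [Nat.pair_eq_pair] at h
    omega

theorem VK_ne_two {n : ℕ} {wd : ℕ → List (ℕ × Bool)} (hwf : WF n wd) (x : ℕ) :
    Nat.pair 2 x ∉ VK n wd := by
  intro h
  rcases VK_cases hwf h with h | ⟨l, hl, h | h⟩ | ⟨q, hq, i, h⟩
  · have h' : Nat.pair 2 x = Nat.pair 0 0 := h
    rw [Nat.pair_eq_pair] at h'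
    omega
  · unfold v1 at h
    rw [Nat.pair_eq_pair] at h
    omega
  · unfold v2 at h
    rw [Nat.pair_eq_pair] at h
    omega
  · rw [Nat.pair_eq_pair] at h
    omega

theorem v1_ne_two (l x : ℕ) : v1 l ≠ Nat.pair 2 x := by
  intro h; unfold v1 at h; rw [Nat.pair_eq_pair] at h; omega

theorem v2_ne_two (l x : ℕ) : v2 l ≠ Nat.pair 2 x := by
  intro h; unfold v2 at h; rw [Nat.pair_eq_pair] at h; omega

theorem nu_zero (M j v : ℕ) : nu M j (v, 0) = v := by simp [nu]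
theorem nu_01 (M j : ℕ) : nu M j (0, 1) = v1 (M + j) := by simp [nu]
theorem nu_02 (M j : ℕ) : nu M j (0, 2) = v2 (M + j) := by simp [nu]
theorem nu_pos (M j v c : ℕ) (hv : v ≠ 0) (hc : c ≠ 0) :
    nu M j (v, c) = Nat.pair 2 (Nat.pair j (Nat.pair c v)) := by simp [nu, hv, hc]

theorem nu_cases (M j v c : ℕ) (hc : c ∈ ({0, 1, 2} : Finset ℕ)) :
    (c = 0 ∧ nu M j (v, c) = v) ∨ (c = 1 ∧ v = 0 ∧ nu M j (v, c) = v1 (M + j)) ∨
    (c = 2 ∧ v = 0 ∧ nu M j (v, c) = v2 (M + j)) ∨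
    (c ≠ 0 ∧ v ≠ 0 ∧ nu M j (v, c) = Nat.pair 2 (Nat.pair j (Nat.pair c v))) := by
  simp only [Finset.mem_insert, Finset.mem_singleton] at hc
  by_cases hv : v = 0
  · rcases hc with rfl | rfl | rfl
    · exact Or.inl ⟨rfl, nu_zero _ _ _⟩
    · subst hv; exact Or.inr (Or.inl ⟨rfl, rfl, nu_01 _ _⟩)
    · subst hv; exact Or.inr (Or.inr (Or.inl ⟨rfl, rfl, nu_02 _ _⟩))
  · by_cases h0 : c = 0
    · subst h0; exact Or.inl ⟨rfl, nu_zero _ _ _⟩
    · exact Or.inr (Or.inr (Or.inr ⟨h0, hv, nu_pos _ _ _ _ hv h0⟩))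

theorem nu_eq {M : ℕ} {wd : ℕ → List (ℕ × Bool)} (hwf : WF M wd) {i j u v c d : ℕ}
    (hu : u ∈ VK M wd) (hv : v ∈ VK M wd) (hc : c ∈ ({0, 1, 2} : Finset ℕ))
    (hd : d ∈ ({0, 1, 2} : Finset ℕ)) (h : nu M i (u, c) = nu M j (v, d)) :
    u = v ∧ c = d ∧ (c ≠ 0 → i = j) := by
  rcases nu_cases M i u c hc with ⟨a1, a2⟩ | ⟨a1, a2, a3⟩ | ⟨a1, a2, a3⟩ | ⟨a1, a2, a3⟩ <;>
  rcases nu_cases M j v d hd with ⟨b1, b2⟩ | ⟨b1, b2, b3⟩ | ⟨b1, b2, b3⟩ | ⟨b1, b2, b3⟩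
  · exact ⟨by rw [← a2, ← b2, h], by rw [a1, b1], fun h => absurd a1 h⟩
  · rw [a2, b3] at h; subst h; exact absurd hu (VK_ne_v1 hwf)
  · rw [a2, b3] at h; subst h; exact absurd hu (VK_ne_v2 hwf)
  · rw [a2, b3] at h; subst h; exact absurd hu (VK_ne_two hwf _)
  · rw [a3, b2] at h; subst h; exact absurd hv (VK_ne_v1 hwf)
  · rw [a3, b3] at h
    have := v1_inj h
    exact ⟨by rw [a2, b2], by rw [a1, b1], fun _ => by omega⟩
  · rw [a3, b3] at h; exact absurd h (v1_ne_v2 _ _)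
  · rw [a3, b3] at h; exact absurd h (v1_ne_two _ _)
  · rw [a3, b2] at h; subst h; exact absurd hv (VK_ne_v2 hwf)
  · rw [a3, b3] at h; exact absurd h.symm (v1_ne_v2 _ _)
  · rw [a3, b3] at h
    have := v2_inj h
    exact ⟨by rw [a2, b2], by rw [a1, b1], fun _ => by omega⟩
  · rw [a3, b3] at h; exact absurd h (v2_ne_two _ _)
  · rw [a3, b2] at h; subst h; exact absurd hv (VK_ne_two hwf _)
  · rw [a3, b3] at h; exact absurd h.symm (v1_ne_two _ _)
  · rw [a3, b3] at h; exact absurd h.symm (v2_ne_two _ _)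
  · rw [a3, b3, Nat.pair_eq_pair, Nat.pair_eq_pair, Nat.pair_eq_pair] at h
    exact ⟨h.2.2.2, h.2.2.1, fun _ => h.2.1⟩

theorem Pc_sub {N : Set (Finset ℕ)} (hN : IsCx N) {ν : ℕ × ℕ → ℕ} {e : Fin 3} {s t : Finset ℕ}
    (hs : s ∈ Pc N ν e) (ht : t ⊆ s) (hn : t.Nonempty) : t ∈ Pc N ν e := by
  classical
  obtain ⟨A, hA, rfl⟩ := hs
  have e1 : t = (A.filter fun p => ν p ∈ t).image ν := by
    ext x
    constructor
    · intro hx
      obtain ⟨p, hp, rfl⟩ := Finset.mem_image.1 (ht hx)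
      exact Finset.mem_image.2 ⟨p, Finset.mem_filter.2 ⟨hp, hx⟩, rfl⟩
    · intro hx
      obtain ⟨p, hp, rfl⟩ := Finset.mem_image.1 hx
      exact (Finset.mem_filter.1 hp).2
  have hn' : (A.filter fun p => ν p ∈ t).Nonempty := by
    obtain ⟨x, hx⟩ := hn
    rw [e1] at hx
    obtain ⟨p, hp, _⟩ := Finset.mem_image.1 hx
    exact ⟨p, hp⟩
  refine ⟨A.filter fun p => ν p ∈ t, ⟨hn', ?_, ?_, ?_⟩, e1⟩
  · intro p hp q hq
    exact hA.2.1 p (Finset.mem_filter.1 hp).1 q (Finset.mem_filter.1 hq).1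
  · exact hN.2 _ hA.2.2.1 _ (Finset.image_subset_image (Finset.filter_subset _ _)) (hn'.image _)
  · exact (Finset.image_subset_image (Finset.filter_subset _ _)).trans hA.2.2.2

theorem isCx_XX (M J0 : ℕ) (wd : ℕ → List (ℕ × Bool)) : IsCx (XX M J0 wd) := by
  constructor
  · rintro (h | ⟨j, _, e, A, hA, h⟩)
    · exact (isCx_KK _ _).1 h
    · have := hA.1.image (nu M j)
      rw [← h] at this
      simp at this
  · rintro s (hs | ⟨j, hj, e, hs⟩) t ht hn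
    · exact Or.inl ((isCx_KK _ _).2 s hs t ht hn)
    · exact Or.inr ⟨j, hj, e, Pc_sub (isCx_KK M wd) hs ht hn⟩

/-- pairs in a piece -/
theorem pair_Pc {N : Set (Finset ℕ)} {ν : ℕ × ℕ → ℕ} {u c d : ℕ} (hu : ({u} : Finset ℕ) ∈ N)
    (e : Fin 3) (hc : c ∈ edg e) (hd : d ∈ edg e) :
    ({ν (u, c), ν (u, d)} : Finset ℕ) ∈ Pc N ν e := by
  refine ⟨{(u, c), (u, d)}, ⟨by simp, ?_, ?_, ?_⟩, by simp [Finset.image_insert]⟩
  · intro p hp q hq
    simp only [Finset.mem_insert, Finset.mem_singleton] at hp hq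
    rcases hp with rfl | rfl <;> rcases hq with rfl | rfl <;>
      simp [Prod.mk_le_mk, le_total]
  · have : (({(u, c), (u, d)} : Finset (ℕ × ℕ)).image Prod.fst) = {u} := by
      simp [Finset.image_insert]
    rw [this]; exact hu
  · intro x hx
    simp only [Finset.image_insert, Finset.image_singleton, Finset.mem_insert,
      Finset.mem_singleton] at hx
    rcases hx with rfl | rfl
    · exact hc
    · exact hd

theorem exists_edg {c : ℕ} (hc : c ∈ ({0, 1, 2} : Finset ℕ)) : ∃ e, c ∈ edg e ∧ 0 ∈ edg e := by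
  simp only [Finset.mem_insert, Finset.mem_singleton] at hc
  rcases hc with rfl | rfl | rfl
  · exact ⟨0, by simp [edg], by simp [edg]⟩
  · exact ⟨0, by simp [edg], by simp [edg]⟩
  · exact ⟨2, by simp [edg], by simp [edg]⟩

theorem data {M J0 : ℕ} {wd : ℕ → List (ℕ × Bool)} (hM : 0 < M) (hwf : WF M wd)
    (hwf' : WF (M + J0) wd) :
    Data (KK M wd) (KK (M + J0) wd) (XX M J0 wd) (VK M wd) (Finset.range J0) (nu M) where
  hXf := by
    refine (KK_finite _ _).union ?_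
    have : {s | ∃ j < J0, ∃ e, s ∈ Pc (KK M wd) (nu M j) e} ⊆
        ⋃ j ∈ Finset.range J0, (fun A : Finset (ℕ × ℕ) => A.image (nu M j)) ''
          (((VK M wd ×ˢ ({0, 1, 2} : Finset ℕ)).powerset : Finset (Finset (ℕ × ℕ))) :
            Set (Finset (ℕ × ℕ))) := by
      rintro s ⟨j, hj, e, A, hA, rfl⟩
      simp only [Set.mem_iUnion]
      refine ⟨j, Finset.mem_range.2 hj, A, ?_, rfl⟩
      rw [Finset.mem_coe, Finset.mem_powerset]
      intro p hp
      rw [Finset.mem_product]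
      exact ⟨sub_VK hA.2.2.1 (Finset.mem_image_of_mem _ hp),
        edg_sub e (hA.2.2.2 (Finset.mem_image_of_mem _ hp))⟩
    exact Set.Finite.subset (Set.Finite.biUnion (Finset.finite_toSet _)
      fun j _ => (Finset.finite_toSet _).image _) this
  hN := isCx_KK _ _
  hP := isCx_KK _ _
  hX := isCx_XX M J0 wd
  hNP := KK_mono (Nat.le_add_right _ _) wd
  hPX := Set.subset_union_left
  hPd := fun s hs => card_KK hs
  hVN := fun s hs => sub_VK hs
  h0 := (isCx_KK M wd).2 _ (mem_KK_e1 hM) _ (by simp) (by simp)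
  hν := by
    rintro j hj ⟨u, c⟩ hp ⟨v, d⟩ hq h
    rw [Finset.mem_coe, Finset.mem_product] at hp hq
    obtain ⟨h1, h2, _⟩ := nu_eq hwf hp.1 hq.1 hp.2 hq.2 h
    exact Prod.ext h1 h2
  hν0 := fun j _ v _ => nu_zero M j v
  hcirc := by
    intro j hj e t ht hn
    rw [Finset.mem_range] at hj
    refine ⟨hn.image _, ?_⟩
    fin_cases e
    · refine ⟨_, Or.inl ⟨M + j, by omega, Or.inl rfl⟩, ?_⟩
      intro x hx
      obtain ⟨c, hc, rfl⟩ := Finset.mem_image.1 hx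
      have hc' : c ∈ edg 0 := ht hc
      simp only [edg, Finset.mem_insert, Finset.mem_singleton] at hc'
      rcases hc' with rfl | rfl
      · simp [nu_zero]
      · simp [nu_01]
    · refine ⟨_, Or.inl ⟨M + j, by omega, Or.inr (Or.inl rfl)⟩, ?_⟩
      intro x hx
      obtain ⟨c, hc, rfl⟩ := Finset.mem_image.1 hx
      have hc' : c ∈ edg 1 := ht hc
      simp only [edg, Finset.mem_insert, Finset.mem_singleton] at hc'
      rcases hc' with rfl | rfl
      · simp [nu_01]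
      · simp [nu_02]
    · refine ⟨_, Or.inl ⟨M + j, by omega, Or.inr (Or.inr rfl)⟩, ?_⟩
      intro x hx
      obtain ⟨c, hc, rfl⟩ := Finset.mem_image.1 hx
      have hc' : c ∈ edg 2 := ht hc
      simp only [edg, Finset.mem_insert, Finset.mem_singleton] at hc'
      rcases hc' with rfl | rfl
      · simp [nu_02]
      · simp [nu_zero]
  hpiece := by
    intro j hj e s hs
    exact Or.inr ⟨j, Finset.mem_range.1 hj, e, hs⟩
  hdec := by
    rintro s (hs | ⟨j, hj, e, hs⟩)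
    · exact Or.inl hs
    · exact Or.inr ⟨j, Finset.mem_range.2 hj, e, hs⟩
  hov := by
    intro j hj v hv c hc hv0 hc0 s hs hmem
    rw [nu_pos _ _ _ _ hv0 hc0] at hmem
    exact VK_ne_two hwf' _ (sub_VK hs hmem)
  hovj := by
    rintro i hi j hj hij v hv c hc hc0 ⟨u, d⟩ hq h
    rw [Finset.mem_product] at hq
    exact hij ((nu_eq hwf hv hq.1 hc hq.2 h).2.2 hc0)
  hcN := fun v hv => conn_KK hwf (isCx_KK M wd) subset_rfl hv
  hcX := by
    rintro v (hv | ⟨j, hj, e, A, hA, hs⟩)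
    · exact conn_KK hwf' (isCx_XX M J0 wd) Set.subset_union_left hv
    · have hvm : v ∈ A.image (nu M j) := hs ▸ Finset.mem_singleton_self v
      obtain ⟨⟨u, c⟩, hp, rfl⟩ := Finset.mem_image.1 hvm
      have hu : u ∈ VK M wd := sub_VK hA.2.2.1 (Finset.mem_image_of_mem Prod.fst hp)
      have hc : c ∈ ({0, 1, 2} : Finset ℕ) :=
        edg_sub e (hA.2.2.2 (Finset.mem_image_of_mem Prod.snd hp))
      obtain ⟨e', h1, h2⟩ := exists_edg hc
      have h3 := pair_Pc (ν := nu M j) (mem_VK hu) e' h1 h2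
      refine Relation.ReflTransGen.head (b := u) ?_ ?_
      · rw [nu_zero] at h3
        exact Or.inr ⟨j, hj, e', h3⟩
      · exact conn_KK hwf (isCx_XX M J0 wd)
          ((KK_mono (Nat.le_add_right _ _) wd).trans Set.subset_union_left) (mem_VK hu)

end Pool.Agent.H668R2.Ctr
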