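import Mathlib
import Pool.Agent.H668R2.Ctr.Cstr
import Pool.Agent.H668R2.Ctr.Cov

set_option autoImplicit false
set_option linter.unusedVariables false

/-! Cocycles on the complex `X`. -/

namespace Pool.Agent.H668R2.Ctr

open Pool.Agent.Helper281.Sc (Simp IsCx)

/-- the retraction of the vertices onto those of `N` -/
def pi' (M x : ℕ) : ℕ :=
  if (Nat.unpair x).1 = 2 then (Nat.unpair (Nat.unpair (Nat.unpair x).2).2).2
  else if (Nat.unpair x).1 = 1 ∧ 2 * M ≤ (Nat.unpair x).2 then 0 else x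

/-- extension of a cocycle from `P` to `X` -/
noncomputable def FX {G : Type} [Group G] (M : ℕ) (f : ℕ → ℕ → G) (x y : ℕ) : G :=
  if 3 + M ≤ (Nat.unpair x).1 ∨ 3 + M ≤ (Nat.unpair y).1 then f x y else f (pi' M x) (pi' M y)

theorem pi_v1 {M l : ℕ} (h : M ≤ l) : pi' M (v1 l) = 0 := by
  unfold pi' v1
  rw [Nat.unpair_pair]
  simp only
  rw [if_neg (by omega), if_pos ⟨trivial, by omega⟩]

theorem pi_v2 {M l : ℕ} (h : M ≤ l) : pi' M (v2 l) = 0 := by
  unfold pi' v2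
  rw [Nat.unpair_pair]
  simp only
  rw [if_neg (by omega), if_pos ⟨trivial, by omega⟩]

theorem pi_zero (M : ℕ) : pi' M 0 = 0 := by
  unfold pi'
  simp

theorem pi_VK {M : ℕ} {wd : ℕ → List (ℕ × Bool)} (hwf : WF M wd) {v : ℕ} (h : v ∈ VK M wd) :
    pi' M v = v ∧ (Nat.unpair v).1 < 3 + M := by
  rcases VK_cases hwf h with rfl | ⟨l, hl, rfl | rfl⟩ | ⟨q, hq, i, rfl⟩
  · exact ⟨pi_zero M, by simp⟩
  · unfold pi' v1
    rw [Nat.unpair_pair]
    simp only
    rw [if_neg (by omega), if_neg (by omega)]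
    exact ⟨rfl, by omega⟩
  · unfold pi' v2
    rw [Nat.unpair_pair]
    simp only
    rw [if_neg (by omega), if_neg (by omega)]
    exact ⟨rfl, by omega⟩
  · unfold pi'
    rw [Nat.unpair_pair]
    simp only
    rw [if_neg (by omega), if_neg (by omega)]
    exact ⟨rfl, by omega⟩

theorem pi_nu {M : ℕ} {wd : ℕ → List (ℕ × Bool)} (hwf : WF M wd) {j v c : ℕ} (h : v ∈ VK M wd)
    (hc : c ∈ ({0, 1, 2} : Finset ℕ)) :
    pi' M (nu M j (v, c)) = v ∧ (Nat.unpair (nu M j (v, c))).1 < 3 + M := by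
  rcases nu_cases M j v c hc with ⟨a1, a2⟩ | ⟨a1, a2, a3⟩ | ⟨a1, a2, a3⟩ | ⟨a1, a2, a3⟩
  · rw [a2]; exact pi_VK hwf h
  · rw [a3, pi_v1 (by omega), a2]
    refine ⟨rfl, ?_⟩
    unfold v1
    rw [Nat.unpair_pair]
    simp only
    omega
  · rw [a3, pi_v2 (by omega), a2]
    refine ⟨rfl, ?_⟩
    unfold v2
    rw [Nat.unpair_pair]
    simp only
    omega
  · rw [a3]
    unfold pi'
    rw [Nat.unpair_pair, Nat.unpair_pair, Nat.unpair_pair]
    simp only
    exact ⟨if_pos trivial, by omega⟩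

theorem pe_edge' (w : List (ℕ × Bool)) (i : ℕ) (hi : i < (pe w).length) :
    ∃ l : ℕ, (av (pe w) i = 0 ∨ av (pe w) i = v1 l ∨ av (pe w) i = v2 l) ∧
      (bv (pe w) i = 0 ∨ bv (pe w) i = v1 l ∨ bv (pe w) i = v2 l) := by
  obtain ⟨l, _, h⟩ := pe_edge w i hi
  refine ⟨l.1, ?_⟩
  rcases h with ⟨e1, e2⟩ | ⟨e1, e2⟩ | ⟨e1, e2⟩ | ⟨e1, e2⟩ | ⟨e1, e2⟩ | ⟨e1, e2⟩
  · exact ⟨Or.inl e1, Or.inr (Or.inl e2)⟩
  · exact ⟨Or.inr (Or.inl e1), Or.inr (Or.inr e2)⟩
  · exact ⟨Or.inr (Or.inr e1), Or.inl e2⟩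
  · exact ⟨Or.inl e1, Or.inr (Or.inr e2)⟩
  · exact ⟨Or.inr (Or.inr e1), Or.inr (Or.inl e2)⟩
  · exact ⟨Or.inr (Or.inl e1), Or.inl e2⟩

section

variable {G : Type} [Group G] {M J0 : ℕ} {wd : ℕ → List (ℕ × Bool)} {t : ℕ → G} {f : ℕ → ℕ → G}

theorem FX_small {x y : ℕ} (hx : (Nat.unpair x).1 < 3 + M) (hy : (Nat.unpair y).1 < 3 + M) :
    FX M f x y = f (pi' M x) (pi' M y) := by
  unfold FX
  rw [if_neg (by omega)]

theorem FX_letter (hwf : WF M wd) (hsy : ∀ x y, f y x = (f x y)⁻¹) (hd : ∀ x, f x x = 1)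
    (h1 : ∀ l, f 0 (v1 l) = t l) (h2 : ∀ l, f (v1 l) (v2 l) = 1) (h3 : ∀ l, f (v2 l) 0 = 1)
    (ht : ∀ l, M ≤ l → t l = 1) (l : ℕ) {x y : ℕ} (hx : x = 0 ∨ x = v1 l ∨ x = v2 l)
    (hy : y = 0 ∨ y = v1 l ∨ y = v2 l) : FX M f x y = f x y := by
  have hs : ∀ x, (x = 0 ∨ x = v1 l ∨ x = v2 l) → (Nat.unpair x).1 < 3 + M := by
    rintro x (rfl | rfl | rfl)
    · simp
    · unfold v1; rw [Nat.unpair_pair]; simp only; omega
    · unfold v2; rw [Nat.unpair_pair]; simp only; omega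
  rw [FX_small (hs x hx) (hs y hy)]
  rcases Nat.lt_or_ge l M with hl | hl
  · have hp : ∀ x, (x = 0 ∨ x = v1 l ∨ x = v2 l) → pi' M x = x := by
      rintro x (rfl | rfl | rfl)
      · exact pi_zero M
      · exact (pi_VK hwf (sub_VK (mem_KK_e1 hl) (by simp))).1
      · exact (pi_VK hwf (sub_VK (mem_KK_e2 hl) (by simp))).1
    rw [hp x hx, hp y hy]
  · have hp : ∀ x, (x = 0 ∨ x = v1 l ∨ x = v2 l) → pi' M x = 0 := by
      rintro x (rfl | rfl | rfl)
      · exact pi_zero M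
      · exact pi_v1 hl
      · exact pi_v2 hl
    rw [hp x hx, hp y hy, hd]
    have e1 : f 0 (v1 l) = 1 := by rw [h1, ht l hl]
    have e1' : f (v1 l) 0 = 1 := by rw [hsy, e1, inv_one]
    have e2' : f (v2 l) (v1 l) = 1 := by rw [hsy, h2, inv_one]
    have e3' : f 0 (v2 l) = 1 := by rw [hsy, h3, inv_one]
    rcases hx with rfl | rfl | rfl <;> rcases hy with rfl | rfl | rfl <;>
      simp only [hd, e1, e1', e2', e3', h2, h3]

theorem FX_P (hwf : WF M wd) (hwf' : WF (M + J0) wd) (hsy : ∀ x y, f y x = (f x y)⁻¹)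
    (hd : ∀ x, f x x = 1)
    (h1 : ∀ l, f 0 (v1 l) = t l) (h2 : ∀ l, f (v1 l) (v2 l) = 1) (h3 : ∀ l, f (v2 l) 0 = 1)
    (ht : ∀ l, M ≤ l → t l = 1) {s : Finset ℕ} (hs : s ∈ KK (M + J0) wd) {x y : ℕ} (hx : x ∈ s)
    (hy : y ∈ s) : FX M f x y = f x y := by
  obtain ⟨_, g, hg, hsg⟩ := hs
  replace hx := hsg hx
  replace hy := hsg hy
  have LL := fun l {x y : ℕ} => FX_letter (x := x) (y := y) hwf hsy hd h1 h2 h3 ht l
  rcases hg with ⟨l, hl, rfl | rfl | rfl⟩ | ⟨q, hq, ⟨a, b, c⟩, hx', rfl⟩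
  · simp only [Finset.mem_insert, Finset.mem_singleton] at hx hy
    exact LL l (by tauto) (by tauto)
  · simp only [Finset.mem_insert, Finset.mem_singleton] at hx hy
    exact LL l (by tauto) (by tauto)
  · simp only [Finset.mem_insert, Finset.mem_singleton] at hx hy
    exact LL l (by tauto) (by tauto)
  · rcases Nat.lt_or_ge q M with hqM | hqM
    · have hm := mem_KK_Dk hqM _ hx'
      obtain ⟨a1, a2⟩ := pi_VK hwf (sub_VK hm hx)
      obtain ⟨b1, b2⟩ := pi_VK hwf (sub_VK hm hy)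
      rw [FX_small a2 b2, a1, b1]
    · have hr : ∀ i, 3 + M ≤ (Nat.unpair (rg q i)).1 := by
        intro i; rw [unpair_rg]; simp only; omega
      have hc : 3 + M ≤ (Nat.unpair (cn q)).1 := by
        rw [unpair_cn]; simp only; omega
      have hD : ∀ x y, (3 + M ≤ (Nat.unpair x).1 ∨ 3 + M ≤ (Nat.unpair y).1) →
          FX M f x y = f x y := by
        intro x y h
        unfold FX
        rw [if_pos h]
      simp only [tr, Finset.mem_insert, Finset.mem_singleton] at hx hy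
      rcases hx' with ⟨i, hi, h | h | h⟩ | h | h
      all_goals
        rw [Prod.mk.injEq, Prod.mk.injEq] at h
        obtain ⟨rfl, rfl, rfl⟩ := h
      · by_cases hcx : x = rg q i
        · exact hD _ _ (Or.inl (hcx ▸ hr i))
        by_cases hcy : y = rg q i
        · exact hD _ _ (Or.inr (hcy ▸ hr i))
        obtain ⟨l, k1, k2⟩ := pe_edge' (wd q) i hi
        refine LL l ?_ ?_
        · rcases hx with rfl | rfl | hx
          · exact k1
          · exact k2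
          · exact absurd hx hcx
        · rcases hy with rfl | rfl | hy
          · exact k1
          · exact k2
          · exact absurd hy hcy
      · rcases hx with rfl | rfl | rfl
        · rcases hy with rfl | rfl | rfl
          · obtain ⟨l, k1, k2⟩ := pe_edge' (wd q) i hi
            exact LL l k2 k2
          · exact hD _ _ (Or.inr (hr _))
          · exact hD _ _ (Or.inr (hr _))
        · exact hD _ _ (Or.inl (hr _))
        · exact hD _ _ (Or.inl (hr _))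
      · rcases hx with rfl | rfl | rfl
        · exact hD _ _ (Or.inl (hr _))
        · exact hD _ _ (Or.inl (hr _))
        · exact hD _ _ (Or.inl hc)
      · rcases hx with rfl | rfl | rfl
        · rcases hy with rfl | rfl | rfl
          · exact LL 0 (Or.inl rfl) (Or.inl rfl)
          · exact hD _ _ (Or.inr (hr _))
          · exact hD _ _ (Or.inr (hr _))
        · exact hD _ _ (Or.inl (hr _))
        · exact hD _ _ (Or.inl (hr _))
      · rcases hx with rfl | rfl | rfl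
        · exact hD _ _ (Or.inl (hr _))
        · exact hD _ _ (Or.inl (hr _))
        · exact hD _ _ (Or.inl hc)

theorem coc_FX (hwf : WF M wd) (hwf' : WF (M + J0) wd) (hsy : ∀ x y, f y x = (f x y)⁻¹)
    (hd : ∀ x, f x x = 1) (hf : Coc (KK (M + J0) wd) f)
    (h1 : ∀ l, f 0 (v1 l) = t l) (h2 : ∀ l, f (v1 l) (v2 l) = 1) (h3 : ∀ l, f (v2 l) 0 = 1)
    (ht : ∀ l, M ≤ l → t l = 1) : Coc (XX M J0 wd) (FX M f) := by
  rintro u v w (h | ⟨j, hj, e, A, hA, hs⟩)
  · have H := fun {x y : ℕ} (hx : x ∈ ({u, v, w} : Finset ℕ)) (hy : y ∈ ({u, v, w} : Finset ℕ)) =>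
      FX_P hwf hwf' hsy hd h1 h2 h3 ht h hx hy
    rw [H (by simp) (by simp), H (by simp) (by simp), H (by simp) (by simp)]
    exact hf u v w h
  · have key : ∀ x ∈ ({u, v, w} : Finset ℕ), ∃ x' ∈ A.image Prod.fst, pi' M x = x' ∧
        (Nat.unpair x).1 < 3 + M := by
      intro x hx
      rw [hs] at hx
      obtain ⟨⟨x', c⟩, hp, rfl⟩ := Finset.mem_image.1 hx
      have hm : x' ∈ A.image Prod.fst := Finset.mem_image_of_mem Prod.fst hp
      have hc : c ∈ ({0, 1, 2} : Finset ℕ) :=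
        edg_sub e (hA.2.2.2 (Finset.mem_image_of_mem Prod.snd hp))
      exact ⟨x', hm, pi_nu hwf (sub_VK hA.2.2.1 hm) hc⟩
    obtain ⟨u', hu, u1, u2⟩ := key u (by simp)
    obtain ⟨v', hv, v1', v2'⟩ := key v (by simp)
    obtain ⟨w', hw, w1, w2⟩ := key w (by simp)
    rw [FX_small u2 v2', FX_small v2' w2, FX_small u2 w2, u1, v1', w1]
    apply hf
    apply KK_mono (Nat.le_add_right M J0) wd
    refine (isCx_KK M wd).2 _ hA.2.2.1 _ ?_ (by simp)
    intro x hx
    simp only [Finset.mem_insert, Finset.mem_singleton] at hx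
    rcases hx with rfl | rfl | rfl
    · exact hu
    · exact hv
    · exact hw

/-- If `X` is contractible, all letter values vanish. -/
theorem letters_trivial (hM : 0 < M) (hwf : WF M wd) (hwf' : WF (M + J0) wd)
    (hne : ∀ q < M + J0, wd q ≠ [])
    (ht1 : ∀ q < M + J0, ev t (wd q) = 1) (ht : ∀ l, M ≤ l → t l = 1)
    [ContractibleSpace (Rl (XX M J0 wd))] : t 0 = 1 := by
  obtain ⟨f, hsy, hd, hf, h1, h2, h3⟩ := coc_of_letters (M + J0) wd hne t ht1
  obtain ⟨h, hh⟩ := cob_of_contractible _ (isCx_XX M J0 wd) _ (coc_FX hwf hwf' hsy hd hf h1 h2 h3 ht)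
  have e1 := hh 0 (v1 0) (Or.inl (mem_KK_e1 (by omega)))
  have e2 := hh (v1 0) (v2 0) (Or.inl (mem_KK_e2 (by omega)))
  have e3 := hh (v2 0) 0 (Or.inl (mem_KK_e3 (by omega)))
  rw [FX_letter hwf hsy hd h1 h2 h3 ht 0 (by tauto) (by tauto), h1] at e1
  rw [FX_letter hwf hsy hd h1 h2 h3 ht 0 (by tauto) (by tauto), h2] at e2
  rw [FX_letter hwf hsy hd h1 h2 h3 ht 0 (by tauto) (by tauto), h3] at e3
  have e4 : h (v1 0) = h (v2 0) := by
    have := e2
    rw [eq_comm, inv_mul_eq_one] at this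
    exact this
  have e5 : h (v2 0) = h 0 := by
    rw [eq_comm, inv_mul_eq_one] at e3
    exact e3
  rw [e1, e4, e5, inv_mul_cancel]

end

end Pool.Agent.H668R2.Ctr
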