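import Mathlib
import Pool.Agent.H668R2.Ctr.Dir1

set_option autoImplicit false
set_option linter.unusedVariables false

/-! The tori give commutation relations. -/

namespace Pool.Agent.H668R2.Ctr

open Pool.Agent.Helper281.Sc (Simp IsCx)

section

variable {G : Type} [Group G] {M J0 : ℕ} {wd : ℕ → List (ℕ × Bool)} {f : ℕ → ℕ → G}

/-- chains with three elements in a square -/
theorem tri_Pc {N : Set (Finset ℕ)} {ν : ℕ × ℕ → ℕ} {p q r : ℕ × ℕ} {u v : ℕ}
    (huv : ({u, v} : Finset ℕ) ∈ N) (e : Fin 3)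
    (hpq : p ≤ q) (hqr : q ≤ r)
    (h1 : ({p.1, q.1, r.1} : Finset ℕ) = {u, v}) (h2 : ({p.2, q.2, r.2} : Finset ℕ) ⊆ edg e) :
    ({ν p, ν q, ν r} : Finset ℕ) ∈ Pc N ν e := by
  refine ⟨{p, q, r}, ⟨by simp, ?_, ?_, ?_⟩, by simp [Finset.image_insert]⟩
  · intro x hx y hy
    simp only [Finset.mem_insert, Finset.mem_singleton] at hx hy
    rcases hx with rfl | rfl | rfl <;> rcases hy with rfl | rfl | rfl
    · exact Or.inl le_rfl
    · exact Or.inl hpq
    · exact Or.inl (hpq.trans hqr)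
    · exact Or.inr hpq
    · exact Or.inl le_rfl
    · exact Or.inl hqr
    · exact Or.inr (hpq.trans hqr)
    · exact Or.inr hqr
    · exact Or.inl le_rfl
  · have : (({p, q, r} : Finset (ℕ × ℕ)).image Prod.fst) = {u, v} := by
      rw [← h1]; simp [Finset.image_insert]
    rw [this]; exact huv
  · have : (({p, q, r} : Finset (ℕ × ℕ)).image Prod.snd) = {p.2, q.2, r.2} := by
      simp [Finset.image_insert]
    rw [this]; exact h2

/-- the loop over a vertex -/
def tau (f : ℕ → ℕ → G) (M j v : ℕ) : G :=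
  f v (nu M j (v, 1)) * f (nu M j (v, 1)) (nu M j (v, 2)) * f (nu M j (v, 2)) v

theorem sq_rel (hf : Coc (XX M J0 wd) f) {j : ℕ} (hj : j < J0) {u v : ℕ} (huv : u ≤ v)
    (hN : ({u, v} : Finset ℕ) ∈ KK M wd) {c d : ℕ} (hcd : c ≤ d) (e : Fin 3)
    (hc : c ∈ edg e) (hd : d ∈ edg e) :
    f (nu M j (u, c)) (nu M j (v, c)) * f (nu M j (v, c)) (nu M j (v, d)) =
      f (nu M j (u, c)) (nu M j (u, d)) * f (nu M j (u, d)) (nu M j (v, d)) := by
  have hs : ∀ a b : ℕ, a ∈ edg e → b ∈ edg e → ∀ x, x = a ∨ x = b → x ∈ edg e := by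
    rintro a b ha hb x (rfl | rfl)
    · exact ha
    · exact hb
  rw [hf _ _ _ (Or.inr ⟨j, hj, e, tri_Pc (ν := nu M j) hN e (p := (u, c)) (q := (v, c))
      (r := (v, d)) ⟨huv, le_rfl⟩ ⟨le_rfl, hcd⟩ (by ext; simp) (by
        intro x hx
        simp only [Finset.mem_insert, Finset.mem_singleton] at hx
        exact hs c d hc hd x (by tauto))⟩),
    hf _ _ _ (Or.inr ⟨j, hj, e, tri_Pc (ν := nu M j) hN e (p := (u, c)) (q := (u, d))
      (r := (v, d)) ⟨le_rfl, hcd⟩ ⟨huv, le_rfl⟩ (by ext; simp) (by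
        intro x hx
        simp only [Finset.mem_insert, Finset.mem_singleton] at hx
        exact hs c d hc hd x (by tauto))⟩)]

theorem tau_le (hf : Coc (XX M J0 wd) f) {j : ℕ} (hj : j < J0) {u v : ℕ} (huv : u ≤ v)
    (hN : ({u, v} : Finset ℕ) ∈ KK M wd) : f u v * tau f M j v = tau f M j u * f u v := by
  have r1 := sq_rel hf hj huv hN (c := 0) (d := 1) (by omega) 0 (by simp [edg]) (by simp [edg])
  have r2 := sq_rel hf hj huv hN (c := 1) (d := 2) (by omega) 1 (by simp [edg]) (by simp [edg])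
  have r3 := sq_rel hf hj huv hN (c := 0) (d := 2) (by omega) 2 (by simp [edg]) (by simp [edg])
  rw [nu_zero, nu_zero] at r1 r3
  have hX := isCx_XX M J0 wd
  have hu : ({u} : Finset ℕ) ∈ KK M wd := (isCx_KK M wd).2 _ hN _ (by simp) (by simp)
  have hv : ({v} : Finset ℕ) ∈ KK M wd := (isCx_KK M wd).2 _ hN _ (by simp) (by simp)
  have i1 : f (nu M j (u, 2)) u = (f u (nu M j (u, 2)))⁻¹ := by
    apply coc_inv hX hf
    have := pair_Pc (ν := nu M j) hu 2 (c := 0) (d := 2) (by simp [edg]) (by simp [edg])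
    rw [nu_zero] at this
    exact Or.inr ⟨j, hj, 2, this⟩
  have i2 : f (nu M j (v, 2)) v = (f v (nu M j (v, 2)))⁻¹ := by
    apply coc_inv hX hf
    have := pair_Pc (ν := nu M j) hv 2 (c := 0) (d := 2) (by simp [edg]) (by simp [edg])
    rw [nu_zero] at this
    exact Or.inr ⟨j, hj, 2, this⟩
  unfold tau
  rw [i1, i2]
  generalize f u v = a at *
  generalize f u (nu M j (u, 1)) = b1 at *
  generalize f u (nu M j (u, 2)) = b2 at *
  generalize f v (nu M j (v, 1)) = c1 at *
  generalize f v (nu M j (v, 2)) = c2 at *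
  generalize f (nu M j (u, 1)) (nu M j (u, 2)) = b3 at *
  generalize f (nu M j (v, 1)) (nu M j (v, 2)) = c3 at *
  generalize f (nu M j (u, 1)) (nu M j (v, 1)) = h1 at *
  generalize f (nu M j (u, 2)) (nu M j (v, 2)) = h2 at *
  -- r1 : a * c1 = b1 * h1, r2 : h1 * c3 = b3 * h2, r3 : a * c2 = b2 * h2
  have e1 : c1 = a⁻¹ * b1 * h1 := by rw [mul_assoc, ← r1]; group
  have e2 : c3 = h1⁻¹ * b3 * h2 := by rw [mul_assoc, ← r2]; group
  have e3 : c2 = a⁻¹ * b2 * h2 := by rw [mul_assoc, ← r3]; group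
  rw [e1, e2, e3]
  group

theorem tau_edge (hf : Coc (XX M J0 wd) f) {j : ℕ} (hj : j < J0) {u v : ℕ}
    (hN : ({u, v} : Finset ℕ) ∈ KK M wd) : f u v * tau f M j v = tau f M j u * f u v := by
  rcases le_total u v with h | h
  · exact tau_le hf hj h hN
  · have hN' : ({v, u} : Finset ℕ) ∈ KK M wd := by rw [Finset.pair_comm]; exact hN
    have h1 := tau_le hf hj h hN'
    have hX := isCx_XX M J0 wd
    have h2 : f u v = (f v u)⁻¹ := coc_inv hX hf
      ((KK_mono (Nat.le_add_right M J0) wd).trans Set.subset_union_left hN')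
    rw [h2]
    generalize f v u = a at *
    have e : tau f M j u = a⁻¹ * tau f M j v * a := by rw [mul_assoc, ← h1]; group
    rw [e]; group

theorem hol_comm (hf : Coc (XX M J0 wd) f) {j : ℕ} (hj : j < J0) {l : ℕ} (hl : l < M) :
    hol f l * hol f (M + j) = hol f (M + j) * hol f l := by
  have e : tau f M j 0 = hol f (M + j) := by
    unfold tau hol
    rw [nu_01, nu_02]
  have r1 := tau_edge hf hj (mem_KK_e1 (wd := wd) hl)
  have r2 := tau_edge hf hj (mem_KK_e2 (wd := wd) hl)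
  have r3 := tau_edge hf hj (mem_KK_e3 (wd := wd) hl)
  rw [← e]
  unfold hol
  generalize f 0 (v1 l) = a at *
  generalize f (v1 l) (v2 l) = b at *
  generalize f (v2 l) 0 = c at *
  generalize tau f M j 0 = x at *
  generalize tau f M j (v1 l) = y at *
  generalize tau f M j (v2 l) = z at *
  -- r1 : a * y = x * a; r2 : b * z = y * b; r3 : c * x = z * c
  calc a * b * c * x = a * b * (c * x) := by group
    _ = a * (b * z) * c := by rw [r3]; group
    _ = (a * y) * b * c := by rw [r2]; group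
    _ = x * (a * b * c) := by rw [r1]; group

end

end Pool.Agent.H668R2.Ctr
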