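import Mathlib

set_option autoImplicit false
set_option linter.unusedVariables false

/-! Adjoining the missing letters of Higman's group to a group with a free pair. -/

namespace Pool.Agent.H668R2.Ctr

open Monoid Function

/-- `x` and `y` generate a free group of rank two, freely. -/
def Fr {G : Type} [Group G] (x y : G) : Prop :=
  Injective (FreeGroup.lift (fun i : Bool => cond i y x) : FreeGroup Bool → G)

/-- `x ↦ x + 1` -/
def TT : Equiv.Perm ℚ := Equiv.addRight (1 : ℚ)

/-- `x ↦ x / 2` -/
def AA : Equiv.Perm ℚ where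
  toFun x := x / 2
  invFun x := x * 2
  left_inv x := by simp
  right_inv x := by simp

theorem TT_apply (x : ℚ) : TT x = x + 1 := rfl
theorem AA_apply (x : ℚ) : AA x = x / 2 := rfl

theorem TT_inv_apply (x : ℚ) : TT⁻¹ x = x - 1 := by
  rw [Equiv.Perm.inv_eq_iff_eq, TT_apply]; ring
theorem AA_inv_apply (x : ℚ) : AA⁻¹ x = x * 2 := by
  rw [Equiv.Perm.inv_eq_iff_eq, AA_apply]; ring

theorem TT_zpow (n : ℤ) (x : ℚ) : (TT ^ n) x = x + n := by
  induction n using Int.induction_on generalizing x with
  | zero => simp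
  | succ i ih => rw [zpow_add_one, Equiv.Perm.mul_apply, ih, TT_apply]; push_cast; ring
  | pred i ih => rw [zpow_sub_one, Equiv.Perm.mul_apply, ih, TT_inv_apply]; push_cast; ring

theorem AA_zpow (n : ℤ) (x : ℚ) : (AA ^ n) x = x / 2 ^ n := by
  induction n using Int.induction_on generalizing x with
  | zero => simp
  | succ i ih =>
    rw [zpow_add_one, Equiv.Perm.mul_apply, ih, AA_apply, zpow_add_one₀ (by norm_num)]
    field_simp
  | pred i ih =>
    rw [zpow_sub_one, Equiv.Perm.mul_apply, ih, AA_inv_apply, zpow_sub_one₀ (by norm_num)]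
    field_simp

theorem AT : AA⁻¹ * TT * AA = TT ^ 2 := by
  ext x
  rw [pow_two, Equiv.Perm.mul_apply, Equiv.Perm.mul_apply, Equiv.Perm.mul_apply, AA_apply,
    TT_apply, AA_inv_apply, TT_apply, TT_apply]
  ring

theorem T_ne_A (m n : ℤ) (h : TT ^ m = AA ^ n) : m = 0 ∧ n = 0 := by
  have h0 := congrArg (fun e : Equiv.Perm ℚ => e 0) h
  simp only [TT_zpow, AA_zpow] at h0
  have hm : (m : ℚ) = 0 := by simpa using h0
  have hm' : m = 0 := by exact_mod_cast hm
  refine ⟨hm', ?_⟩
  have h1 := congrArg (fun e : Equiv.Perm ℚ => e 1) h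
  simp only [TT_zpow, AA_zpow, hm, add_zero] at h1
  have h2 : (2:ℚ) ^ n = 1 := by
    field_simp at h1
    exact h1
  by_contra hn
  rcases lt_or_gt_of_ne hn with h3 | h3
  · have := zpow_lt_zpow_right₀ (by norm_num : (1:ℚ) < 2) h3
    rw [h2] at this; simp at this
  · have := zpow_lt_zpow_right₀ (by norm_num : (1:ℚ) < 2) h3
    rw [h2] at this; simp at this

/-- the two cyclic subgroups -/
def phi (i : Bool) : Multiplicative ℤ →* Equiv.Perm ℚ :=
  zpowersHom _ (cond i AA TT)

theorem phi_inj (i : Bool) : Injective (phi i) := by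
  rw [injective_iff_map_eq_one]
  intro n hn
  have h1 : (cond i AA TT) ^ (Multiplicative.toAdd n) = 1 := hn
  cases i
  · have h2 := (T_ne_A (Multiplicative.toAdd n) 0 (by simpa using h1)).1
    exact h2
  · have h2 := (T_ne_A 0 (Multiplicative.toAdd n) (by simpa using h1.symm)).2
    exact h2

/-- the amalgam of two Baumslag-Solitar type groups -/
abbrev QQ : Type := PushoutI phi

/-- the letter `a` -/
def qa : QQ := PushoutI.of false AA
/-- the letter `b` -/
def qb : QQ := PushoutI.of false TT
/-- the letter `c` -/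
def qc : QQ := PushoutI.of true TT

theorem qb_eq : qb = PushoutI.of (φ := phi) true AA := by
  have h1 := PushoutI.of_apply_eq_base phi false (Multiplicative.ofAdd 1)
  have h2 := PushoutI.of_apply_eq_base phi true (Multiplicative.ofAdd 1)
  have e1 : phi false (Multiplicative.ofAdd 1) = TT := by simp [phi]
  have e2 : phi true (Multiplicative.ofAdd 1) = AA := by simp [phi]
  rw [e1] at h1
  rw [e2] at h2
  rw [qb, h1, h2]

theorem q_rel1 : qa⁻¹ * qb * qa = qb ^ 2 := by
  unfold qa qb
  rw [← map_inv, ← map_mul, ← map_mul, AT, map_pow]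

theorem q_rel2 : qb⁻¹ * qc * qb = qc ^ 2 := by
  rw [qb_eq]
  unfold qc
  rw [← map_inv, ← map_mul, ← map_mul, AT, map_pow]

/-- generators of the free factors -/
def ff (i : Bool) : FreeGroup Unit →* Equiv.Perm ℚ := FreeGroup.lift fun _ => cond i TT AA

theorem ff_not_mem (i : Bool) (m : FreeGroup Unit) (hm : m ≠ 1) : ff i m ∉ (phi i).range := by
  rintro ⟨n, hn⟩
  obtain ⟨k, rfl⟩ : ∃ k : ℤ, m = FreeGroup.of () ^ k :=
    ⟨FreeGroup.freeGroupUnitEquivInt m, (FreeGroup.freeGroupUnitEquivInt.left_inv m).symm⟩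
  have h1 : (cond i AA TT) ^ (Multiplicative.toAdd n) = (cond i TT AA) ^ k := by
    have : ff i (FreeGroup.of () ^ k) = (cond i TT AA) ^ k := by simp [ff]
    rw [← this, ← hn]; rfl
  have hk : k = 0 := by
    cases i
    · exact (T_ne_A _ _ h1).2
    · exact (T_ne_A _ _ h1.symm).1
  exact hm (by rw [hk, zpow_zero])

/-- Words are mapped to reduced words. -/
def mapW (w : CoprodI.Word fun _ : Bool => FreeGroup Unit) :
    CoprodI.Word fun _ : Bool => Equiv.Perm ℚ where
  toList := w.toList.map fun l => ⟨l.1, ff l.1 l.2⟩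
  ne_one := by
    intro l hl
    obtain ⟨l', hl', rfl⟩ := List.mem_map.1 hl
    intro h
    exact ff_not_mem l'.1 l'.2 (w.ne_one l' hl') (by simp only at h; rw [h]; exact one_mem _)
  chain_ne := by
    rw [List.isChain_map]
    exact w.chain_ne

theorem q_free : Fr qa qc := by
  unfold Fr
  rw [injective_iff_map_eq_one]
  intro g hg
  have key : ∀ x : CoprodI fun _ : Bool => FreeGroup Unit,
      CoprodI.lift (fun i => (PushoutI.of (φ := phi) i).comp (ff i)) x = 1 → x = 1 := by
    intro x hx
    let w := CoprodI.Word.equiv x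
    have hw : w.prod = x := CoprodI.Word.equiv.left_inv x
    have h1 : PushoutI.ofCoprodI (φ := phi) (mapW w).prod =
        CoprodI.lift (fun i => (PushoutI.of (φ := phi) i).comp (ff i)) x := by
      rw [← hw]
      simp only [CoprodI.Word.prod, map_list_prod, mapW, List.map_map]
      congr 1
    have h2 : PushoutI.Reduced phi (mapW w) := by
      intro l hl
      obtain ⟨l', hl', rfl⟩ := List.mem_map.1 hl
      exact ff_not_mem l'.1 l'.2 (w.ne_one l' hl')
    have h3 := h2.eq_empty_of_mem_range phi_inj (by rw [h1, hx]; exact one_mem _)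
    have h4 : w.toList = [] := by
      have := congrArg CoprodI.Word.toList h3
      simpa [mapW, CoprodI.Word.empty] using this
    rw [← hw]
    simp [CoprodI.Word.prod, h4]
  have e1 : (FreeGroup.lift (fun i : Bool => cond i qc qa)) =
      (CoprodI.lift (fun i => (PushoutI.of (φ := phi) i).comp (ff i))).comp
        (freeGroupEquivCoprodI (ι := Bool)).toMonoidHom := by
    ext i
    cases i <;> simp [ff, qa, qc]
  rw [e1] at hg
  have h5 := key _ hg
  exact (map_eq_one_iff _ (freeGroupEquivCoprodI (ι := Bool)).injective).1 h5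

end Pool.Agent.H668R2.Ctr
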