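import Mathlib
import Pool.Agent.H668R2.Ctr.Grp1

set_option autoImplicit false
set_option linter.unusedVariables false

/-! Adjoining the missing letters of Higman's group to a group with free pairs. -/

namespace Pool.Agent.H668R2.Ctr

open Monoid Function

theorem Fr.map {G H : Type} [Group G] [Group H] (f : G →* H) (hf : Injective f) {x y : G}
    (h : Fr x y) : Fr (f x) (f y) := by
  unfold Fr at h ⊢
  have e : (FreeGroup.lift (fun i : Bool => cond i (f y) (f x))) =
      f.comp (FreeGroup.lift (fun i : Bool => cond i y x)) := by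
    ext i; cases i <;> simp
  rw [e]
  exact hf.comp h

theorem Fr.of_map {G H : Type} [Group G] [Group H] (f : G →* H) {x y : G}
    (h : Fr (f x) (f y)) : Fr x y := by
  unfold Fr at h ⊢
  have e : (FreeGroup.lift (fun i : Bool => cond i (f y) (f x))) =
      f.comp (FreeGroup.lift (fun i : Bool => cond i y x)) := by
    ext i; cases i <;> simp
  rw [e] at h
  exact Injective.of_comp h

theorem Fr.swap {G : Type} [Group G] {x y : G} (h : Fr x y) : Fr y x := by
  unfold Fr at h ⊢
  have e : (FreeGroup.lift (fun i : Bool => cond i x y)) =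
      (FreeGroup.lift (fun i : Bool => cond i y x)).comp
        (FreeGroup.freeGroupCongr (Equiv.boolNot)).toMonoidHom := by
    ext i; cases i <;> simp
  rw [e]
  exact h.comp (FreeGroup.freeGroupCongr _).injective

/-- the two vertex groups -/
def GG (A B : Type) : Bool → Type
  | false => A
  | true => B

instance (A B : Type) [Group A] [Group B] : ∀ i, Group (GG A B i)
  | false => inferInstanceAs (Group A)
  | true => inferInstanceAs (Group B)

/-- the two edge maps -/
def gg {A B H : Type} [Group A] [Group B] [Group H] (f : H →* A) (g : H →* B) :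
    ∀ i, H →* GG A B i
  | false => f
  | true => g

/-- Adjoin `b` with `b ^ x = b ^ 2` and `y ^ b = y ^ 2`. -/
theorem ext_group {G : Type} [Group G] {x y : G} (h : Fr x y) :
    ∃ (H : Type) (_ : Group H) (f : G →* H) (b : H), Injective f ∧
      (f x)⁻¹ * b * f x = b ^ 2 ∧ b⁻¹ * f y * b = (f y) ^ 2 := by
  let φ := gg (FreeGroup.lift (fun i : Bool => cond i y x) : FreeGroup Bool →* G)
    (FreeGroup.lift (fun i : Bool => cond i qc qa) : FreeGroup Bool →* QQ)
  have hφ : ∀ i, Injective (φ i) := by
    rintro (_ | _)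
    · exact h
    · exact q_free
  let f : G →* PushoutI φ := PushoutI.of (φ := φ) false
  let k : QQ →* PushoutI φ := PushoutI.of (φ := φ) true
  have hf : Injective f := PushoutI.of_injective hφ false
  have hx : f x = k qa := by
    have h1 := PushoutI.of_apply_eq_base φ false (FreeGroup.of false)
    have h2 := PushoutI.of_apply_eq_base φ true (FreeGroup.of false)
    have e1 : φ false (FreeGroup.of false) = x := by
      change (FreeGroup.lift (fun i : Bool => cond i y x) : FreeGroup Bool →* G) _ = x; simp
    have e2 : φ true (FreeGroup.of false) = qa := by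
      change (FreeGroup.lift (fun i : Bool => cond i qc qa) : FreeGroup Bool →* QQ) _ = qa; simp
    rw [e1] at h1
    rw [e2] at h2
    exact h1.trans h2.symm
  have hy : f y = k qc := by
    have h1 := PushoutI.of_apply_eq_base φ false (FreeGroup.of true)
    have h2 := PushoutI.of_apply_eq_base φ true (FreeGroup.of true)
    have e1 : φ false (FreeGroup.of true) = y := by
      change (FreeGroup.lift (fun i : Bool => cond i y x) : FreeGroup Bool →* G) _ = y; simp
    have e2 : φ true (FreeGroup.of true) = qc := by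
      change (FreeGroup.lift (fun i : Bool => cond i qc qa) : FreeGroup Bool →* QQ) _ = qc; simp
    rw [e1] at h1
    rw [e2] at h2
    exact h1.trans h2.symm
  refine ⟨PushoutI φ, inferInstance, f, k qb, hf, ?_, ?_⟩
  · rw [hx, ← map_inv, ← map_mul, ← map_mul, q_rel1, map_pow]
  · rw [hy, ← map_inv, ← map_mul, ← map_mul, q_rel2, map_pow]

/-- the relations of Higman's group -/
def Hig {G : Type} [Group G] (a b c d : G) : Prop :=
  a⁻¹ * b * a = b ^ 2 ∧ b⁻¹ * c * b = c ^ 2 ∧ c⁻¹ * d * c = d ^ 2 ∧ d⁻¹ * a * d = a ^ 2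

theorem Hig.map {G H : Type} [Group G] [Group H] (f : G →* H) {a b c d : G} (h : Hig a b c d) :
    Hig (f a) (f b) (f c) (f d) := by
  obtain ⟨h1, h2, h3, h4⟩ := h
  refine ⟨?_, ?_, ?_, ?_⟩
  · rw [← map_inv, ← map_mul, ← map_mul, h1, map_pow]
  · rw [← map_inv, ← map_mul, ← map_mul, h2, map_pow]
  · rw [← map_inv, ← map_mul, ← map_mul, h3, map_pow]
  · rw [← map_inv, ← map_mul, ← map_mul, h4, map_pow]

theorem ext_all {G : Type} [Group G] (x y : ℕ → G) (k : ℕ) (h : ∀ p < k, Fr (x p) (y p)) :
    ∃ (H : Type) (_ : Group H) (f : G →* H) (b d : ℕ → H), Injective f ∧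
      ∀ p < k, Hig (f (x p)) (b p) (f (y p)) (d p) := by
  induction k with
  | zero => exact ⟨G, inferInstance, MonoidHom.id G, fun _ => 1, fun _ => 1, injective_id,
      fun p hp => absurd hp (Nat.not_lt_zero p)⟩
  | succ k ih =>
    obtain ⟨H, _, f, b, d, hf, hr⟩ := ih (fun p hp => h p (by omega))
    have h1 := (h k (by omega)).map f hf
    obtain ⟨H1, _, f1, b1, hf1, r1, r2⟩ := ext_group h1
    obtain ⟨H2, _, f2, d2, hf2, r3, r4⟩ := ext_group (h1.map f1 hf1).swap
    refine ⟨H2, inferInstance, (f2.comp f1).comp f,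
      fun p => if p = k then f2 b1 else f2 (f1 (b p)),
      fun p => if p = k then d2 else f2 (f1 (d p)), (hf2.comp hf1).comp hf, ?_⟩
    intro p hp
    by_cases hpk : p = k
    · subst hpk
      simp only [if_true, MonoidHom.comp_apply]
      refine ⟨?_, ?_, r3, r4⟩
      · rw [← map_inv, ← map_mul, ← map_mul, r1, map_pow]
      · rw [← map_inv, ← map_mul, ← map_mul, r2, map_pow]
    · simp only [if_neg hpk, MonoidHom.comp_apply]
      exact ((hr p (by omega)).map f1).map f2

end Pool.Agent.H668R2.Ctr
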