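import Mathlib
import Pool.Agent.H668R2.Ctr.Grp2

set_option autoImplicit false
set_option linter.unusedVariables false

/-! The group theory of the construction. -/

namespace Pool.Agent.H668R2.Ctr

open Monoid Function

section free

variable (U : Type) [Group U]

/-- left multiplication on the index set of a free group -/
def actU : U →* MulAut (FreeGroup (U × ℕ)) where
  toFun u := FreeGroup.freeGroupCongr (Equiv.prodCongr (Equiv.mulLeft u) (Equiv.refl ℕ))
  map_one' := by
    ext x
    have : (FreeGroup.freeGroupCongr (Equiv.prodCongr (Equiv.mulLeft (1:U)) (Equiv.refl ℕ))).toMonoidHom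
        = MonoidHom.id _ := by
      ext i; simp
    exact DFunLike.congr_fun this x
  map_mul' u v := by
    ext x
    have : (FreeGroup.freeGroupCongr (Equiv.prodCongr (Equiv.mulLeft (u * v)) (Equiv.refl ℕ))).toMonoidHom
        = (FreeGroup.freeGroupCongr (Equiv.prodCongr (Equiv.mulLeft u) (Equiv.refl ℕ))).toMonoidHom.comp
          (FreeGroup.freeGroupCongr (Equiv.prodCongr (Equiv.mulLeft v) (Equiv.refl ℕ))).toMonoidHom := by
      ext ⟨i1, i2⟩; simp [mul_assoc]
    exact DFunLike.congr_fun this x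

theorem actU_of (u v : U) (k : ℕ) : actU U u (FreeGroup.of (v, k)) = FreeGroup.of (u * v, k) := by
  change FreeGroup.freeGroupCongr _ _ = _
  simp

theorem Fr_bool : Fr (FreeGroup.of false) (FreeGroup.of true) := by
  unfold Fr
  have : (FreeGroup.lift (fun i : Bool => cond i (FreeGroup.of true) (FreeGroup.of false))) =
      MonoidHom.id (FreeGroup Bool) := by
    ext i; cases i <;> simp
  rw [this]
  exact injective_id

theorem Fr_comm (w u : U) (hw : w ≠ 1) (k l : ℕ) (hkl : k ≠ l) :
    Fr ((Coprod.inl w : Coprod U (FreeGroup ℕ)) * Coprod.inr (FreeGroup.of k) *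
      (Coprod.inl w)⁻¹ * (Coprod.inr (FreeGroup.of k))⁻¹)
      (Coprod.inl u * Coprod.inr (FreeGroup.of l)) := by
  classical
  let ψ : Coprod U (FreeGroup ℕ) →* (FreeGroup (U × ℕ)) ⋊[actU U] U :=
    Coprod.lift SemidirectProduct.inr (FreeGroup.lift fun j =>
      if j = l then SemidirectProduct.inr u⁻¹ * SemidirectProduct.inl (FreeGroup.of (1, l))
      else SemidirectProduct.inl (FreeGroup.of (1, j)))
  apply Fr.of_map ψ
  have e1 : ψ (Coprod.inl u * Coprod.inr (FreeGroup.of l)) =
      SemidirectProduct.inl (FreeGroup.of (1, l)) := by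
    simp only [ψ, map_mul, Coprod.lift_apply_inl, Coprod.lift_apply_inr, FreeGroup.lift_apply_of,
      if_true]
    rw [← mul_assoc, ← map_mul, mul_inv_cancel, map_one, one_mul]
  have e2 : ψ ((Coprod.inl w : Coprod U (FreeGroup ℕ)) * Coprod.inr (FreeGroup.of k) *
      (Coprod.inl w)⁻¹ * (Coprod.inr (FreeGroup.of k))⁻¹) =
      SemidirectProduct.inl (FreeGroup.of (w, k) * (FreeGroup.of (1, k))⁻¹) := by
    simp only [ψ, map_mul, map_inv, Coprod.lift_apply_inl, Coprod.lift_apply_inr,
      FreeGroup.lift_apply_of, if_neg hkl]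
    congr 1
    have := SemidirectProduct.inl_aut (φ := actU U) w (FreeGroup.of (1, k))
    rw [actU_of, mul_one, map_inv] at this
    exact this.symm
  rw [e1, e2]
  apply Fr.map _ SemidirectProduct.inl_injective
  apply Fr.of_map (FreeGroup.lift fun p : U × ℕ =>
    if p = (w, k) then FreeGroup.of false else if p = (1, l) then FreeGroup.of true else 1)
  have h1 : ((1 : U), k) ≠ (w, k) := by
    intro h; exact hw (Prod.mk.inj h).1.symm
  have h2 : ((1 : U), k) ≠ (1, l) := by
    intro h; exact hkl (Prod.mk.inj h).2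
  have h3 : ((1 : U), l) ≠ (w, k) := by
    intro h; exact hkl (Prod.mk.inj h).2.symm
  simp only [map_mul, map_inv, FreeGroup.lift_apply_of, if_true, if_neg h1, if_neg h2, if_neg h3,
    inv_one, mul_one]
  exact Fr_bool

end free

/-- the partner letter -/
def st (p : ℕ) : ℕ := if p = 0 then 1 else 0

/-- the substitution `x_i = c_{2+i} c_{2+m+i}⁻¹` -/
def xl (m : ℕ) {G : Type} [Group G] (c : ℕ → G) : FreeGroup (Fin m) →* G :=
  FreeGroup.lift fun i => c (2 + i) * (c (2 + m + i))⁻¹

/-- the commutator `[w, c_{st p}]` -/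
def cm (m : ℕ) {G : Type} [Group G] (c : ℕ → G) (w : FreeGroup (Fin m)) (p : ℕ) : G :=
  xl m c w * c (st p) * (xl m c w)⁻¹ * (c (st p))⁻¹

theorem model (m : ℕ) (R : Set (FreeGroup (Fin m))) (w : FreeGroup (Fin m))
    (hw : w ∉ Subgroup.normalClosure R) :
    ∃ (H : Type) (_ : Group H) (a b c d : ℕ → H),
      (∀ p < 2 * m + 2, Hig (a p) (b p) (c p) (d p)) ∧ (∀ r ∈ R, xl m c r = 1) ∧
      (∀ p < 2 * m + 2, a p = cm m c w p) ∧ a 0 ≠ 1 := by
  classical
  let U := FreeGroup (Fin m) ⧸ Subgroup.normalClosure R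
  let q : FreeGroup (Fin m) →* U := QuotientGroup.mk' _
  have hqw : q w ≠ 1 := by
    intro h
    exact hw ((QuotientGroup.eq_one_iff w).1 h)
  let s : ℕ → Coprod U (FreeGroup ℕ) := fun j => Coprod.inr (FreeGroup.of j)
  let xg : ℕ → U := fun i => if h : i < m then q (FreeGroup.of ⟨i, h⟩) else 1
  let c' : ℕ → Coprod U (FreeGroup ℕ) := fun p =>
    if p < 2 + m then s p else Coprod.inl (xg (p - 2 - m))⁻¹ * s (p - m)
  have hxl : xl m c' = (Coprod.inl : U →* Coprod U (FreeGroup ℕ)).comp q := by
    ext i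
    simp only [xl, FreeGroup.lift_apply_of, c', MonoidHom.comp_apply]
    rw [if_pos (by omega), if_neg (by omega)]
    have e1 : 2 + m + (i:ℕ) - 2 - m = i := by omega
    have e2 : 2 + m + (i:ℕ) - m = 2 + i := by omega
    rw [e1, e2]
    have e3 : xg i = q (FreeGroup.of i) := by simp [xg]
    rw [e3, map_inv]
    group
  let a' : ℕ → Coprod U (FreeGroup ℕ) := fun p => cm m c' w p
  have hst : ∀ p, c' (st p) = s (st p) := by
    intro p
    simp only [c', st]
    split_ifs with h1 h2 h2
    · rfl
    · omega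
    · rfl
    · omega
  have hfr : ∀ p < 2 * m + 2, Fr (a' p) (c' p) := by
    intro p hp
    simp only [a', cm, hst, hxl, MonoidHom.comp_apply]
    by_cases h1 : p < 2 + m
    · have e : c' p = Coprod.inl (1 : U) * Coprod.inr (FreeGroup.of p) := by
        simp only [c', if_pos h1, map_one, one_mul]; rfl
      rw [e]
      refine Fr_comm U (q w) 1 hqw (st p) p ?_
      unfold st
      split_ifs with h
      · omega
      · omega
    · have e : c' p = Coprod.inl (xg (p - 2 - m))⁻¹ * Coprod.inr (FreeGroup.of (p - m)) := by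
        simp only [c', if_neg h1]; rfl
      rw [e]
      refine Fr_comm U (q w) _ hqw (st p) (p - m) ?_
      unfold st
      split_ifs with h
      · omega
      · omega
  obtain ⟨H, _, f, b, d, hf, hr⟩ := ext_all a' c' (2 * m + 2) hfr
  have hmap : ∀ r, xl m (fun p => f (c' p)) r = f (xl m c' r) := by
    intro r
    have : xl m (fun p => f (c' p)) = f.comp (xl m c') := by
      ext i
      simp [xl]
    rw [this]; rfl
  refine ⟨H, inferInstance, fun p => f (a' p), b, fun p => f (c' p), d, hr, ?_, ?_, ?_⟩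
  · intro r hr
    rw [hmap, hxl, MonoidHom.comp_apply]
    have : q r = 1 := (QuotientGroup.eq_one_iff r).2 (Subgroup.subset_normalClosure hr)
    rw [this, map_one, map_one]
  · intro p _
    simp only [a', cm, hmap, map_mul, map_inv]
  · intro h
    have h1 : a' 0 = 1 := hf (h.trans (map_one f).symm)
    have h2 := hfr 0 (by omega)
    unfold Fr at h2
    have h3 : FreeGroup.of false = (1 : FreeGroup Bool) := by
      apply h2
      simp [h1]
    exact FreeGroup.of_ne_one false h3

theorem triv (m : ℕ) (R : Set (FreeGroup (Fin m))) (w : FreeGroup (Fin m))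
    (hw : w ∈ Subgroup.normalClosure R) {G : Type} [Group G] (a b c d : ℕ → G)
    (S : Set G) (hS : ∀ p < 2 * m + 2, a p ∈ S ∧ b p ∈ S ∧ c p ∈ S ∧ d p ∈ S)
    (h1 : ∀ p < 2 * m + 2, Hig (a p) (b p) (c p) (d p))
    (h2 : ∀ r ∈ R, xl m c r ∈ Subgroup.centralizer S)
    (h3 : ∀ p < 2 * m + 2, (a p)⁻¹ * cm m c w p ∈ Subgroup.centralizer S) :
    ∀ p < 2 * m + 2, a p = 1 ∧ b p = 1 ∧ c p = 1 ∧ d p = 1 := by
  have hx : ∀ g, xl m c g ∈ Subgroup.closure S := by
    intro g
    have : (xl m c).range ≤ Subgroup.closure S := by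
      rw [MonoidHom.range_eq_map, ← FreeGroup.closure_range_of, MonoidHom.map_closure,
        Subgroup.closure_le]
      rintro _ ⟨_, ⟨i, rfl⟩, rfl⟩
      simp only [xl, FreeGroup.lift_apply_of, SetLike.mem_coe]
      have := i.2
      exact mul_mem (Subgroup.subset_closure (hS _ (by omega)).2.2.1)
        (inv_mem (Subgroup.subset_closure (hS _ (by omega)).2.2.1))
    exact this ⟨g, rfl⟩
  have hcl : ∀ g ∈ Subgroup.centralizer S, ∀ h ∈ Subgroup.closure S, g * h = h * g := by
    intro g hg h hh
    have h5 : Subgroup.closure S ≤ Subgroup.centralizer {g} := by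
      rw [Subgroup.closure_le]
      intro s hs
      rw [SetLike.mem_coe, Subgroup.mem_centralizer_iff]
      intro g' hg'
      rw [Set.mem_singleton_iff] at hg'
      subst hg'
      exact (Subgroup.mem_centralizer_iff.1 hg s hs).symm
    have h6 := Subgroup.mem_centralizer_iff.1 (h5 hh) g rfl
    exact h6
  let K : Subgroup (FreeGroup (Fin m)) := (Subgroup.centralizer S).comap (xl m c)
  have hK : K.Normal := by
    constructor
    intro g hg h
    change xl m c (h * g * h⁻¹) ∈ Subgroup.centralizer S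
    have hg' : xl m c g ∈ Subgroup.centralizer S := hg
    have : xl m c (h * g * h⁻¹) = xl m c g := by
      rw [map_mul, map_mul, map_inv, ← hcl _ hg' _ (hx h)]
      group
    rw [this]
    exact hg'
  have hwK : w ∈ K := (Subgroup.normalClosure_le_normal (fun r hr => h2 r hr)) hw
  have hw' : xl m c w ∈ Subgroup.centralizer S := hwK
  intro p hp
  have e1 : cm m c w p = 1 := by
    unfold cm
    have h5 : c (st p) ∈ S := (hS (st p) (by unfold st; split_ifs <;> omega)).2.2.1
    have h6 := Subgroup.mem_centralizer_iff.1 hw' _ h5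
    rw [← h6]
    group
  have e2 := h3 p hp
  rw [e1, mul_one, inv_mem_iff] at e2
  obtain ⟨r1, r2, r3, r4⟩ := h1 p hp
  have hb : b p = 1 := by
    have h5 := Subgroup.mem_centralizer_iff.1 e2 _ (hS p hp).2.1
    rw [mul_assoc, h5, ← mul_assoc, inv_mul_cancel, one_mul, pow_two] at r1
    exact (mul_eq_left.1 r1.symm)
  have hc : c p = 1 := by
    rw [hb, inv_one, one_mul, mul_one, pow_two] at r2
    exact (mul_eq_left.1 r2.symm)
  have hd : d p = 1 := by
    rw [hc, inv_one, one_mul, mul_one, pow_two] at r3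
    exact (mul_eq_left.1 r3.symm)
  have ha : a p = 1 := by
    rw [hd, inv_one, one_mul, mul_one, pow_two] at r4
    exact (mul_eq_left.1 r4.symm)
  exact ⟨ha, hb, hc, hd⟩

end Pool.Agent.H668R2.Ctr
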