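import Mathlib
import Pool.Agent.H668R2.Ctr.Dir2
import Pool.Agent.H668R2.Ctr.Grp3

set_option autoImplicit false
set_option linter.unusedVariables false

/-! The words. -/

namespace Pool.Agent.H668R2.Ctr

open Pool.Agent.Helper281.Sc (Simp IsCx)

/-- number of letters of `N` -/
def MM (m : ℕ) : ℕ := 4 * (2 * m + 2)

/-- substitution, for the values of the indices of letters -/
def s1 (m i : ℕ) (b : Bool) : List (ℕ × Bool) :=
  cond b [(4 * (2 + i) + 2, true), (4 * (2 + m + i) + 2, false)]
    [(4 * (2 + m + i) + 2, true), (4 * (2 + i) + 2, false)]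

/-- the substitution on words -/
def sb (m : ℕ) (w : List (ℕ × Bool)) : List (ℕ × Bool) := w.flatMap fun x => s1 m x.1 x.2

/-- formal inverse -/
def iv (w : List (ℕ × Bool)) : List (ℕ × Bool) := (w.map fun x => (x.1, !x.2)).reverse

/-- the commutator word -/
def cw (m : ℕ) (w : List (ℕ × Bool)) (p : ℕ) : List (ℕ × Bool) :=
  (4 * p, false) :: (sb m w ++ ((4 * st p + 2, true) :: (iv (sb m w) ++ [(4 * st p + 2, false)])))

/-- the words attached to the torus letters -/
def rho (m : ℕ) (rs : List (List (ℕ × Bool))) (w : List (ℕ × Bool)) (j : ℕ) : List (ℕ × Bool) :=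
  if j < rs.length then sb m (rs.getD j []) else cw m w (j - rs.length)

/-- the number of tori -/
def JJ (m : ℕ) (rs : List (List (ℕ × Bool))) : ℕ := rs.length + (2 * m + 2)

/-- the words of the relator discs -/
def wds (m : ℕ) (rs : List (List (ℕ × Bool))) (w : List (ℕ × Bool)) (q : ℕ) : List (ℕ × Bool) :=
  if q < MM m then [(4 * (q / 4) + (q % 4 + 3) % 4, false), (q, true),
    (4 * (q / 4) + (q % 4 + 3) % 4, true), (q, false), (q, false)]
  else (q, false) :: rho m rs w (q - MM m)

/-- letters of `Fin m` as numbers -/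
def nw {m : ℕ} (w : List (Fin m × Bool)) : List (ℕ × Bool) := w.map fun x => ((x.1 : ℕ), x.2)

/-- bounded words -/
def Bd (m : ℕ) (w : List (ℕ × Bool)) : Prop := ∀ x ∈ w, x.1 < m

theorem bd_nw {m : ℕ} (w : List (Fin m × Bool)) : Bd m (nw w) := by
  intro x hx
  unfold nw at hx
  obtain ⟨y, _, rfl⟩ := List.mem_map.1 hx
  exact y.1.2

theorem sb_lt {m : ℕ} {w : List (ℕ × Bool)} (hw : Bd m w) : ∀ l ∈ sb m w, l.1 < MM m := by
  intro l hl
  unfold sb at hl
  obtain ⟨x, hx, hl⟩ := List.mem_flatMap.1 hl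
  have := hw x hx
  unfold s1 at hl
  unfold MM
  cases h : x.2
  · rw [h] at hl
    simp only [cond_false, List.mem_cons, List.not_mem_nil, or_false] at hl
    rcases hl with rfl | rfl <;> simp only <;> omega
  · rw [h] at hl
    simp only [cond_true, List.mem_cons, List.not_mem_nil, or_false] at hl
    rcases hl with rfl | rfl <;> simp only <;> omega

theorem iv_lt {n : ℕ} {w : List (ℕ × Bool)} (hw : ∀ l ∈ w, l.1 < n) : ∀ l ∈ iv w, l.1 < n := by
  intro l hl
  unfold iv at hl
  rw [List.mem_reverse] at hl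
  obtain ⟨x, hx, rfl⟩ := List.mem_map.1 hl
  exact hw x hx

theorem st_lt (p : ℕ) : st p < 2 := by unfold st; split_ifs <;> omega

theorem cw_lt {m : ℕ} {w : List (ℕ × Bool)} (hw : Bd m w) {p : ℕ} (hp : p < 2 * m + 2) :
    ∀ l ∈ cw m w p, l.1 < MM m := by
  intro l hl
  have h1 := st_lt p
  have e : 4 * st p + 2 < MM m := by unfold MM; omega
  unfold cw at hl
  simp only [List.mem_cons, List.mem_append, List.not_mem_nil, or_false] at hl
  rcases hl with rfl | hl | rfl | hl | rfl
  · simp only; unfold MM; omega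
  · exact sb_lt hw l hl
  · exact e
  · exact iv_lt (sb_lt hw) l hl
  · exact e

theorem rho_lt {m : ℕ} {rs : List (List (ℕ × Bool))} (hrs : ∀ r ∈ rs, Bd m r)
    {w : List (ℕ × Bool)} (hw : Bd m w) {j : ℕ} (hj : j < JJ m rs) :
    ∀ l ∈ rho m rs w j, l.1 < MM m := by
  unfold rho
  unfold JJ at hj
  split_ifs with h
  · apply sb_lt
    rw [List.getD_eq_getElem _ _ h]
    exact hrs _ (List.getElem_mem h)
  · exact cw_lt hw (by omega)

theorem g_lt {m q : ℕ} (hq : q < MM m) : 4 * (q / 4) + (q % 4 + 3) % 4 < MM m := by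
  unfold MM at *; omega

theorem wf_wds {m : ℕ} {rs : List (List (ℕ × Bool))} (hrs : ∀ r ∈ rs, Bd m r)
    {w : List (ℕ × Bool)} (hw : Bd m w) {n : ℕ} (hn : MM m ≤ n) (hn' : n ≤ MM m + JJ m rs) :
    WF n (wds m rs w) := by
  intro q hq l hl
  unfold wds at hl
  split_ifs at hl with h
  · have h1 := g_lt h
    simp only [List.mem_cons, List.not_mem_nil, or_false] at hl
    rcases hl with rfl | rfl | rfl | rfl | rfl <;> simp only <;> omega
  · rw [List.mem_cons] at hl
    rcases hl with rfl | hl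
    · exact hq
    · have := rho_lt hrs hw (by omega : q - MM m < JJ m rs) l hl
      omega

theorem ne_wds (m : ℕ) (rs : List (List (ℕ × Bool))) (w : List (ℕ × Bool)) (q : ℕ) :
    wds m rs w q ≠ [] := by
  unfold wds
  split_ifs <;> simp

theorem tri_wds {m : ℕ} {rs : List (List (ℕ × Bool))} (hrs : ∀ r ∈ rs, Bd m r)
    {w : List (ℕ × Bool)} (hw : Bd m w) {n : ℕ} (hn' : n ≤ MM m + JJ m rs) :
    Tri n (wds m rs w) := by
  intro q hq
  unfold wds
  split_ifs with h
  · refine ⟨[], by simp, ?_⟩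
    intro A _ t
    simp only [ev_cons, ev_nil, cond_false, cond_true, mul_one]
    generalize t (4 * (q / 4) + (q % 4 + 3) % 4) = a
    generalize t q = b
    rw [mul_left_comm a, ← mul_assoc b, mul_inv_cancel, one_mul, inv_mul_cancel_left]
  · refine ⟨rho m rs w (q - MM m), ?_, ?_⟩
    · intro l hl
      have := rho_lt hrs hw (by omega : q - MM m < JJ m rs) l hl
      omega
    · intro A _ t
      rw [ev_cons]; rfl

section

variable {G : Type} [Group G] (t : ℕ → G)

theorem ev_iv (w : List (ℕ × Bool)) : ev t (iv w) = (ev t w)⁻¹ := by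
  induction w with
  | nil => simp [iv, ev]
  | cons x w ih =>
    have : iv (x :: w) = iv w ++ [(x.1, !x.2)] := by simp [iv]
    rw [this, ev_append, ih, ev_cons, ev_cons, ev_nil, mul_inv_rev]
    cases x.2 <;> simp

theorem ev_sb {m : ℕ} (w : List (Fin m × Bool)) :
    ev t (sb m (nw w)) = xl m (fun p => t (4 * p + 2)) (FreeGroup.mk w) := by
  unfold xl
  rw [FreeGroup.lift_mk]
  induction w with
  | nil => rfl
  | cons x w ih =>
    have : sb m (nw (x :: w)) = s1 m x.1 x.2 ++ sb m (nw w) := by simp [sb, nw]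
    rw [this, ev_append, ih, List.map_cons, List.prod_cons]
    congr 1
    unfold s1
    cases x.2
    · simp [ev_cons, ev_nil]
    · simp [ev_cons, ev_nil]

theorem ev_cw {m : ℕ} (w : List (Fin m × Bool)) (p : ℕ) :
    ev t (cw m (nw w) p) = (t (4 * p))⁻¹ * cm m (fun p => t (4 * p + 2)) (FreeGroup.mk w) p := by
  unfold cw cm
  rw [ev_cons, ev_append, ev_cons, ev_append, ev_cons, ev_nil, ev_iv, ev_sb]
  simp only [cond_false, cond_true, mul_one]
  simp only [mul_assoc]

end

end Pool.Agent.H668R2.Ctr
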