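import Mathlib
import Pool.Agent.H668R2.Ctr.Wds

set_option autoImplicit false
set_option linter.unusedVariables false

/-! `X` is contractible exactly when the word is in the normal closure. -/

namespace Pool.Agent.H668R2.Ctr

open Pool.Agent.Helper281.Sc (Simp IsCx)

section

variable {m : ℕ} (rs : List (List (Fin m × Bool))) (w : List (Fin m × Bool))

theorem wds_lt {q : ℕ} (h : q < MM m) (rs : List (List (ℕ × Bool))) (w : List (ℕ × Bool)) :
    wds m rs w q = [(4 * (q / 4) + (q % 4 + 3) % 4, false), (q, true),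
      (4 * (q / 4) + (q % 4 + 3) % 4, true), (q, false), (q, false)] := if_pos h

theorem wds_rel {j : ℕ} (rs : List (List (ℕ × Bool))) (w : List (ℕ × Bool)) (hj : j < rs.length) :
    wds m rs w (MM m + j) = (MM m + j, false) :: sb m (rs.getD j []) := by
  unfold wds rho
  rw [if_neg (by omega), Nat.add_sub_cancel_left, if_pos hj]

theorem wds_cm (p : ℕ) (rs : List (List (ℕ × Bool))) (w : List (ℕ × Bool)) :
    wds m rs w (MM m + (rs.length + p)) = (MM m + (rs.length + p), false) :: cw m w p := by
  unfold wds rho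
  rw [if_neg (by omega), Nat.add_sub_cancel_left, if_neg (by omega), Nat.add_sub_cancel_left]

theorem hig_iff {G : Type} [Group G] (t : ℕ → G) (rs : List (List (ℕ × Bool)))
    (w : List (ℕ × Bool)) {p : ℕ} (hp : p < 2 * m + 2) :
    (∀ e < 4, ev t (wds m rs w (4 * p + e)) = 1) ↔
      Hig (t (4 * p)) (t (4 * p + 1)) (t (4 * p + 2)) (t (4 * p + 3)) := by
  have key : ∀ a b : G, (a⁻¹ * (b * (a * (b⁻¹ * b⁻¹))) = 1 ↔ a⁻¹ * b * a = b ^ 2) := by
    intro a b
    rw [← mul_inv_rev, ← pow_two, ← mul_assoc, ← mul_assoc, mul_inv_eq_one, mul_assoc]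
  have hev : ∀ e < 4, ∀ g, 4 * ((4 * p + e) / 4) + ((4 * p + e) % 4 + 3) % 4 = g →
      (ev t (wds m rs w (4 * p + e)) = 1 ↔ (t g)⁻¹ * t (4 * p + e) * t g = t (4 * p + e) ^ 2) := by
    intro e he g hg
    rw [wds_lt (by unfold MM; omega), hg]
    simp only [ev_cons, ev_nil, cond_false, cond_true, mul_one]
    exact key _ _
  unfold Hig
  constructor
  · intro h
    refine ⟨?_, ?_, ?_, ?_⟩
    · exact (hev 1 (by omega) (4 * p) (by omega)).1 (h 1 (by omega))
    · exact (hev 2 (by omega) (4 * p + 1) (by omega)).1 (h 2 (by omega))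
    · exact (hev 3 (by omega) (4 * p + 2) (by omega)).1 (h 3 (by omega))
    · exact (hev 0 (by omega) (4 * p + 3) (by omega)).1 (h 0 (by omega))
  · rintro ⟨h1, h2, h3, h4⟩ e he
    interval_cases e
    · exact (hev 0 (by omega) (4 * p + 3) (by omega)).2 h4
    · exact (hev 1 (by omega) (4 * p) (by omega)).2 h1
    · exact (hev 2 (by omega) (4 * p + 1) (by omega)).2 h2
    · exact (hev 3 (by omega) (4 * p + 2) (by omega)).2 h3

/-- The complex. -/
def XW : Set (Finset ℕ) := XX (MM m) (JJ m (rs.map nw)) (wds m (rs.map nw) (nw w))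

/-- the relators -/
def RS : Set (FreeGroup (Fin m)) := {g | ∃ r ∈ rs, g = FreeGroup.mk r}

theorem bd_map : ∀ r ∈ rs.map nw, Bd m r := by
  intro r hr
  obtain ⟨x, _, rfl⟩ := List.mem_map.1 hr
  exact bd_nw x

theorem getD_map {j : ℕ} (hj : j < rs.length) : (rs.map nw).getD j [] = nw (rs[j]) := by
  rw [List.getD_eq_getElem _ _ (by simpa using hj), List.getElem_map]

theorem contr_of_mem (hw : FreeGroup.mk w ∈ Subgroup.normalClosure (RS rs)) :
    ContractibleSpace (Rl (XW rs w)) := by
  have hM : 0 < MM m := by unfold MM; omega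
  have hwf := wf_wds (bd_map rs) (bd_nw w) (n := MM m) le_rfl (Nat.le_add_right _ _)
  have hwf' := wf_wds (bd_map rs) (bd_nw w) (n := MM m + JJ m (rs.map nw))
    (Nat.le_add_right _ _) le_rfl
  have ht := tri_wds (bd_map rs) (bd_nw w) (n := MM m) (Nat.le_add_right _ _)
  have ht' := tri_wds (bd_map rs) (bd_nw w) (n := MM m + JJ m (rs.map nw)) le_rfl
  refine (data hM hwf hwf').contractible (h2_KK (fun q _ => ne_wds _ _ _ q) ht')
    (h2_KK (fun q _ => ne_wds _ _ _ q) ht) (h1_KK hwf ht) ?_
  intro G _ f hf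
  have hX := isCx_XX (MM m) (JJ m (rs.map nw)) (wds m (rs.map nw) (nw w))
  have hlen : (rs.map nw).length = rs.length := List.length_map _
  have hev : ∀ q < MM m + JJ m (rs.map nw), ev (hol f) (wds m (rs.map nw) (nw w) q) = 1 :=
    fun q hq => ev_hol hX hf Set.subset_union_left hwf' hq
  have hcom : ∀ j < JJ m (rs.map nw), ∀ l < MM m,
      hol f l * hol f (MM m + j) = hol f (MM m + j) * hol f l :=
    fun j hj l hl => hol_comm hf hj hl
  let S : Set G := {g | ∃ l < MM m, g = hol f l}
  have hcent : ∀ j < JJ m (rs.map nw), hol f (MM m + j) ∈ Subgroup.centralizer S := by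
    intro j hj
    rw [Subgroup.mem_centralizer_iff]
    rintro _ ⟨l, hl, rfl⟩
    exact hcom j hj l hl
  have hJ : JJ m (rs.map nw) = rs.length + (2 * m + 2) := by unfold JJ; rw [hlen]
  have hrel : ∀ j (hj : j < rs.length), hol f (MM m + j) =
      xl m (fun p => hol f (4 * p + 2)) (FreeGroup.mk rs[j]) := by
    intro j hj
    have h1 := hev (MM m + j) (by omega)
    rw [wds_rel _ _ (by rw [hlen]; exact hj), ev_cons, getD_map rs hj, ev_sb] at h1
    simp only [cond_false] at h1
    exact inv_mul_eq_one.1 h1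
  have hcmr : ∀ p < 2 * m + 2, hol f (MM m + (rs.length + p)) =
      (hol f (4 * p))⁻¹ * cm m (fun p => hol f (4 * p + 2)) (FreeGroup.mk w) p := by
    intro p hp
    have h1 := hev (MM m + (rs.length + p)) (by omega)
    rw [← hlen, wds_cm, ev_cons, ev_cw] at h1
    simp only [cond_false] at h1
    rw [← hlen]
    exact inv_mul_eq_one.1 h1
  have hall := triv m (RS rs) (FreeGroup.mk w) hw (fun p => hol f (4 * p))
    (fun p => hol f (4 * p + 1)) (fun p => hol f (4 * p + 2)) (fun p => hol f (4 * p + 3)) S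
    (by
      intro p hp
      refine ⟨⟨4 * p, ?_, rfl⟩, ⟨4 * p + 1, ?_, rfl⟩, ⟨4 * p + 2, ?_, rfl⟩, ⟨4 * p + 3, ?_, rfl⟩⟩ <;>
        (unfold MM; omega))
    (by
      intro p hp
      exact (hig_iff (hol f) (rs.map nw) (nw w) hp).1
        (fun e he => hev _ (by have : MM m = 4 * (2 * m + 2) := rfl; omega)))
    (by
      rintro r ⟨x, hx, rfl⟩
      obtain ⟨j, hj, rfl⟩ := List.mem_iff_getElem.1 hx
      rw [← hrel j hj]
      exact hcent j (by omega))
    (by
      intro p hp
      rw [← hcmr p hp]
      exact hcent _ (by omega))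
  have hN : ∀ l < MM m, hol f l = 1 := by
    intro l hl
    have hMM : MM m = 4 * (2 * m + 2) := rfl
    obtain ⟨h1, h2, h3, h4⟩ := hall (l / 4) (by omega)
    have e : l % 4 = 0 ∨ l % 4 = 1 ∨ l % 4 = 2 ∨ l % 4 = 3 := by omega
    rcases e with e | e | e | e
    · have : l = 4 * (l / 4) := by omega
      rw [this]; exact h1
    · have : l = 4 * (l / 4) + 1 := by omega
      rw [this]; exact h2
    · have : l = 4 * (l / 4) + 2 := by omega
      rw [this]; exact h3
    · have : l = 4 * (l / 4) + 3 := by omega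
      rw [this]; exact h4
  refine cob_of_hol hX hf Set.subset_union_left hwf' ?_
  intro l hl
  rcases Nat.lt_or_ge l (MM m) with h | h
  · exact hN l h
  · have h1 := hev l hl
    have e : wds m (rs.map nw) (nw w) l = (l, false) :: rho m (rs.map nw) (nw w) (l - MM m) := by
      unfold wds; rw [if_neg (by omega)]
    rw [e, ev_cons, ev_eq_one (hol f) (rho m (rs.map nw) (nw w) (l - MM m))] at h1
    · simpa using h1
    · intro x hx
      exact hN _ (rho_lt (bd_map rs) (bd_nw w) (by omega) x hx)

theorem mem_of_contr [h : ContractibleSpace (Rl (XW rs w))] :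
    FreeGroup.mk w ∈ Subgroup.normalClosure (RS rs) := by
  classical
  by_contra hw
  obtain ⟨H, _, a, b, c, d, h1, h2, h3, h4⟩ := model m (RS rs) (FreeGroup.mk w) hw
  have hM : 0 < MM m := by unfold MM; omega
  have hMM : MM m = 4 * (2 * m + 2) := rfl
  have hwf := wf_wds (bd_map rs) (bd_nw w) (n := MM m) le_rfl (Nat.le_add_right _ _)
  have hwf' := wf_wds (bd_map rs) (bd_nw w) (n := MM m + JJ m (rs.map nw))
    (Nat.le_add_right _ _) le_rfl
  have hlen : (rs.map nw).length = rs.length := List.length_map _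
  have hJ : JJ m (rs.map nw) = rs.length + (2 * m + 2) := by unfold JJ; rw [hlen]
  let t : ℕ → H := fun l => if l < MM m then
    (if l % 4 = 0 then a (l / 4) else if l % 4 = 1 then b (l / 4) else if l % 4 = 2 then c (l / 4)
      else d (l / 4)) else 1
  have ta : ∀ p < 2 * m + 2, t (4 * p) = a p := by
    intro p hp
    have e1 : 4 * p / 4 = p := by omega
    have e2 : 4 * p % 4 = 0 := by omega
    have e3 : 4 * p < MM m := by omega
    simp only [t, e1, e2, e3, if_true]
  have tb : ∀ p < 2 * m + 2, t (4 * p + 1) = b p := by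
    intro p hp
    have e1 : (4 * p + 1) / 4 = p := by omega
    have e2 : (4 * p + 1) % 4 = 1 := by omega
    have e3 : 4 * p + 1 < MM m := by omega
    simp only [t, e1, e2, e3, if_true]
    rw [if_neg (by omega)]
  have tc : ∀ p < 2 * m + 2, t (4 * p + 2) = c p := by
    intro p hp
    have e1 : (4 * p + 2) / 4 = p := by omega
    have e2 : (4 * p + 2) % 4 = 2 := by omega
    have e3 : 4 * p + 2 < MM m := by omega
    simp only [t, e1, e2, e3, if_true]
    rw [if_neg (by omega), if_neg (by omega)]
  have td : ∀ p < 2 * m + 2, t (4 * p + 3) = d p := by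
    intro p hp
    have e1 : (4 * p + 3) / 4 = p := by omega
    have e2 : (4 * p + 3) % 4 = 3 := by omega
    have e3 : 4 * p + 3 < MM m := by omega
    simp only [t, e1, e2, e3, if_true]
    rw [if_neg (by omega), if_neg (by omega), if_neg (by omega)]
  have tz : ∀ l, MM m ≤ l → t l = 1 := by
    intro l hl
    simp only [t]
    rw [if_neg (by omega)]
  have hxl : ∀ g, xl m (fun p => t (4 * p + 2)) g = xl m c g := by
    intro g
    unfold xl
    congr 1
    apply congrArg
    funext i
    have := i.2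
    simp only
    rw [tc _ (by omega), tc _ (by omega)]
  have hev : ∀ q < MM m + JJ m (rs.map nw), ev t (wds m (rs.map nw) (nw w) q) = 1 := by
    intro q hq
    rcases Nat.lt_or_ge q (MM m) with h | h
    · have hp : q / 4 < 2 * m + 2 := by omega
      have e : q = 4 * (q / 4) + q % 4 := by omega
      rw [e]
      refine (hig_iff t (rs.map nw) (nw w) hp).2 ?_ (q % 4) (Nat.mod_lt _ (by norm_num))
      rw [ta _ hp, tb _ hp, tc _ hp, td _ hp]
      exact h1 _ hp
    · obtain ⟨j, rfl⟩ := Nat.exists_eq_add_of_le h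
      rcases Nat.lt_or_ge j rs.length with hj | hj
      · rw [wds_rel _ _ (by rw [hlen]; exact hj), ev_cons, getD_map rs hj, ev_sb, hxl,
          h2 _ ⟨_, List.getElem_mem hj, rfl⟩]
        simp only [cond_false]
        rw [tz _ (by omega)]
        simp
      · obtain ⟨p, rfl⟩ := Nat.exists_eq_add_of_le hj
        have hp : p < 2 * m + 2 := by omega
        rw [← hlen, wds_cm, ev_cons, ev_cw]
        simp only [cond_false]
        rw [tz _ (by omega), ta _ hp]
        have e : cm m (fun p => t (4 * p + 2)) (FreeGroup.mk w) p = cm m c (FreeGroup.mk w) p := by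
          have e' : (fun p => t (4 * p + 2)) (st p) = c (st p) :=
            tc _ (by have := st_lt p; omega)
          unfold cm
          rw [hxl, e']
        rw [e, ← h3 p hp]
        simp
  have h5 : t 0 = 1 := @letters_trivial H _ (MM m) (JJ m (rs.map nw))
    (wds m (rs.map nw) (nw w)) t hM hwf hwf' (fun q _ => ne_wds _ _ _ q) hev tz h
  have h6 := ta 0 (by omega)
  rw [mul_zero] at h6
  exact h4 (h6 ▸ h5)

end

end Pool.Agent.H668R2.Ctr
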