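import Mathlib
import Pool.Agent.H668R2.Ctr.Iff

set_option autoImplicit false
set_option linter.unusedVariables false

/-! Lists of simplices. -/

namespace Pool.Agent.H668R2.Ctr

open Pool.Agent.Helper281.Sc (Simp IsCx)

/-- the triangles of a disc, as a list -/
def DL (q : ℕ) (E : List (ℕ × ℕ)) : List (ℕ × ℕ × ℕ) :=
  ((List.range E.length).flatMap fun i => [(av E i, bv E i, rg q i),
    (bv E i, rg q i, rg q (i + 1)), (rg q i, rg q (i + 1), cn q)]) ++
  [(0, rg q E.length, rg q 0), (rg q E.length, rg q 0, cn q)]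

theorem mem_DL {q : ℕ} {E : List (ℕ × ℕ)} {x : ℕ × ℕ × ℕ} : x ∈ DL q E ↔ x ∈ Dk q E := by
  unfold DL Dk
  simp only [List.mem_append, List.mem_flatMap, List.mem_range, List.mem_cons, List.not_mem_nil,
    or_false, Set.mem_ofPred_eq]

/-- the faces of a triangle -/
def faces (x : ℕ × ℕ × ℕ) : List (List ℕ) :=
  [[x.1], [x.2.1], [x.2.2], [x.1, x.2.1], [x.1, x.2.2], [x.2.1, x.2.2], [x.1, x.2.1, x.2.2]]

theorem mem_faces (x : ℕ × ℕ × ℕ) (s : Finset ℕ) :
    (∃ l ∈ faces x, l.toFinset = s) ↔ s.Nonempty ∧ s ⊆ tr x := by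
  obtain ⟨x, y, z⟩ := x
  constructor
  · rintro ⟨l, hl, rfl⟩
    simp only [faces, List.mem_cons, List.not_mem_nil, or_false] at hl
    rcases hl with rfl | rfl | rfl | rfl | rfl | rfl | rfl <;> simp [tr, Finset.insert_subset_iff]
  · rintro ⟨hn, hs⟩
    have key : ∀ l ∈ faces (x, y, z), (∀ v, v ∈ s ↔ v ∈ l) → ∃ l ∈ faces (x, y, z), l.toFinset = s := by
      intro l hl h
      refine ⟨l, hl, ?_⟩
      ext v
      rw [List.mem_toFinset, h]
    have hs' : ∀ v ∈ s, v = x ∨ v = y ∨ v = z := by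
      intro v hv
      have := hs hv
      simpa [tr] using this
    by_cases hx : x ∈ s <;> by_cases hy : y ∈ s <;> by_cases hz : z ∈ s
    · apply key [x, y, z] (by simp [faces])
      intro v
      simp only [List.mem_cons, List.not_mem_nil, or_false]
      exact ⟨hs' v, by rintro (rfl | rfl | rfl) <;> assumption⟩
    · apply key [x, y] (by simp [faces])
      intro v
      simp only [List.mem_cons, List.not_mem_nil, or_false]
      refine ⟨fun hv => ?_, by rintro (rfl | rfl) <;> assumption⟩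
      rcases hs' v hv with rfl | rfl | rfl
      · exact Or.inl rfl
      · exact Or.inr rfl
      · exact absurd hv hz
    · apply key [x, z] (by simp [faces])
      intro v
      simp only [List.mem_cons, List.not_mem_nil, or_false]
      refine ⟨fun hv => ?_, by rintro (rfl | rfl) <;> assumption⟩
      rcases hs' v hv with rfl | rfl | rfl
      · exact Or.inl rfl
      · exact absurd hv hy
      · exact Or.inr rfl
    · apply key [x] (by simp [faces])
      intro v
      simp only [List.mem_cons, List.not_mem_nil, or_false]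
      refine ⟨fun hv => ?_, by rintro rfl; assumption⟩
      rcases hs' v hv with rfl | rfl | rfl
      · rfl
      · exact absurd hv hy
      · exact absurd hv hz
    · apply key [y, z] (by simp [faces])
      intro v
      simp only [List.mem_cons, List.not_mem_nil, or_false]
      refine ⟨fun hv => ?_, by rintro (rfl | rfl) <;> assumption⟩
      rcases hs' v hv with rfl | rfl | rfl
      · exact absurd hv hx
      · exact Or.inl rfl
      · exact Or.inr rfl
    · apply key [y] (by simp [faces])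
      intro v
      simp only [List.mem_cons, List.not_mem_nil, or_false]
      refine ⟨fun hv => ?_, by rintro rfl; assumption⟩
      rcases hs' v hv with rfl | rfl | rfl
      · exact absurd hv hx
      · rfl
      · exact absurd hv hz
    · apply key [z] (by simp [faces])
      intro v
      simp only [List.mem_cons, List.not_mem_nil, or_false]
      refine ⟨fun hv => ?_, by rintro rfl; assumption⟩
      rcases hs' v hv with rfl | rfl | rfl
      · exact absurd hv hx
      · exact absurd hv hy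
      · rfl
    · obtain ⟨v, hv⟩ := hn
      exfalso
      rcases hs' v hv with rfl | rfl | rfl
      · exact hx hv
      · exact hy hv
      · exact hz hv

theorem faces_ok {x : ℕ × ℕ × ℕ} (h1 : x.1 ≠ x.2.1) (h2 : x.1 ≠ x.2.2) (h3 : x.2.1 ≠ x.2.2) :
    ∀ l ∈ faces x, l ≠ [] ∧ l.Nodup ∧ l.length ≤ 4 := by
  intro l hl
  simp only [faces, List.mem_cons, List.not_mem_nil, or_false] at hl
  rcases hl with rfl | rfl | rfl | rfl | rfl | rfl | rfl <;> simp [h1, h2, h3]

theorem Dk_distinct {q : ℕ} {w : List (ℕ × Bool)} (hw : w ≠ []) {x : ℕ × ℕ × ℕ}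
    (hx : x ∈ Dk q (pe w)) : x.1 ≠ x.2.1 ∧ x.1 ≠ x.2.2 ∧ x.2.1 ≠ x.2.2 := by
  have hL : 0 < (pe w).length := by
    rw [pe_length]
    have := List.length_pos_of_ne_nil hw
    omega
  have hG : ∀ v i, Gv v → v ≠ rg q i := by
    rintro v i hv rfl
    have := unpair_Gv hv
    rw [unpair_rg] at this
    simp only at this
    omega
  have hr : ∀ i j, i ≠ j → rg q i ≠ rg q j := by
    intro i j hij h
    unfold rg at h
    rw [Nat.pair_eq_pair] at h
    omega
  have hc : ∀ i, rg q i ≠ cn q := by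
    intro i h
    unfold rg cn at h
    rw [Nat.pair_eq_pair] at h
    omega
  rcases hx with ⟨i, hi, rfl | rfl | rfl⟩ | rfl | rfl
  · exact ⟨pe_ne w i hi, hG _ _ (Gv_av w i), hG _ _ (Gv_bv w i hi)⟩
  · exact ⟨hG _ _ (Gv_bv w i hi), hG _ _ (Gv_bv w i hi), hr _ _ (by omega)⟩
  · exact ⟨hr _ _ (by omega), hc _, hc _⟩
  · exact ⟨hG _ _ (Or.inl rfl), hG _ _ (Or.inl rfl), hr _ _ (by omega)⟩
  · exact ⟨hr _ _ (by omega), hc _, hc _⟩

/-- cardinality of chains in a product -/
theorem chain_card {A : Finset (ℕ × ℕ)} (hA : ∀ p ∈ A, ∀ q ∈ A, p ≤ q ∨ q ≤ p)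
    (hn : A.Nonempty) : A.card + 1 ≤ (A.image Prod.fst).card + (A.image Prod.snd).card := by
  classical
  let r : ℕ × ℕ → ℕ := fun p => ((A.image Prod.fst).filter (· ≤ p.1)).card +
    ((A.image Prod.snd).filter (· ≤ p.2)).card
  have hinj : Set.InjOn r (A : Set (ℕ × ℕ)) := by
    have key : ∀ p ∈ A, ∀ q ∈ A, p ≤ q → r p = r q → p = q := by
      intro p hp q hq hpq h
      have h1 : ((A.image Prod.fst).filter (· ≤ p.1)) ⊆ ((A.image Prod.fst).filter (· ≤ q.1)) := by
        intro x hx
        rw [Finset.mem_filter] at hx ⊢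
        exact ⟨hx.1, hx.2.trans hpq.1⟩
      have h2 : ((A.image Prod.snd).filter (· ≤ p.2)) ⊆ ((A.image Prod.snd).filter (· ≤ q.2)) := by
        intro x hx
        rw [Finset.mem_filter] at hx ⊢
        exact ⟨hx.1, hx.2.trans hpq.2⟩
      have c1 := Finset.card_le_card h1
      have c2 := Finset.card_le_card h2
      have hr : r p = r q := h
      simp only [r] at hr
      have e1 := Finset.eq_of_subset_of_card_le h1 (by omega)
      have e2 := Finset.eq_of_subset_of_card_le h2 (by omega)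
      have m1 : q.1 ∈ ((A.image Prod.fst).filter (· ≤ q.1)) :=
        Finset.mem_filter.2 ⟨Finset.mem_image_of_mem _ hq, le_rfl⟩
      have m2 : q.2 ∈ ((A.image Prod.snd).filter (· ≤ q.2)) :=
        Finset.mem_filter.2 ⟨Finset.mem_image_of_mem _ hq, le_rfl⟩
      rw [← e1, Finset.mem_filter] at m1
      rw [← e2, Finset.mem_filter] at m2
      exact le_antisymm hpq ⟨m1.2, m2.2⟩
    intro p hp q hq h
    rcases hA p hp q hq with h1 | h1
    · exact key p hp q hq h1 h
    · exact (key q hq p hp h1 h.symm).symm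
  have hmap : ∀ p ∈ A, r p ∈ Finset.Icc 2 ((A.image Prod.fst).card + (A.image Prod.snd).card) := by
    intro p hp
    rw [Finset.mem_Icc]
    have h1 : 0 < ((A.image Prod.fst).filter (· ≤ p.1)).card :=
      Finset.card_pos.2 ⟨p.1, Finset.mem_filter.2 ⟨Finset.mem_image_of_mem _ hp, le_rfl⟩⟩
    have h2 : 0 < ((A.image Prod.snd).filter (· ≤ p.2)).card :=
      Finset.card_pos.2 ⟨p.2, Finset.mem_filter.2 ⟨Finset.mem_image_of_mem _ hp, le_rfl⟩⟩
    have h3 := Finset.card_filter_le (A.image Prod.fst) (· ≤ p.1)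
    have h4 := Finset.card_filter_le (A.image Prod.snd) (· ≤ p.2)
    simp only [r]
    omega
  have h5 := Finset.card_le_card_of_injOn r hmap hinj
  rw [Nat.card_Icc] at h5
  have h6 : 0 < A.card := Finset.card_pos.2 hn
  omega

theorem card_edg (e : Fin 3) : (edg e).card = 2 := by
  fin_cases e <;> decide

theorem card_Pc {N : Set (Finset ℕ)} (hN : ∀ s ∈ N, s.card ≤ 3) {ν : ℕ × ℕ → ℕ} {e : Fin 3}
    {s : Finset ℕ} (hs : s ∈ Pc N ν e) : s.card ≤ 4 := by
  obtain ⟨A, hA, rfl⟩ := hs
  have h1 := chain_card hA.2.1 hA.1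
  have h2 := hN _ hA.2.2.1
  have h3 := Finset.card_le_card hA.2.2.2
  rw [card_edg] at h3
  have h4 : (A.image ν).card ≤ A.card := Finset.card_image_le
  omega

theorem KK_congr {n : ℕ} {wd wd' : ℕ → List (ℕ × Bool)} (h : ∀ q < n, wd q = wd' q) :
    KK n wd = KK n wd' := by
  have : Fc n wd = Fc n wd' := by
    ext f
    constructor
    · rintro (hl | ⟨q, hq, x, hx, rfl⟩)
      · exact Or.inl hl
      · exact Or.inr ⟨q, hq, x, by rw [← h q hq]; exact hx, rfl⟩
    · rintro (hl | ⟨q, hq, x, hx, rfl⟩)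
      · exact Or.inl hl
      · exact Or.inr ⟨q, hq, x, by rw [h q hq]; exact hx, rfl⟩
  unfold KK
  rw [this]

section

variable {m : ℕ} (rs : List (List (Fin m × Bool)))

/-- the part of the complex which does not depend on the word -/
def A0 : Set (Finset ℕ) :=
  {s | s.Nonempty ∧ ∃ f, ((∃ l < MM m + JJ m (rs.map nw), f = {0, v1 l} ∨ f = {v1 l, v2 l} ∨
    f = {v2 l, 0}) ∨ ∃ q < MM m + rs.length, ∃ x ∈ Dk q (pe (wds m (rs.map nw) [] q)), f = tr x) ∧
    s ⊆ f} ∪
  {s | ∃ j < JJ m (rs.map nw), ∃ e, s ∈ Pc (KK (MM m) (wds m (rs.map nw) [])) (nu (MM m) j) e}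

/-- the index of a commutator disc -/
def ix (p : ℕ) : ℕ := MM m + (rs.length + p)

/-- the word of a commutator disc -/
def wx (w : List (Fin m × Bool)) (p : ℕ) : List (ℕ × Bool) := (ix rs p, false) :: cw m (nw w) p

/-- the part of the complex which depends on the word -/
def B0 (w : List (Fin m × Bool)) : List (List ℕ) :=
  (List.range (2 * m + 2)).flatMap fun p => (DL (ix rs p) (pe (wx rs w p))).flatMap faces

theorem wds_const {q : ℕ} (hq : q < MM m + rs.length) (w : List (ℕ × Bool)) :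
    wds m (rs.map nw) w q = wds m (rs.map nw) [] q := by
  unfold wds rho
  split_ifs with h1 h2
  · rfl
  · rfl
  · rw [List.length_map] at h2; omega

theorem XW_eq (w : List (Fin m × Bool)) :
    XW rs w = A0 rs ∪ {s | ∃ l ∈ B0 rs w, l.toFinset = s} := by
  have hJ : JJ m (rs.map nw) = rs.length + (2 * m + 2) := by unfold JJ; rw [List.length_map]
  have hw : ∀ p, wds m (rs.map nw) (nw w) (ix rs p) = wx rs w p := by
    intro p
    have := wds_cm (m := m) p (rs.map nw) (nw w)
    rw [List.length_map] at this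
    exact this
  ext s
  unfold XW XX A0
  rw [KK_congr (fun q hq => wds_const rs (by omega) (nw w) : ∀ q < MM m,
    wds m (rs.map nw) (nw w) q = wds m (rs.map nw) [] q)]
  constructor
  · rintro (⟨hn, f, hf, hs⟩ | h)
    · rcases hf with hl | ⟨q, hq, x, hx, rfl⟩
      · exact Or.inl (Or.inl ⟨hn, f, Or.inl hl, hs⟩)
      · rcases Nat.lt_or_ge q (MM m + rs.length) with h | h
        · rw [wds_const rs h] at hx
          exact Or.inl (Or.inl ⟨hn, _, Or.inr ⟨q, h, x, hx, rfl⟩, hs⟩)
        · right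
          obtain ⟨p, rfl⟩ := Nat.exists_eq_add_of_le h
          have e : MM m + rs.length + p = ix rs p := by unfold ix; omega
          rw [e, hw] at hx
          obtain ⟨l, hl, hls⟩ := (mem_faces x s).2 ⟨hn, hs⟩
          refine ⟨l, ?_, hls⟩
          unfold B0
          rw [List.mem_flatMap]
          refine ⟨p, List.mem_range.2 (by omega), ?_⟩
          rw [List.mem_flatMap]
          exact ⟨x, mem_DL.2 hx, hl⟩
    · exact Or.inl (Or.inr h)
  · rintro ((⟨hn, f, hf, hs⟩ | h) | ⟨l, hl, hls⟩)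
    · rcases hf with hl | ⟨q, hq, x, hx, rfl⟩
      · exact Or.inl ⟨hn, f, Or.inl hl, hs⟩
      · rw [← wds_const rs hq (nw w)] at hx
        exact Or.inl ⟨hn, _, Or.inr ⟨q, by omega, x, hx, rfl⟩, hs⟩
    · exact Or.inr h
    · unfold B0 at hl
      rw [List.mem_flatMap] at hl
      obtain ⟨p, hp, hl⟩ := hl
      rw [List.mem_flatMap] at hl
      obtain ⟨x, hx, hl⟩ := hl
      rw [List.mem_range] at hp
      have hx' := mem_DL.1 hx
      rw [← hw] at hx'
      obtain ⟨hn, hs⟩ := (mem_faces x s).1 ⟨l, hl, hls⟩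
      exact Or.inl ⟨hn, _, Or.inr ⟨ix rs p, by unfold ix; omega, x, hx', rfl⟩, hs⟩

theorem A0_finite : (A0 rs).Finite := by
  have h : A0 rs ⊆ XW rs [] := by
    rw [XW_eq]
    exact Set.subset_union_left
  have hM : 0 < MM m := by unfold MM; omega
  have hwf := wf_wds (bd_map rs) (bd_nw (m := m) []) (n := MM m) le_rfl (Nat.le_add_right _ _)
  have hwf' := wf_wds (bd_map rs) (bd_nw (m := m) []) (n := MM m + JJ m (rs.map nw))
    (Nat.le_add_right _ _) le_rfl
  exact (data hM hwf hwf').hXf.subset h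

theorem A0_nonempty {s : Finset ℕ} (hs : s ∈ A0 rs) : s.Nonempty := by
  rcases hs with ⟨h, _⟩ | ⟨j, _, e, A, hA, rfl⟩
  · exact h
  · exact hA.1.image _

theorem A0_card {s : Finset ℕ} (hs : s ∈ A0 rs) : s.card ≤ 4 := by
  rcases hs with ⟨_, f, hf, h⟩ | ⟨j, _, e, hs⟩
  · have h3 : f.card ≤ 3 := by
      rcases hf with ⟨l, _, h | h | h⟩ | ⟨q, _, x, _, rfl⟩
      · rw [h]; exact Finset.card_le_two.trans (by norm_num)
      · rw [h]; exact Finset.card_le_two.trans (by norm_num)
      · rw [h]; exact Finset.card_le_two.trans (by norm_num)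
      · exact Finset.card_le_three
    have := Finset.card_le_card h
    omega
  · exact card_Pc (fun s hs => card_KK hs) hs

/-- the constant part as a list -/
noncomputable def C0 : List (List ℕ) := (A0_finite rs).toFinset.toList.map Finset.toList

theorem mem_C0 (s : Finset ℕ) : (∃ l ∈ C0 rs, l.toFinset = s) ↔ s ∈ A0 rs := by
  unfold C0
  constructor
  · rintro ⟨l, hl, rfl⟩
    obtain ⟨s, hs, rfl⟩ := List.mem_map.1 hl
    rw [Finset.toList_toFinset]
    rw [Finset.mem_toList, Set.Finite.mem_toFinset] at hs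
    exact hs
  · intro hs
    exact ⟨s.toList, List.mem_map.2 ⟨s, by rw [Finset.mem_toList, Set.Finite.mem_toFinset]; exact hs,
      rfl⟩, Finset.toList_toFinset s⟩

/-- the whole list -/
noncomputable def LL (w : List (Fin m × Bool)) : List (List ℕ) := C0 rs ++ B0 rs w

theorem mem_LL (w : List (Fin m × Bool)) : {s | ∃ l ∈ LL rs w, l.toFinset = s} = XW rs w := by
  rw [XW_eq]
  ext s
  unfold LL
  rw [Set.mem_union, ← mem_C0]
  constructor
  · rintro ⟨l, hl, hs⟩
    rcases List.mem_append.1 hl with h | h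
    · exact Or.inl ⟨l, h, hs⟩
    · exact Or.inr ⟨l, h, hs⟩
  · rintro (⟨l, h, hs⟩ | ⟨l, h, hs⟩)
    · exact ⟨l, List.mem_append.2 (Or.inl h), hs⟩
    · exact ⟨l, List.mem_append.2 (Or.inr h), hs⟩

theorem LL_ok (w : List (Fin m × Bool)) : ∀ l ∈ LL rs w, l ≠ [] ∧ l.Nodup ∧ l.length ≤ 4 := by
  intro l hl
  rcases List.mem_append.1 hl with h | h
  · unfold C0 at h
    obtain ⟨s, hs, rfl⟩ := List.mem_map.1 h
    rw [Finset.mem_toList, Set.Finite.mem_toFinset] at hs
    refine ⟨?_, Finset.nodup_toList s, ?_⟩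
    · intro h
      rw [Finset.toList_eq_nil] at h
      have := A0_nonempty rs hs
      rw [h] at this
      simp at this
    · rw [Finset.length_toList]
      exact A0_card rs hs
  · unfold B0 at h
    rw [List.mem_flatMap] at h
    obtain ⟨p, hp, hl⟩ := h
    rw [List.mem_flatMap] at hl
    obtain ⟨x, hx, hl⟩ := hl
    have hx' := mem_DL.1 hx
    obtain ⟨h1, h2, h3⟩ := Dk_distinct (by unfold wx; simp) hx'
    exact faces_ok h1 h2 h3 l hl

end

end Pool.Agent.H668R2.Ctr
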