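import Mathlib
import Pool.Agent.H668R2.Ctr.Lst
import Pool.Agent.Helper270.WPB

set_option autoImplicit false
set_option linter.unusedVariables false

/-! Computability of the construction. -/

namespace Pool.Agent.H668R2.Ctr

open Pool.Agent.Helper281.Sc (Simp IsCx)

theorem pr_list2 {α β : Type} [Primcodable α] [Primcodable β] {f g : α → β} (hf : Primrec f)
    (hg : Primrec g) : Primrec fun a => [f a, g a] :=
  Primrec.list_cons.comp hf (Primrec.list_cons.comp hg (Primrec.const []))

theorem pr_list3 {α β : Type} [Primcodable α] [Primcodable β] {f g h : α → β} (hf : Primrec f)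
    (hg : Primrec g) (hh : Primrec h) : Primrec fun a => [f a, g a, h a] :=
  Primrec.list_cons.comp hf (pr_list2 hg hh)

theorem pr_list1 {α β : Type} [Primcodable α] [Primcodable β] {f : α → β} (hf : Primrec f) :
    Primrec fun a => [f a] :=
  Primrec.list_cons.comp hf (Primrec.const [])

theorem pr_add {α : Type} [Primcodable α] {f g : α → ℕ} (hf : Primrec f) (hg : Primrec g) :
    Primrec fun a => f a + g a := Primrec.nat_add.comp hf hg

theorem pr_mul {α : Type} [Primcodable α] {f g : α → ℕ} (hf : Primrec f) (hg : Primrec g) :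
    Primrec fun a => f a * g a := Primrec.nat_mul.comp hf hg

theorem pr_pair {α : Type} [Primcodable α] {f g : α → ℕ} (hf : Primrec f) (hg : Primrec g) :
    Primrec fun a => Nat.pair (f a) (g a) := Primrec₂.natPair.comp hf hg

theorem pr_v1 {α : Type} [Primcodable α] {f : α → ℕ} (hf : Primrec f) :
    Primrec fun a => v1 (f a) := pr_pair (Primrec.const 1) (pr_mul (Primrec.const 2) hf)

theorem pr_v2 {α : Type} [Primcodable α] {f : α → ℕ} (hf : Primrec f) :
    Primrec fun a => v2 (f a) :=
  pr_pair (Primrec.const 1) (pr_add (pr_mul (Primrec.const 2) hf) (Primrec.const 1))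

theorem pr_rg {α : Type} [Primcodable α] {f g : α → ℕ} (hf : Primrec f) (hg : Primrec g) :
    Primrec fun a => rg (f a) (g a) :=
  pr_pair (pr_add (Primrec.const 3) hf) (pr_add hg (Primrec.const 1))

theorem pr_cn {α : Type} [Primcodable α] {f : α → ℕ} (hf : Primrec f) :
    Primrec fun a => cn (f a) := pr_pair (pr_add (Primrec.const 3) hf) (Primrec.const 0)

theorem pr_le : Primrec le := by
  unfold le
  have h1 : Primrec fun l : ℕ × Bool => v1 l.1 := pr_v1 Primrec.fst
  have h2 : Primrec fun l : ℕ × Bool => v2 l.1 := pr_v2 Primrec.fst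
  have h0 : Primrec fun l : ℕ × Bool => (0 : ℕ) := Primrec.const 0
  exact Primrec.cond Primrec.snd
    (pr_list3 (Primrec.pair h0 h1) (Primrec.pair h1 h2) (Primrec.pair h2 h0))
    (pr_list3 (Primrec.pair h0 h2) (Primrec.pair h2 h1) (Primrec.pair h1 h0))

theorem pr_pe : Primrec pe := by
  unfold pe
  exact Primrec.list_flatMap Primrec.id (pr_le.comp Primrec.snd).to₂

theorem pr_av {α : Type} [Primcodable α] {E : α → List (ℕ × ℕ)} {i : α → ℕ} (hE : Primrec E)
    (hi : Primrec i) : Primrec fun a => av (E a) (i a) :=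
  Primrec.fst.comp ((Primrec.list_getD (0, 0)).comp hE hi)

theorem pr_bv {α : Type} [Primcodable α] {E : α → List (ℕ × ℕ)} {i : α → ℕ} (hE : Primrec E)
    (hi : Primrec i) : Primrec fun a => bv (E a) (i a) :=
  Primrec.snd.comp ((Primrec.list_getD (0, 0)).comp hE hi)

theorem pr_faces : Primrec faces := by
  unfold faces
  have h1 : Primrec fun x : ℕ × ℕ × ℕ => x.1 := Primrec.fst
  have h2 : Primrec fun x : ℕ × ℕ × ℕ => x.2.1 := Primrec.fst.comp Primrec.snd
  have h3 : Primrec fun x : ℕ × ℕ × ℕ => x.2.2 := Primrec.snd.comp Primrec.snd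
  exact Primrec.list_cons.comp (pr_list1 h1) (Primrec.list_cons.comp (pr_list1 h2)
    (Primrec.list_cons.comp (pr_list1 h3) (Primrec.list_cons.comp (pr_list2 h1 h2)
    (Primrec.list_cons.comp (pr_list2 h1 h3) (Primrec.list_cons.comp (pr_list2 h2 h3)
    (pr_list1 (pr_list3 h1 h2 h3)))))))

theorem pr_DL : Primrec₂ DL := by
  unfold DL
  have hE : Primrec fun x : ℕ × List (ℕ × ℕ) => x.2 := Primrec.snd
  have hl : Primrec fun x : ℕ × List (ℕ × ℕ) => x.2.length := Primrec.list_length.comp hE
  have hq : Primrec fun x : ℕ × List (ℕ × ℕ) => x.1 := Primrec.fst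
  refine Primrec.list_append.comp ?_ ?_
  · refine Primrec.list_flatMap (Primrec.list_range.comp hl) ?_
    have hE' : Primrec fun y : (ℕ × List (ℕ × ℕ)) × ℕ => y.1.2 := Primrec.snd.comp Primrec.fst
    have hq' : Primrec fun y : (ℕ × List (ℕ × ℕ)) × ℕ => y.1.1 := Primrec.fst.comp Primrec.fst
    have hi : Primrec fun y : (ℕ × List (ℕ × ℕ)) × ℕ => y.2 := Primrec.snd
    have hi1 : Primrec fun y : (ℕ × List (ℕ × ℕ)) × ℕ => y.2 + 1 := pr_add hi (Primrec.const 1)
    exact (pr_list3 (Primrec.pair (pr_av hE' hi) (Primrec.pair (pr_bv hE' hi) (pr_rg hq' hi)))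
      (Primrec.pair (pr_bv hE' hi) (Primrec.pair (pr_rg hq' hi) (pr_rg hq' hi1)))
      (Primrec.pair (pr_rg hq' hi) (Primrec.pair (pr_rg hq' hi1) (pr_cn hq')))).to₂
  · exact pr_list2 (Primrec.pair (Primrec.const 0) (Primrec.pair (pr_rg hq hl)
      (pr_rg hq (Primrec.const 0))))
      (Primrec.pair (pr_rg hq hl) (Primrec.pair (pr_rg hq (Primrec.const 0)) (pr_cn hq)))

theorem pr_st : Primrec st := by
  unfold st
  exact Primrec.ite (Primrec.eq.comp Primrec.id (Primrec.const 0)) (Primrec.const 1)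
    (Primrec.const 0)

theorem pr_s1 (m : ℕ) : Primrec fun x : ℕ × Bool => s1 m x.1 x.2 := by
  unfold s1
  have a : Primrec fun x : ℕ × Bool => 4 * (2 + x.1) + 2 :=
    pr_add (pr_mul (Primrec.const 4) (pr_add (Primrec.const 2) Primrec.fst)) (Primrec.const 2)
  have b : Primrec fun x : ℕ × Bool => 4 * (2 + m + x.1) + 2 :=
    pr_add (pr_mul (Primrec.const 4) (pr_add (Primrec.const (2 + m)) Primrec.fst)) (Primrec.const 2)
  have t : Primrec fun x : ℕ × Bool => true := Primrec.const true
  have f : Primrec fun x : ℕ × Bool => false := Primrec.const false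
  exact Primrec.cond Primrec.snd (pr_list2 (Primrec.pair a t) (Primrec.pair b f))
    (pr_list2 (Primrec.pair b t) (Primrec.pair a f))

theorem pr_sb (m : ℕ) : Primrec (sb m) := by
  unfold sb
  exact Primrec.list_flatMap Primrec.id ((pr_s1 m).comp Primrec.snd).to₂

theorem pr_iv : Primrec iv := by
  unfold iv
  refine Primrec.list_reverse.comp (Primrec.list_map Primrec.id ?_)
  have a : Primrec fun x : List (ℕ × Bool) × (ℕ × Bool) => x.2.1 := Primrec.fst.comp Primrec.snd
  have b : Primrec fun x : List (ℕ × Bool) × (ℕ × Bool) => !x.2.2 :=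
    Primrec.not.comp (Primrec.snd.comp Primrec.snd)
  exact (Primrec.pair a b).to₂

theorem pr_cw (m : ℕ) : Primrec₂ (cw m) := by
  unfold cw
  have hw : Primrec fun x : List (ℕ × Bool) × ℕ => sb m x.1 := (pr_sb m).comp Primrec.fst
  have hi : Primrec fun x : List (ℕ × Bool) × ℕ => iv (sb m x.1) := pr_iv.comp hw
  have h1 : Primrec fun x : List (ℕ × Bool) × ℕ => (4 * x.2, false) :=
    Primrec.pair (pr_mul (Primrec.const 4) Primrec.snd) (Primrec.const false)
  have h2 : Primrec fun x : List (ℕ × Bool) × ℕ => 4 * st x.2 + 2 :=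
    pr_add (pr_mul (Primrec.const 4) (pr_st.comp Primrec.snd)) (Primrec.const 2)
  exact (Primrec.list_cons.comp h1 (Primrec.list_append.comp hw (Primrec.list_cons.comp
    (Primrec.pair h2 (Primrec.const true)) (Primrec.list_append.comp hi
      (pr_list1 (Primrec.pair h2 (Primrec.const false))))))).to₂

theorem pr_nw (m : ℕ) : Primrec (nw (m := m)) := by
  unfold nw
  refine Primrec.list_map Primrec.id ?_
  have a : Primrec fun x : List (Fin m × Bool) × (Fin m × Bool) => (x.2.1 : ℕ) :=
    Primrec.fin_val.comp (Primrec.fst.comp Primrec.snd)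
  have b : Primrec fun x : List (Fin m × Bool) × (Fin m × Bool) => x.2.2 :=
    Primrec.snd.comp Primrec.snd
  exact (Primrec.pair a b).to₂

theorem pr_B0 {m : ℕ} (rs : List (List (Fin m × Bool))) : Primrec (B0 rs) := by
  unfold B0
  refine Primrec.list_flatMap (Primrec.const _) ?_
  have hw : Primrec fun x : List (Fin m × Bool) × ℕ => nw x.1 := (pr_nw m).comp Primrec.fst
  have hp : Primrec fun x : List (Fin m × Bool) × ℕ => x.2 := Primrec.snd
  have hi : Primrec fun x : List (Fin m × Bool) × ℕ => ix rs x.2 := by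
    unfold ix
    exact pr_add (Primrec.const (MM m)) (pr_add (Primrec.const rs.length) hp)
  have hx : Primrec fun x : List (Fin m × Bool) × ℕ => wx rs x.1 x.2 := by
    unfold wx
    exact Primrec.list_cons.comp (Primrec.pair hi (Primrec.const false)) ((pr_cw m).comp hw hp)
  have hD : Primrec fun x : List (Fin m × Bool) × ℕ => DL (ix rs x.2) (pe (wx rs x.1 x.2)) :=
    pr_DL.comp hi (pr_pe.comp hx)
  exact (Primrec.list_flatMap hD (pr_faces.comp Primrec.snd).to₂).to₂

theorem pr_LL {m : ℕ} (rs : List (List (Fin m × Bool))) : Primrec (LL rs) := by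
  unfold LL
  exact Primrec.list_append.comp (Primrec.const _) (pr_B0 rs)

theorem RS_toList {m : ℕ} (R : Finset (FreeGroup (Fin m))) :
    RS (R.toList.map FreeGroup.toWord) = (R : Set (FreeGroup (Fin m))) := by
  ext g
  unfold RS
  constructor
  · rintro ⟨r, hr, rfl⟩
    obtain ⟨x, hx, rfl⟩ := List.mem_map.1 hr
    rw [FreeGroup.mk_toWord]
    exact Finset.mem_coe.2 (Finset.mem_toList.1 hx)
  · intro hg
    exact ⟨g.toWord, List.mem_map.2 ⟨g, Finset.mem_toList.2 (Finset.mem_coe.1 hg), rfl⟩,
      FreeGroup.mk_toWord.symm⟩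

/-- The reduction: a computable sequence of lists of simplices of complexes of dimension at most
three, for which contractibility is not a computable predicate. -/
theorem reduction : ∃ L : ℕ → List (List ℕ), Computable L ∧
    (∀ n, ∀ l ∈ L n, l ≠ [] ∧ l.Nodup ∧ l.length ≤ 4) ∧
    (∀ n, IsCx {s | ∃ l ∈ L n, l.toFinset = s}) ∧
    ¬ ComputablePred fun n => ContractibleSpace (Rl {s | ∃ l ∈ L n, l.toFinset = s}) := by
  obtain ⟨m, R, W, hW, hR⟩ := Pool.Agent.Helper270.WP.word_problem
  refine ⟨fun n => LL (R.toList.map FreeGroup.toWord) (W n), (pr_LL _).to_comp.comp hW,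
    fun n => LL_ok _ _, fun n => ?_, ?_⟩
  · rw [mem_LL]
    exact isCx_XX _ _ _
  · intro h
    apply hR
    refine h.of_eq ?_
    intro n
    rw [mem_LL, ← RS_toList R]
    exact ⟨fun h => @mem_of_contr m _ (W n) h, fun h => contr_of_mem _ (W n) h⟩

end Pool.Agent.H668R2.Ctr
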